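import Pool.Agent.Lib.MP_2dbb30_al.LL.Defs
import Pool.Agent.Lib.MP_2dbb30_al.TF.Defs
import Pool.Agent.Lib.MP_2dbb30_al.TF.Base
import Pool.Agent.Lib.MP_2dbb30_al.Literal

set_option autoImplicit false
set_option linter.unusedSectionVars false

open Topology Filter
open scoped commutatorElement Manifold ContDiff PowerSeries.WithPiTopology

namespace Pool.Agent.Lib.MP_2dbb30_al.LL

open Pool.Agent.Lib.MP_2dbb30_al.TF

section Lie

variable {𝕜 : Type} [NontriviallyNormedField 𝕜] {E : Type} [NormedAddCommGroup E]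
  [NormedSpace 𝕜 E] {G : Type*} [Group G] [TopologicalSpace G] [ChartedSpace E G]
  [LieGroup 𝓘(𝕜, E) ω G]

lemma hasMFDerivAt_pow_u (k : ℕ) :
    HasMFDerivAt 𝓘(𝕜, E) 𝓘(𝕜, E) (fun x : G => x ^ k) 1
      ((k : 𝕜) • ContinuousLinearMap.id 𝕜 E : E →L[𝕜] E) := by
  have hm : MDifferentiableAt (𝓘(𝕜, E).prod 𝓘(𝕜, E)) 𝓘(𝕜, E) (fun q : G × G => q.1 * q.2)
      ((1 : G), (1 : G)) :=
    ((contMDiff_mul 𝓘(𝕜, E) ω (G := G)).mdifferentiable (by simp)) _
  obtain ⟨D, hD⟩ : ∃ D : E × E →L[𝕜] E,
      HasMFDerivAt (𝓘(𝕜, E).prod 𝓘(𝕜, E)) 𝓘(𝕜, E) (fun q : G × G => q.1 * q.2)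
        ((1 : G), (1 : G)) D := ⟨_, hm.hasMFDerivAt⟩
  have hid : HasMFDerivAt 𝓘(𝕜, E) 𝓘(𝕜, E) (fun x : G => x) 1
      (ContinuousLinearMap.id 𝕜 E : E →L[𝕜] E) := hasMFDerivAt_id _
  have hc : HasMFDerivAt 𝓘(𝕜, E) 𝓘(𝕜, E) (fun _ : G => (1 : G)) 1 (0 : E →L[𝕜] E) :=
    hasMFDerivAt_const _ _
  have h1 : D.comp ((ContinuousLinearMap.id 𝕜 E).prod 0) = ContinuousLinearMap.id 𝕜 E := by
    have := HasMFDerivAt.comp (1 : G) (g := fun q : G × G => q.1 * q.2)
      (f := fun x : G => (x, (1 : G))) hD (hid.prodMk hc)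
    have e : ((fun q : G × G => q.1 * q.2) ∘ fun x : G => (x, (1 : G))) = fun x => x := by
      ext x; simp
    rw [e] at this
    exact hasMFDerivAt_unique this hid
  have h2 : D.comp ((0 : E →L[𝕜] E).prod (ContinuousLinearMap.id 𝕜 E)) =
      ContinuousLinearMap.id 𝕜 E := by
    have := HasMFDerivAt.comp (1 : G) (g := fun q : G × G => q.1 * q.2)
      (f := fun x : G => ((1 : G), x)) hD (hc.prodMk hid)
    have e : ((fun q : G × G => q.1 * q.2) ∘ fun x : G => ((1 : G), x)) = fun x => x := by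
      ext x; simp
    rw [e] at this
    exact hasMFDerivAt_unique this hid
  have hDa : ∀ u v : E, D (u, v) = u + v := by
    intro u v
    have a1 : D (u, 0) = u := by simpa using congrArg (fun T : E →L[𝕜] E => T u) h1
    have a2 : D (0, v) = v := by simpa using congrArg (fun T : E →L[𝕜] E => T v) h2
    have : ((u, v) : E × E) = (u, 0) + (0, v) := by simp
    rw [this, map_add, a1, a2]
  induction k with
  | zero =>
    have e : (fun x : G => x ^ 0) = fun _ => 1 := by ext x; simp
    rw [e, Nat.cast_zero, zero_smul]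
    exact hc
  | succ k ih =>
    have hD' : HasMFDerivAt (𝓘(𝕜, E).prod 𝓘(𝕜, E)) 𝓘(𝕜, E) (fun q : G × G => q.1 * q.2)
        ((fun x : G => (x ^ k, x)) 1) D := by
      have e : (fun x : G => (x ^ k, x)) 1 = ((1 : G), (1 : G)) := by simp
      rw [e]; exact hD
    have := HasMFDerivAt.comp (1 : G) (g := fun q : G × G => q.1 * q.2)
      (f := fun x : G => (x ^ k, x)) hD' (ih.prodMk hid)
    have e : ((fun q : G × G => q.1 * q.2) ∘ fun x : G => (x ^ k, x)) = fun x => x ^ (k + 1) := by
      ext x; simp [pow_succ]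
    rw [e] at this
    have e2 : D.comp (((k : 𝕜) • ContinuousLinearMap.id 𝕜 E).prod (ContinuousLinearMap.id 𝕜 E)) =
        ((k + 1 : ℕ) : 𝕜) • ContinuousLinearMap.id 𝕜 E := by
      ext u; simp [hDa, add_smul]
    rw [← e2]
    exact this

variable (E) in
include E in
/-- near the identity of a Lie group there is no element of order dividing `k` if `k` is not zero
in the ground field -/
theorem eventually_pow_ne_one_u (k : ℕ) (hk : (k : 𝕜) ≠ 0) :
    ∀ᶠ x in 𝓝 (1 : G), x ^ k = 1 → x = 1 := by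
  have h := (hasMFDerivAt_pow_u (𝕜 := 𝕜) (E := E) (G := G) k).2
  simp only [modelWithCornersSelf_coe, Set.range_id, writtenInExtChartAt,
    one_pow] at h
  set c := extChartAt 𝓘(𝕜, E) (1 : G) with hc
  have h' : HasFDerivAt (c ∘ (fun x : G => x ^ k) ∘ c.symm)
      ((k : 𝕜) • ContinuousLinearMap.id 𝕜 E : E →L[𝕜] E) (c 1) := hasFDerivWithinAt_univ.1 h
  have hne := h'.eventually_ne (c := c 1) ⟨‖(k : 𝕜)‖₊⁻¹,
    AddMonoidHomClass.antilipschitz_of_bound _ (fun z => by
      simp [norm_smul, ← mul_assoc, inv_mul_cancel₀ (norm_ne_zero_iff.2 hk)])⟩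
  rw [eventually_nhdsWithin_iff] at hne
  have hcont : ContinuousAt c 1 := continuousAt_extChartAt 1
  filter_upwards [hcont.eventually hne, extChartAt_source_mem_nhds (I := 𝓘(𝕜, E)) (1 : G)]
    with x hx hxs hxk
  by_contra hx1
  apply hx
  · intro hcx
    exact hx1 (c.injOn hxs (mem_extChartAt_source 1) hcx)
  · simp only [Function.comp]
    rw [c.left_inv hxs, hxk]

end Lie

variable {p : ℕ} [Fact p.Prime] {G : Type*} [Group G] [TopologicalSpace G] [IsTopologicalGroup G]
  [CompactSpace G] [T2Space G] [TotallyDisconnectedSpace G]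

/-- a lamplighter group is a continuous bijective image of the model group -/
theorem exists_phi (hG : ProP p G) {k : ℕ} (hk : 0 < k) (h : Lamp p k G) :
    ∃ Φ : SD p (Fin k → S p) →* G, Continuous Φ ∧ Function.Bijective Φ := by
  obtain ⟨j, y, hjc, hji, hy, htop⟩ := h
  have hJc : Continuous fun v : Fin k → S p => j (Multiplicative.ofAdd v) :=
    hjc.comp continuous_ofAdd
  have hconj : ∀ (a : ℤ_[p]) (v : Fin k → S p),
      pw hG y a * j (Multiplicative.ofAdd v) * (pw hG y a)⁻¹ =
        j (Multiplicative.ofAdd (chi a • v)) := by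
    intro a v
    refine PadicInt.denseRange_natCast.induction_on a
      (isClosed_eq (((continuous_pw hG y).mul continuous_const).mul (continuous_pw hG y).inv)
        (hJc.comp (continuous_chi.smul continuous_const))) fun n => ?_
    rw [pw_natCast, chi_nat]
    induction n with
    | zero => simp
    | succ n ih =>
      have h1 : y ^ (n + 1) * j (Multiplicative.ofAdd v) * (y ^ (n + 1))⁻¹ =
          y * (y ^ n * j (Multiplicative.ofAdd v) * (y ^ n)⁻¹) * y⁻¹ := by
        rw [pow_succ']; group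
      rw [h1, ih, hy, pow_succ', mul_smul]
      rfl
  let Φ : SD p (Fin k → S p) →* G :=
    { toFun := fun g => j (Multiplicative.ofAdd g.v) * pw hG y g.a
      map_one' := by simp
      map_mul' := fun g g' => by
        rw [SD.mul_v, SD.mul_a, ofAdd_add, map_mul, ← hconj, pw_add]
        group }
  have hΦ : ∀ g, Φ g = j (Multiplicative.ofAdd g.v) * pw hG y g.a := fun _ => rfl
  have hΦc : Continuous Φ :=
    (hJc.comp SD.continuous_v).mul ((continuous_pw hG y).comp SD.continuous_a)
  refine ⟨Φ, hΦc, ?_, ?_⟩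
  · rw [injective_iff_map_eq_one]
    intro g hg
    rw [hΦ] at hg
    have h1 : pw hG y g.a = j (Multiplicative.ofAdd (-g.v)) := by
      rw [ofAdd_neg, map_inv]
      exact eq_inv_of_mul_eq_one_right hg
    have h2 := hconj g.a fun _ => 1
    rw [h1, ← map_inv, ← map_mul, ← map_mul, mul_inv_cancel_comm] at h2
    have h3 := congrFun (Multiplicative.ofAdd.injective (hji h2)) ⟨0, hk⟩
    have h4 : g.a = 0 := chi_eq_one (by simpa using h3.symm)
    rw [h4, pw_zero, mul_one, ← map_one j] at hg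
    exact SD.ext (Multiplicative.ofAdd.injective (hji hg)) h4
  · have hcl : IsClosed (Φ.range : Set G) := by
      rw [MonoidHom.coe_range]
      exact (isCompact_range hΦc).isClosed
    have hle : j.range ⊔ Subgroup.zpowers y ≤ Φ.range := by
      refine sup_le ?_ ?_
      · rintro _ ⟨v, rfl⟩
        exact ⟨SD.mk v.toAdd 0, by rw [hΦ]; simp⟩
      · rw [Subgroup.zpowers_le]
        exact ⟨SD.mk 0 1, by rw [hΦ]; simp⟩
    intro g
    exact Subgroup.topologicalClosure_minimal _ hle hcl (htop ▸ Subgroup.mem_top g)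

/-- the model group of rank `k` embeds in the model group of rank one -/
theorem exists_psi (p : ℕ) [Fact p.Prime] (k : ℕ) :
    ∃ Ψ : SD p (Fin k → S p) →* SD p (S p), Continuous Ψ ∧ Function.Injective Ψ := by
  have he : 0 < p ^ k := pow_pos (Fact.out : p.Prime).pos k
  have hk : k ≤ p ^ k := (Nat.lt_pow_self (Fact.out : p.Prime).one_lt).le
  have hp0 : (p : ℤ_[p]) ^ k ≠ 0 :=
    pow_ne_zero _ (Nat.cast_ne_zero.2 (Fact.out : p.Prime).ne_zero)
  have hec : Continuous (emb (p := p) k he) :=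
    SD.continuous_mk ((continuous_inter _ _).comp SD.continuous_v)
      (continuous_const.mul SD.continuous_a)
  have hei : Function.Injective (emb (p := p) k he) := by
    intro x y hxy
    have h1 : inter (p ^ k) he x.v = inter (p ^ k) he y.v := congrArg SD.v hxy
    have h2 : (p : ℤ_[p]) ^ k * x.a = (p : ℤ_[p]) ^ k * y.a := congrArg SD.a hxy
    exact SD.ext (inter_injective _ _ h1) (mul_left_cancel₀ hp0 h2)
  let β : (Fin k → S p) → (Fin (p ^ k) → S p) :=
    fun v i => if h : (i : ℕ) < k then v ⟨i, h⟩ else 0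
  have hβc : Continuous β := by
    refine continuous_pi fun i => ?_
    by_cases h : (i : ℕ) < k
    · simp only [β, dif_pos h]; exact continuous_apply _
    · simp only [β, dif_neg h]; exact continuous_const
  let ι : SD p (Fin k → S p) →* SD p (Fin (p ^ k) → S p) :=
    { toFun := fun g => SD.mk (β g.v) g.a
      map_one' := by
        refine SD.ext (funext fun i => ?_) rfl
        by_cases h : (i : ℕ) < k <;> simp [β, h]
      map_mul' := fun g g' => by
        refine SD.ext (funext fun i => ?_) rfl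
        by_cases h : (i : ℕ) < k <;> simp [β, h] }
  refine ⟨(emb k he).comp ι,
    hec.comp (SD.continuous_mk (hβc.comp SD.continuous_v) SD.continuous_a), hei.comp ?_⟩
  intro g g' h
  have h1 : β g.v = β g'.v := congrArg SD.v h
  have h2 : (ι g).a = (ι g').a := congrArg SD.a h
  refine SD.ext (funext fun i => ?_) h2
  have h3 := congrFun h1 ⟨i, lt_of_lt_of_le i.2 hk⟩
  simpa [β] using h3

/-- S5, self-similarity -/
theorem lamp_ss (hG : ProP p G) {k : ℕ} (hk : 0 < k) (h : Lamp p k G) (L : Subgroup G)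
    (hne : L ≠ ⊥) (hfg : ∃ F : Finset G, (Subgroup.closure (F : Set G)).topologicalClosure = L) :
    SelfSimilar p L := by
  classical
  obtain ⟨Φ, hΦc, hΦb⟩ := exists_phi hG hk h
  obtain ⟨Ψ, hΨc, hΨi⟩ := exists_psi p k
  let e := MulEquiv.ofBijective Φ hΦb
  have hes : Continuous e.symm :=
    Continuous.continuous_symm_of_equiv_compact_to_t2 (f := e.toEquiv) hΦc
  let Θ : G →* SD p (S p) := Ψ.comp e.symm.toMonoidHom
  have hΘc : Continuous Θ := hΨc.comp hes
  have hΘi : Function.Injective Θ := hΨi.comp e.symm.injective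
  have hemb : IsClosedEmbedding Θ := hΘc.isClosedEmbedding hΘi
  have hne' : L.map Θ ≠ ⊥ := by
    rwa [Ne, Subgroup.map_eq_bot_iff_of_injective _ hΘi]
  have hfg' : ∃ T : Finset (SD p (S p)),
      (Subgroup.closure (T : Set (SD p (S p)))).topologicalClosure = L.map Θ := by
    obtain ⟨F, rfl⟩ := hfg
    refine ⟨F.image Θ, SetLike.coe_injective ?_⟩
    rw [Finset.coe_image, ← MonoidHom.map_closure, Subgroup.topologicalClosure_coe,
      Subgroup.coe_map, Subgroup.coe_map, hemb.closure_image_eq, Subgroup.topologicalClosure_coe]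
  obtain ⟨ρ, h1, h2, h3, h4, h5⟩ :=
    action_of_SS (Fact.out : p.Prime).ne_zero (hereditary (L.map Θ) hne' hfg')
  let f : L ≃* L.map Θ := L.equivMapOfInjective Θ hΘi
  refine ⟨ρ.comp f.toMonoidHom, h1.comp f.injective, fun g => h2 _, fun g w x => h3 _ w x,
    fun g x => ?_, fun x y => ?_⟩
  · obtain ⟨y, g', hg'⟩ := h4 (f g) x
    obtain ⟨g'', rfl⟩ := f.surjective g'
    exact ⟨y, g'', hg'⟩
  · obtain ⟨g, hg⟩ := h5 x y
    obtain ⟨g', rfl⟩ := f.surjective g
    exact ⟨g', hg⟩

/-- S5, no analytic structure -/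
theorem lamp_not_analytic {k : ℕ} (hk : 0 < k) (h : Lamp p k G) :
    ¬ ∃ (n : ℕ) (_ : ChartedSpace (Fin n → ℚ_[p]) G),
      LieGroup 𝓘(ℚ_[p], Fin n → ℚ_[p]) ω G := by
  rintro ⟨n, _, _⟩
  obtain ⟨j, y, hjc, hji, -, -⟩ := h
  have h := eventually_pow_ne_one_u (𝕜 := ℚ_[p]) (Fin n → ℚ_[p]) (G := G) p
    (Nat.cast_ne_zero.2 (Fact.out : p.Prime).ne_zero)
  have h1 : Tendsto (fun m : ℕ => (PowerSeries.X ^ m : S p)) atTop (𝓝 0) := by
    rw [PowerSeries.WithPiTopology.tendsto_iff_coeff_tendsto]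
    intro j
    rw [map_zero]
    refine tendsto_const_nhds.congr' ?_
    filter_upwards [eventually_gt_atTop j] with m hm
    rw [PowerSeries.coeff_X_pow, if_neg hm.ne]
  have hc : Continuous fun s : S p => j (Multiplicative.ofAdd fun _ : Fin k => s) :=
    hjc.comp (continuous_ofAdd.comp (continuous_pi fun _ => continuous_id))
  have h2 : Tendsto (fun m : ℕ => j (Multiplicative.ofAdd fun _ : Fin k => PowerSeries.X ^ m))
      atTop (𝓝 1) := by
    have h3 := (hc.tendsto 0).comp h1
    have h4 : j (Multiplicative.ofAdd fun _ : Fin k => (0 : S p)) = 1 := map_one j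
    rwa [h4] at h3
  obtain ⟨m, hm⟩ := (h2.eventually h).exists
  have h3 := hm (by
    rw [← map_pow, ← ofAdd_nsmul, ← map_one j]
    congr 1
    change Multiplicative.ofAdd _ = Multiplicative.ofAdd 0
    congr 1
    funext i
    rw [Pi.smul_apply, nsmul_eq_mul, CharP.cast_eq_zero (S p) p, zero_mul]
    rfl)
  rw [← map_one j] at h3
  have h4 : (PowerSeries.X ^ m : S p) = 0 :=
    congrFun (Multiplicative.ofAdd.injective (hji h3)) ⟨0, hk⟩
  exact pow_ne_zero _ PowerSeries.X_ne_zero h4

/-- existence for every `k` -/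
theorem lamp_exists (p : ℕ) [Fact p.Prime] (k : ℕ) :
    ∃ (G : Type) (_ : Group G) (_ : TopologicalSpace G) (_ : IsTopologicalGroup G)
      (_ : CompactSpace G) (_ : T2Space G) (_ : TotallyDisconnectedSpace G),
      (∀ N : Subgroup G, N.Normal → IsOpen (N : Set G) → ∃ e : ℕ, N.index = p ^ e) ∧
      (∃ T : Finset G, (Subgroup.closure (T : Set G)).topologicalClosure = ⊤) ∧
      Group.IsSolvable G ∧ Lamp p k G := by
  classical
  let j : Multiplicative (Fin k → S p) →* SD p (Fin k → S p) :=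
    { toFun := fun v => SD.mk v.toAdd 0
      map_one' := rfl
      map_mul' := fun v w => by ext1 <;> simp [chi_zero] }
  have hj : ∀ v, j (Multiplicative.ofAdd v) = SD.mk v 0 := fun _ => rfl
  have hy : ∀ L : Subgroup (SD p (Fin k → S p)), IsClosed (L : Set (SD p (Fin k → S p))) →
      SD.mk 0 1 ∈ L → (∀ v, SD.mk v 0 ∈ L) → L = ⊤ := by
    intro L hc h2 h3
    have h4 : ∀ a : ℤ_[p], SD.mk 0 a ∈ L := by
      intro a
      refine PadicInt.denseRange_natCast.induction_on a
        (hc.preimage (SD.continuous_mk continuous_const continuous_id)) fun m => ?_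
      have := L.pow_mem h2 m
      rwa [SD.zero_mk_pow, mul_one] at this
    rw [eq_top_iff]
    intro g _
    rw [SD.split g]
    exact L.mul_mem (h3 _) (h4 _)
  refine ⟨SD p (Fin k → S p), inferInstance, inferInstance, inferInstance, inferInstance,
    inferInstance, inferInstance, fun N hN ho => ?_, ?_, ?_, j, SD.mk 0 1, ?_, ?_, fun v => ?_, ?_⟩
  · have : Finite (SD p (Fin k → S p) ⧸ N) := Subgroup.quotient_finite_of_isOpen N ho
    refine IsPGroup.iff_card.1 fun q => ?_
    obtain ⟨g, rfl⟩ := QuotientGroup.mk_surjective q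
    have h1 : Tendsto (fun n : ℕ => (p : ℤ_[p]) ^ n * g.a) atTop (𝓝 0) := by
      have := (tendsto_pow_atTop_nhds_zero_of_norm_lt_one
        (show ‖(p : ℤ_[p])‖ < 1 from (PadicInt.norm_lt_one_iff_dvd _).2 dvd_rfl)).mul_const g.a
      simpa using this
    have h2 : Tendsto (fun n : ℕ => (SD.mk 0 ((p : ℤ_[p]) ^ n * g.a) : SD p (Fin k → S p)))
        atTop (𝓝 1) :=
      ((SD.continuous_mk (continuous_const (y := (0 : Fin k → S p))) continuous_id).tendsto 0).comp
        h1
    obtain ⟨n, hn⟩ := (h2.eventually (ho.mem_nhds N.one_mem)).exists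
    refine ⟨n + 1, ?_⟩
    have h3 : (g ^ p ^ n).a = (p : ℤ_[p]) ^ n * g.a := by rw [SD.pow_a]; simp
    have h4 : ((g ^ p ^ n : SD p (Fin k → S p)) : SD p (Fin k → S p) ⧸ N) =
        ((SD.mk (g ^ p ^ n).v 0 : SD p (Fin k → S p)) : SD p (Fin k → S p) ⧸ N) := by
      conv_lhs => rw [SD.split (g ^ p ^ n), h3]
      rw [QuotientGroup.mk_mul, (QuotientGroup.eq_one_iff _).2 hn, mul_one]
    have h5 : ∀ v : Fin k → S p, p • v = 0 := fun v => funext fun i => by
      rw [Pi.smul_apply, nsmul_eq_mul, CharP.cast_eq_zero (S p) p, zero_mul]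
      rfl
    rw [pow_succ, pow_mul, ← QuotientGroup.mk_pow, h4, ← QuotientGroup.mk_pow, SD.mk_zero_pow, h5]
    rfl
  · refine ⟨insert (SD.mk 0 1) (Finset.univ.image fun i : Fin k => SD.mk (Pi.single i 1) 0), ?_⟩
    set L := (Subgroup.closure ((insert (SD.mk 0 1) (Finset.univ.image fun i : Fin k =>
      SD.mk (Pi.single i 1) 0) : Finset (SD p (Fin k → S p))) :
      Set (SD p (Fin k → S p)))).topologicalClosure with hL
    have hc : IsClosed (L : Set (SD p (Fin k → S p))) := Subgroup.isClosed_topologicalClosure _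
    have h2 : SD.mk 0 1 ∈ L := Subgroup.le_topologicalClosure _ (Subgroup.subset_closure (by simp))
    have h1 : ∀ i : Fin k, (Pi.single i 1 : Fin k → S p) ∈ modPart L := fun i =>
      Subgroup.le_topologicalClosure _ (Subgroup.subset_closure (Finset.mem_coe.2
        (Finset.mem_insert_of_mem (Finset.mem_image.2 ⟨i, Finset.mem_univ i, rfl⟩))))
    refine hy L hc h2 fun v => ?_
    have h3 : v = ∑ i, v i • (Pi.single i 1 : Fin k → S p) := by
      funext i
      simp [Finset.sum_apply, Pi.single_apply]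
    rw [h3]
    exact (modPart L).sum_mem fun i _ => smul_mem_modPart hc h2 rfl (v i) _ (h1 i)
  · let a : SD p (Fin k → S p) →* Multiplicative ℤ_[p] :=
      { toFun := fun g => Multiplicative.ofAdd g.a
        map_one' := rfl
        map_mul' := fun _ _ => rfl }
    refine Group.isSolvable_of_ker_le_range j a fun g hg => ⟨Multiplicative.ofAdd g.v, ?_⟩
    have h0 : g.a = 0 := hg
    exact SD.ext rfl h0.symm
  · exact SD.continuous_mk continuous_toAdd continuous_const
  · intro v w h
    exact Multiplicative.toAdd.injective (congrArg SD.v h)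
  · rw [hj, hj, SD.conj, SD.mk_a, chi_one]
    rfl
  · refine hy _ (Subgroup.isClosed_topologicalClosure _)
      (Subgroup.le_topologicalClosure _ (Subgroup.mem_sup_right (Subgroup.mem_zpowers _)))
      fun v => Subgroup.le_topologicalClosure _
        (Subgroup.mem_sup_left ⟨Multiplicative.ofAdd v, rfl⟩)

end Pool.Agent.Lib.MP_2dbb30_al.LL
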