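import Pool.Agent.Lib.MP_2dbb30_al.TF.KL

set_option autoImplicit false
set_option linter.unusedSectionVars false

open Topology Filter
open scoped commutatorElement

namespace Pool.Agent.Lib.MP_2dbb30_al.LL

open Pool.Agent.Lib.MP_2dbb30_al.TF

variable {p : ℕ} [Fact p.Prime] {G : Type*} [Group G] [TopologicalSpace G] [IsTopologicalGroup G]
  [CompactSpace G] [T2Space G] [TotallyDisconnectedSpace G]

/-- all nontrivial three-generated closed subgroups have a simple virtual endomorphism -/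
def HVE3 (p : ℕ) (G : Type*) [Group G] [TopologicalSpace G] [IsTopologicalGroup G] : Prop :=
  ∀ a b c : G, a ≠ 1 → VE p (Subgroup.closure ({a, b, c} : Set G)).topologicalClosure

theorem pw_eq_one (hG : ProP p G) {x : G} (hx : ¬ IsOfFinOrder x) {a : ℤ_[p]}
    (h : pw hG x a = 1) : a = 0 := by
  by_contra ha
  apply hx
  have h2 : ((p ^ a.valuation : ℕ) : ℤ_[p]) = a * ((PadicInt.unitCoeff ha)⁻¹ : ℤ_[p]ˣ) := by
    rw [Units.eq_mul_inv_iff_mul_eq, mul_comm]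
    push_cast
    exact (PadicInt.unitCoeff_spec ha).symm
  refine isOfFinOrder_iff_pow_eq_one.2 ⟨p ^ a.valuation, pow_pos (Fact.out : p.Prime).pos _, ?_⟩
  rw [← pw_natCast hG, h2, pw_mul, h, one_pw]

theorem not_fin_pw (hG : ProP p G) {x : G} (hx : ¬ IsOfFinOrder x) {a : ℤ_[p]} (ha : a ≠ 0) :
    ¬ IsOfFinOrder (pw hG x a) := by
  intro h
  obtain ⟨n, hn, h⟩ := isOfFinOrder_iff_pow_eq_one.1 h
  rw [pw_pow] at h
  exact mul_ne_zero ha (Nat.cast_ne_zero.2 hn.ne') (pw_eq_one hG hx h)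

theorem exists_pow_p_pow (hG : ProP p G) {g : G} (hg : IsOfFinOrder g) : ∃ k : ℕ, g ^ p ^ k = 1 := by
  obtain ⟨n, hn, h⟩ := isOfFinOrder_iff_pow_eq_one.1 hg
  have ha : (n : ℤ_[p]) ≠ 0 := Nat.cast_ne_zero.2 hn.ne'
  have h2 : ((p ^ (n : ℤ_[p]).valuation : ℕ) : ℤ_[p]) =
      n * ((PadicInt.unitCoeff ha)⁻¹ : ℤ_[p]ˣ) := by
    rw [Units.eq_mul_inv_iff_mul_eq, mul_comm]
    push_cast
    exact (PadicInt.unitCoeff_spec ha).symm
  exact ⟨_, by rw [← pw_natCast hG, h2, pw_mul, pw_natCast, h, one_pw]⟩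

theorem hom_facts {D : Subgroup G} {f : G → G} (hf : ∀ a ∈ D, ∀ b ∈ D, f (a * b) = f a * f b) :
    f 1 = 1 ∧ (∀ d ∈ D, f d⁻¹ = (f d)⁻¹) ∧ (∀ d ∈ D, ∀ n : ℕ, f (d ^ n) = f d ^ n) ∧
      ∀ d ∈ D, ∀ k ∈ D, f (d * k * d⁻¹) = f d * f k * (f d)⁻¹ := by
  have hf1 : f 1 = 1 := by
    have := hf 1 D.one_mem 1 D.one_mem
    rw [mul_one] at this
    exact (mul_eq_left.1 this.symm)
  have hfi : ∀ d ∈ D, f d⁻¹ = (f d)⁻¹ := fun d hd => by
    apply eq_inv_of_mul_eq_one_left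
    rw [← hf _ (D.inv_mem hd) _ hd, inv_mul_cancel, hf1]
  refine ⟨hf1, hfi, fun d hd n => ?_, fun d hd k hk => ?_⟩
  · induction n with
    | zero => simpa using hf1
    | succ n ih => rw [pow_succ, hf _ (D.pow_mem hd n) _ hd, ih, pow_succ]
  · rw [hf _ (D.mul_mem hd hk) _ (D.inv_mem hd), hf _ hd _ hk, hfi d hd]

theorem cl2_le {a b : G} {W : Subgroup G} (hW : IsClosed (W : Set G)) (h1 : a ∈ W) (h2 : b ∈ W) :
    (Subgroup.closure ({a, b} : Set G)).topologicalClosure ≤ W := by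
  refine Subgroup.topologicalClosure_minimal _ ?_ hW
  rw [Subgroup.closure_le]
  rintro x (rfl | rfl)
  exacts [h1, h2]

theorem left_mem_cl2 (a b : G) : a ∈ (Subgroup.closure ({a, b} : Set G)).topologicalClosure :=
  Subgroup.le_topologicalClosure _ (Subgroup.subset_closure (by simp))

theorem right_mem_cl2 (a b : G) : b ∈ (Subgroup.closure ({a, b} : Set G)).topologicalClosure :=
  Subgroup.le_topologicalClosure _ (Subgroup.subset_closure (by simp))

theorem isClosed_zpowers {c : G} (hc : IsOfFinOrder c) :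
    IsClosed ((Subgroup.zpowers c : Subgroup G) : Set G) :=
  (finite_zpowers.2 hc).isClosed

/-- S1 (a) -/
theorem pow_p (hG : ProP p G) (hve : HVE p G) {g : G} (hg : IsOfFinOrder g) : g ^ p = 1 := by
  have hp : p.Prime := Fact.out
  have key : ∀ c : G, c ^ p ^ 2 = 1 → c ^ p = 1 := by
    intro c hc
    by_contra hcp
    have hc1 : c ≠ 1 := fun h => hcp (by simp [h])
    have hcf : IsOfFinOrder c := isOfFinOrder_iff_pow_eq_one.2 ⟨_, pow_pos hp.pos 2, hc⟩
    have hord : orderOf c = p ^ 2 := orderOf_eq_prime_pow (n := 1) (by simpa using hcp) hc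
    obtain ⟨D, f, hDL, hDn, hDi, hf, hfL, hs⟩ := hve c c hc1
    have hL := cl2_le (isClosed_zpowers hcf) (Subgroup.mem_zpowers c) (Subgroup.mem_zpowers c)
    obtain ⟨hpow, -, -, -⟩ := index_facts hDn hDi
    obtain ⟨hf1, -, hfp, -⟩ := hom_facts hf
    have hKD : Subgroup.zpowers (c ^ p) ≤ D := by
      rw [Subgroup.zpowers_le]; exact hpow c (left_mem_cl2 c c)
    have := hs (Subgroup.zpowers (c ^ p)) hKD
      (fun l hl k hk => by
        obtain ⟨i, rfl⟩ := hL hl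
        obtain ⟨j, rfl⟩ := hk
        have : Commute (c ^ i) ((c ^ p) ^ j) := ((Commute.refl c).pow_right p).zpow_zpow i j
        simp only []
        rw [this.eq, mul_inv_cancel_right]
        exact ⟨j, rfl⟩)
      (fun k hk => by
        obtain ⟨i, hi⟩ := hL (hfL k (hKD hk))
        have h1 : k ^ p = 1 := by
          obtain ⟨j, rfl⟩ := hk
          simp only []
          rw [← zpow_natCast, ← zpow_mul, mul_comm, zpow_mul, zpow_natCast, ← pow_mul, ← sq, hc,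
            one_zpow]
        have h2 : c ^ (i * p) = 1 := by
          simp only [] at hi
          rw [zpow_mul, hi, zpow_natCast, ← hfp k (hKD hk), h1, hf1]
        rw [← orderOf_dvd_iff_zpow_eq_one, hord, Nat.cast_pow, sq] at h2
        obtain ⟨j, rfl⟩ := Int.dvd_of_mul_dvd_mul_right (Int.natCast_ne_zero.2 hp.ne_zero) h2
        refine ⟨j, ?_⟩
        rw [← hi]
        simp only []
        rw [zpow_mul, zpow_natCast])
    exact hcp (by simpa using this)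
  obtain ⟨k, hk⟩ := exists_pow_p_pow hG hg
  induction k with
  | zero => rw [pow_zero, pow_one] at hk; simp [hk]
  | succ k ih =>
    cases k with
    | zero => simpa using hk
    | succ k =>
      apply ih
      rw [pow_succ, pow_mul]
      apply key
      rw [← pow_mul, ← pow_add, hk]

theorem conj_pw (hG : ProP p G) {N : Subgroup G} (hN : IsClosed (N : Set G)) {g : G}
    (hgN : ∀ n ∈ N, g * n * g⁻¹ ∈ N) (a : ℤ_[p]) {n : G} (hn : n ∈ N) :
    pw hG g a * n * (pw hG g a)⁻¹ ∈ N := by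
  refine padic_nat_ind (P := fun a => pw hG g a * n * (pw hG g a)⁻¹ ∈ N)
    (hN.preimage (((continuous_pw hG g).mul continuous_const).mul (continuous_pw hG g).inv))
    (fun k => ?_) a
  rw [pw_natCast]
  induction k with
  | zero => simpa using hn
  | succ k ih =>
    have := hgN _ ih
    rw [pow_succ']
    convert this using 1
    group

/-- the closed subgroup `N · cl⟨g⟩` -/
theorem exists_semi (hG : ProP p G) {N : Subgroup G} (hN : IsClosed (N : Set G)) {g : G}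
    (hgN : ∀ n ∈ N, g * n * g⁻¹ ∈ N) :
    ∃ H : Subgroup G, IsClosed (H : Set G) ∧ ∀ h, h ∈ H ↔ ∃ n ∈ N, ∃ a : ℤ_[p], h = n * pw hG g a := by
  let K : Subgroup G :=
    { carrier := (fun q : G × ℤ_[p] => q.1 * pw hG g q.2) '' ((N : Set G) ×ˢ Set.univ)
      one_mem' := ⟨(1, 0), ⟨one_mem N, trivial⟩, by simp⟩
      mul_mem' := by
        rintro _ _ ⟨⟨v, μ⟩, ⟨hv, -⟩, rfl⟩ ⟨⟨w, ν⟩, ⟨hw, -⟩, rfl⟩
        refine ⟨(v * (pw hG g μ * w * (pw hG g μ)⁻¹), μ + ν),
          ⟨mul_mem hv (conj_pw hG hN hgN μ hw), trivial⟩, ?_⟩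
        simp only [pw_add]; group
      inv_mem' := by
        rintro _ ⟨⟨v, μ⟩, ⟨hv, -⟩, rfl⟩
        refine ⟨(pw hG g (-μ) * v⁻¹ * (pw hG g (-μ))⁻¹, -μ),
          ⟨conj_pw hG hN hgN (-μ) (inv_mem hv), trivial⟩, ?_⟩
        simp only [pw_neg]; group }
  refine ⟨K, ((hN.isCompact.prod isCompact_univ).image (continuous_fst.mul
      ((continuous_pw hG g).comp continuous_snd))).isClosed, fun h => ⟨?_, ?_⟩⟩
  · rintro ⟨⟨v, μ⟩, ⟨hv, -⟩, rfl⟩
    exact ⟨v, hv, μ, rfl⟩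
  · rintro ⟨v, hv, μ, rfl⟩
    exact ⟨(v, μ), ⟨hv, trivial⟩, rfl⟩

theorem not_fin_semi (hG : ProP p G) {N : Subgroup G} (hN : IsClosed (N : Set G))
    (hNp : ∀ n ∈ N, n ^ p = 1) {g : G} (hg : ¬ IsOfFinOrder g) (hgN : ∀ n ∈ N, g * n * g⁻¹ ∈ N)
    {n : G} (hn : n ∈ N) {a : ℤ_[p]} (ha : a ≠ 0) : ¬ IsOfFinOrder (n * pw hG g a) := by
  intro h
  obtain ⟨k, hk, h⟩ := isOfFinOrder_iff_pow_eq_one.1 h
  have h1 : ∀ k : ℕ, ∃ m ∈ N, (n * pw hG g a) ^ k = m * pw hG g a ^ k := fun k => by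
    induction k with
    | zero => exact ⟨1, N.one_mem, by simp⟩
    | succ k ih =>
      obtain ⟨m, hm, h⟩ := ih
      refine ⟨n * (pw hG g a * m * (pw hG g a)⁻¹), N.mul_mem hn (conj_pw hG hN hgN a hm), ?_⟩
      rw [pow_succ', h, pow_succ']; group
  obtain ⟨m, hm, h2⟩ := h1 k
  rw [h] at h2
  have h3 : pw hG g a ^ k ∈ N := by
    rw [eq_inv_of_mul_eq_one_right h2.symm]; exact N.inv_mem hm
  exact not_fin_pw hG hg ha (isOfFinOrder_iff_pow_eq_one.2
    ⟨k * p, mul_pos hk (Fact.out : p.Prime).pos, by rw [pow_mul, hNp _ h3]⟩)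

/-- S1 (b) -/
theorem eq_one_of_commute (hG : ProP p G) (hve : HVE p G) {c x : G} (hc : c ^ p = 1)
    (hx : ¬ IsOfFinOrder x) (h : Commute c x) : c = 1 := by
  have hp : p.Prime := Fact.out
  by_contra hc1
  have hcf : IsOfFinOrder c := isOfFinOrder_iff_pow_eq_one.2 ⟨_, hp.pos, hc⟩
  obtain ⟨D, f, hDL, hDn, hDi, hf, hfL, hs⟩ := hve c x hc1
  obtain ⟨hpow, -, hgen, -⟩ := index_facts hDn hDi
  obtain ⟨hf1, -, hfp, -⟩ := hom_facts hf
  set L := (Subgroup.closure ({c, x} : Set G)).topologicalClosure with hL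
  have hNc := isClosed_zpowers hcf
  have hNp : ∀ n ∈ Subgroup.zpowers c, n ^ p = 1 := by
    rintro _ ⟨j, rfl⟩
    simp only []
    rw [← zpow_natCast, ← zpow_mul, mul_comm, zpow_mul, zpow_natCast, hc, one_zpow]
  have hxN : ∀ n ∈ Subgroup.zpowers c, x * n * x⁻¹ ∈ Subgroup.zpowers c := by
    rintro _ ⟨j, rfl⟩
    simp only []
    rw [← (h.zpow_left j).eq, mul_inv_cancel_right]
    exact ⟨j, rfl⟩
  obtain ⟨H, hHc, hH⟩ := exists_semi hG hNc hxN
  have hdec : ∀ l ∈ L, ∃ n ∈ Subgroup.zpowers c, ∃ a : ℤ_[p], l = n * pw hG x a := fun l hl =>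
    (hH l).1 (cl2_le hHc ((hH c).2 ⟨c, Subgroup.mem_zpowers c, 0, by simp⟩)
      ((hH x).2 ⟨1, one_mem _, 1, by simp⟩) hl)
  have hab : ∀ a ∈ L, ∀ b ∈ L, Commute a b := fun a ha b hb => by
    obtain ⟨_, ⟨i, rfl⟩, μ, rfl⟩ := hdec a ha
    obtain ⟨_, ⟨j, rfl⟩, ν, rfl⟩ := hdec b hb
    have h1 : ∀ (k : ℤ) (μ : ℤ_[p]), Commute (pw hG x μ) (c ^ k) :=
      fun k μ => commute_pw_left hG (h.symm.zpow_right k) μ
    exact (((Commute.refl c).zpow_zpow i j).mul_right (h1 i ν).symm).mul_left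
      ((h1 j μ).mul_right (commute_pw hG (Commute.refl x) μ ν))
  by_cases hcD : c ∈ D
  · have hKD : Subgroup.zpowers c ≤ D := by rwa [Subgroup.zpowers_le]
    have := hs _ hKD
      (fun l hl k hk => by rwa [(hab l hl k (hDL (hKD hk))).eq, mul_inv_cancel_right])
      (fun k hk => by
        obtain ⟨n, hn, a, ha⟩ := hdec _ (hfL k (hKD hk))
        by_cases h0 : a = 0
        · rw [ha, h0]; simpa using hn
        · refine absurd (isOfFinOrder_iff_pow_eq_one.2 ⟨p, hp.pos, ?_⟩)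
            (not_fin_semi hG hNc hNp hx hxN hn h0)
          rw [← ha, ← hfp k (hKD hk), hNp k hk, hf1])
    exact hc1 (by simpa using this)
  · let K : Subgroup G :=
      { carrier := {t | ∃ l ∈ L, l ^ p = t}
        one_mem' := ⟨1, L.one_mem, one_pow p⟩
        mul_mem' := by
          rintro _ _ ⟨a, ha, rfl⟩ ⟨b, hb, rfl⟩
          exact ⟨a * b, L.mul_mem ha hb, (hab a ha b hb).mul_pow p⟩
        inv_mem' := by
          rintro _ ⟨a, ha, rfl⟩
          exact ⟨a⁻¹, L.inv_mem ha, inv_pow a p⟩ }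
    have := hs K (by rintro _ ⟨l, hl, rfl⟩; exact hpow l hl)
      (by rintro l hl _ ⟨a, ha, rfl⟩; exact ⟨_, L.mul_mem (L.mul_mem hl ha) (L.inv_mem hl), conj_pow⟩)
      (by
        rintro _ ⟨l, hl, rfl⟩
        have hcL : c ∈ L := left_mem_cl2 c x
        obtain ⟨i, hi⟩ := hgen c hcL hcD l hl
        refine ⟨_, hfL _ hi, ?_⟩
        rw [← hfp _ hi, (hab _ (L.inv_mem (L.pow_mem hcL i)) l hl).mul_pow, inv_pow, ← pow_mul,
          mul_comm i, pow_mul, hc, one_pow, inv_one, one_mul])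
    have h2 : x ^ p ∈ K := ⟨x, right_mem_cl2 c x, rfl⟩
    rw [this, Subgroup.mem_bot] at h2
    exact hx (isOfFinOrder_iff_pow_eq_one.2 ⟨p, hp.pos, h2⟩)

end Pool.Agent.Lib.MP_2dbb30_al.LL
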