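import Pool.Agent.Lib.MP_2dbb30_al.LL.Defs
import Pool.Agent.Lib.MP_2dbb30_al.LL.Tors

set_option autoImplicit false
set_option linter.unusedSectionVars false

open Topology Filter
open scoped commutatorElement PowerSeries.WithPiTopology

namespace Pool.Agent.Lib.MP_2dbb30_al.LL

open Pool.Agent.Lib.MP_2dbb30_al.TF

variable {p : ℕ} [Fact p.Prime] {G : Type*} [Group G] [TopologicalSpace G] [IsTopologicalGroup G]
  [CompactSpace G] [T2Space G] [TotallyDisconnectedSpace G]

/-- coordinates: a compact `𝔽_p`-space with an injective topologically nilpotent operator of finite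
corank is a free module of finite rank over the power series ring -/
theorem param_core {V : Type*} [AddCommGroup V] [Module (ZMod p) V] [TopologicalSpace V]
    [IsTopologicalAddGroup V] [CompactSpace V] [T2Space V] (t : V →ₗ[ZMod p] V)
    (htc : Continuous t) (hti : Function.Injective t)
    (hsm : ∀ U ∈ 𝓝 (0 : V), ∃ n : ℕ, ∀ v, t^[n] v ∈ U)
    (hfin : Module.Finite (ZMod p) (V ⧸ LinearMap.range t)) :
    ∃ (k : ℕ) (ψ : (Fin k → PowerSeries (ZMod p)) ≃+ V), Continuous ψ ∧
      ∀ r, ψ (fun i => PowerSeries.X * r i) = t (ψ r) := by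
  classical
  let k := Module.finrank (ZMod p) (V ⧸ LinearMap.range t)
  let b : Module.Basis (Fin k) (ZMod p) (V ⧸ LinearMap.range t) := Module.finBasis _ _
  let c : V →ₗ[ZMod p] (Fin k → ZMod p) := b.equivFun.toLinearMap ∘ₗ (LinearMap.range t).mkQ
  have hcs : Function.Surjective c :=
    b.equivFun.surjective.comp (LinearMap.range t).mkQ_surjective
  have hck : ∀ v, c v = 0 ↔ v ∈ LinearMap.range t := by
    intro v
    change b.equivFun ((LinearMap.range t).mkQ v) = 0 ↔ _
    rw [map_eq_zero_iff _ b.equivFun.injective, Submodule.mkQ_apply, Submodule.Quotient.mk_eq_zero]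
  obtain ⟨s, hs⟩ := c.exists_rightInverse_of_surjective (LinearMap.range_eq_top.mpr hcs)
  have hcs' : ∀ e, c (s e) = e := fun e => by
    have := LinearMap.congr_fun hs e
    simpa using this
  have hd0 : ∀ v, ∃ u, t u = v - s (c v) := fun v =>
    (hck _).mp (by rw [map_sub, hcs', sub_self])
  choose d hd using hd0
  have hdadd : ∀ v w, d (v + w) = d v + d w := fun v w => hti (by
    rw [map_add, hd, hd, hd, map_add, map_add]; abel)
  have hdz : d 0 = 0 := hti (by rw [hd]; simp)
  have hdt : ∀ v, d (t v) = v := fun v => hti (by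
    rw [hd, (hck _).mpr ⟨v, rfl⟩, map_zero, sub_zero])
  have hds : ∀ e, d (s e) = 0 := fun e => hti (by rw [hd, hcs', sub_self, map_zero])
  have hemb : IsClosedEmbedding t := htc.isClosedEmbedding hti
  have hcc : Continuous c := by
    have hfq : Finite (V ⧸ LinearMap.range t) := Module.finite_of_finite (ZMod p)
    have hfq' : Finite (V ⧸ (LinearMap.range t).toAddSubgroup) := hfq
    have hfi : (LinearMap.range t).toAddSubgroup.FiniteIndex :=
      AddSubgroup.finiteIndex_of_finite_quotient
    have hcl : IsClosed ((LinearMap.range t).toAddSubgroup : Set V) := by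
      have : ((LinearMap.range t).toAddSubgroup : Set V) = Set.range t := by
        ext v; simp
      rw [this]
      exact hemb.isClosed_range
    have ho := AddSubgroup.isOpen_of_isClosed_of_finiteIndex _ hcl
    apply continuous_of_continuousAt_zero c
    rw [ContinuousAt, map_zero]
    apply tendsto_const_nhds.congr'
    filter_upwards [ho.mem_nhds (zero_mem _)] with v hv
    exact ((hck v).mpr hv).symm
  have hsc : Continuous s := continuous_of_discreteTopology
  have hdc : Continuous d := by
    rw [hemb.isInducing.continuous_iff]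
    have : (t : V → V) ∘ d = fun v => v - s (c v) := funext hd
    rw [this]
    exact continuous_id.sub (hsc.comp hcc)
  have hdi : ∀ (n : ℕ) v w, d^[n] (v + w) = d^[n] v + d^[n] w := by
    intro n
    induction n with
    | zero => exact fun _ _ => rfl
    | succ n ih => intro v w; simp only [Function.iterate_succ_apply]; rw [hdadd, ih]
  have hdiz : ∀ n : ℕ, d^[n] 0 = 0 := fun n => Function.iterate_fixed hdz n
  let φ : V →+ (Fin k → PowerSeries (ZMod p)) :=
    { toFun := fun v i => PowerSeries.mk fun n => c (d^[n] v) i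
      map_zero' := by
        ext i n
        simp [hdiz]
      map_add' := fun v w => by
        ext i n
        simp [hdi] }
  have hφ : ∀ v i n, PowerSeries.coeff n (φ v i) = c (d^[n] v) i := fun v i n =>
    PowerSeries.coeff_mk n fun n => c (d^[n] v) i
  have hφc : Continuous φ := by
    refine continuous_pi fun i => ?_
    rw [continuous_iff_continuousAt]
    intro v
    rw [ContinuousAt, PowerSeries.WithPiTopology.tendsto_iff_coeff_tendsto]
    intro n
    simp only [hφ]
    exact ((continuous_apply i).comp (hcc.comp (hdc.iterate n))).continuousAt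
  have hφt : ∀ v, φ (t v) = fun i => PowerSeries.X * φ v i := by
    intro v
    ext i n
    rcases n with _ | n
    · rw [hφ, PowerSeries.coeff_zero_X_mul, Function.iterate_zero_apply, (hck _).mpr ⟨v, rfl⟩]
      rfl
    · rw [hφ, PowerSeries.coeff_succ_X_mul, Function.iterate_succ_apply, hdt, hφ]
  have hφi : Function.Injective φ := by
    rw [injective_iff_map_eq_zero]
    intro v hv
    have h0 : ∀ n : ℕ, c (d^[n] v) = 0 := fun n => funext fun i => by
      rw [← hφ, hv]; simp
    have h1 : ∀ n : ℕ, t^[n] (d^[n] v) = v := by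
      intro n
      induction n with
      | zero => rfl
      | succ n ih =>
        rw [Function.iterate_succ_apply, Function.iterate_succ_apply', hd, h0, map_zero, sub_zero,
          ih]
    by_contra hne
    obtain ⟨n, hn⟩ := hsm {v}ᶜ (isOpen_compl_singleton.mem_nhds fun h => hne
      (Set.mem_singleton_iff.mp h).symm)
    exact hn _ (h1 n)
  have happ : ∀ (N : ℕ) (r : Fin k → PowerSeries (ZMod p)), ∃ v, ∀ i n, n < N →
      PowerSeries.coeff n (φ v i) = PowerSeries.coeff n (r i) := by
    intro N
    induction N with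
    | zero => exact fun r => ⟨0, fun i n hn => absurd hn (Nat.not_lt_zero n)⟩
    | succ N ih =>
      intro r
      obtain ⟨u, hu⟩ := ih fun i => PowerSeries.mk fun n => PowerSeries.coeff (n + 1) (r i)
      refine ⟨s (fun i => PowerSeries.coeff 0 (r i)) + t u, fun i n hn => ?_⟩
      rcases n with _ | n
      · rw [hφ, Function.iterate_zero_apply, map_add, hcs', (hck _).mpr ⟨u, rfl⟩, add_zero]
      · rw [hφ, Function.iterate_succ_apply, hdadd, hds, hdt, zero_add, ← hφ,
          hu i n (Nat.lt_of_succ_lt_succ hn), PowerSeries.coeff_mk]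
  have hφs : Function.Surjective φ := by
    intro r
    choose u hu using fun N => happ N r
    have hcl : IsClosed (Set.range φ) := (isCompact_range hφc).isClosed
    have ht : Tendsto (fun N => φ (u N)) atTop (𝓝 r) := by
      rw [tendsto_pi_nhds]
      intro i
      rw [PowerSeries.WithPiTopology.tendsto_iff_coeff_tendsto]
      intro n
      apply tendsto_const_nhds.congr'
      filter_upwards [eventually_gt_atTop n] with N hN
      exact (hu N i n hN).symm
    exact hcl.mem_of_tendsto ht (Eventually.of_forall fun N => ⟨u N, rfl⟩)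
  let e : V ≃+ (Fin k → PowerSeries (ZMod p)) := AddEquiv.ofBijective φ ⟨hφi, hφs⟩
  have he : ∀ v, e v = φ v := fun _ => rfl
  refine ⟨k, e.symm, ?_, fun r => ?_⟩
  · exact (Continuous.homeoOfEquivCompactToT2 (f := e.toEquiv) hφc).symm.continuous
  · apply e.injective
    rw [e.apply_symm_apply, he, hφt, ← he, e.apply_symm_apply]

/-- S4 -/
theorem param (hG : ProP p G)
    (hfg : ∃ T : Finset G, (Subgroup.closure (T : Set G)).topologicalClosure = ⊤)
    {A : Subgroup G} (hAn : A.Normal) (hAc : IsClosed (A : Set G)) (hAp : ∀ a ∈ A, a ^ p = 1)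
    (hA1 : A ≠ ⊥) (hab : ∀ a ∈ A, ∀ b ∈ A, a * b = b * a) {x : G} (hx : ¬ IsOfFinOrder x)
    (hfree : ∀ a ∈ A, Commute a x → a = 1)
    (hdec : ∀ g : G, ∃ a ∈ A, ∃ μ : ℤ_[p], g = a * pw hG x μ) :
    ∃ k : ℕ, 0 < k ∧ Lamp p k G := by
  classical
  have _hx := hx
  obtain ⟨V, _, _, _, _, ι, ρ, m⟩ := exists_model hG A hAn hAc hab
  have := m.compactSpace
  have := m.t2Space
  have hmem : ∀ v, ι v ∈ A := fun v => (m.mem _).mpr ⟨v, rfl⟩
  have hpV : ∀ v : V, p • v = 0 := fun v => m.inj (by rw [m.nsmul, m.zero, hAp _ (hmem v)])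
  obtain ⟨_⟩ : Nonempty (Module (ZMod p) V) := ⟨AddCommGroup.zmodModule hpV⟩
  let t : V →ₗ[ZMod p] V := (ρ x - 1 : Module.End ℤ_[p] V).toAddMonoidHom.toZModLinearMap p
  have ht : ∀ v, t v = ρ x v - v := fun v => rfl
  have htc : Continuous t := (m.cont_rho x).sub continuous_id
  have hti : Function.Injective t := by
    rw [injective_iff_map_eq_zero]
    intro v hv
    rw [ht, sub_eq_zero] at hv
    have h1 := m.conj x v
    rw [hv] at h1
    have h2 : Commute (ι v) x := by
      change ι v * x = x * ι v
      exact eq_mul_inv_iff_mul_eq.mp h1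
    exact m.inj ((hfree _ (hmem v) h2).trans m.zero.symm)
  have hsm : ∀ U ∈ 𝓝 (0 : V), ∃ n : ℕ, ∀ v, t^[n] v ∈ U := by
    intro U hU
    obtain ⟨n, hn⟩ := m.small_t hG hU
    refine ⟨n, fun v => ?_⟩
    have h1 := hn x v
    rw [Module.End.pow_apply] at h1
    exact h1
  have hfin : Module.Finite (ZMod p) (V ⧸ LinearMap.range t) := by
    obtain ⟨T, hT⟩ := hfg
    choose a ha μ hμ using hdec
    choose w hw using fun g => (m.mem (a g)).mp (ha g)
    let s : (T → ZMod p) →ₗ[ZMod p] V := Fintype.linearCombination (ZMod p) fun g : T => w g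
    let W : Submodule (ZMod p) V := LinearMap.range (s.coprod t)
    have hW : ∀ v, v ∈ W ↔ ∃ e u, s e + t u = v := fun v =>
      ⟨fun ⟨q, hq⟩ => ⟨q.1, q.2, hq⟩, fun ⟨e, u, h⟩ => ⟨(e, u), h⟩⟩
    let N : Subgroup G :=
      { carrier := ι '' (W : Set V)
        one_mem' := ⟨0, W.zero_mem, m.zero⟩
        mul_mem' := by
          rintro _ _ ⟨u, hu, rfl⟩ ⟨v, hv, rfl⟩
          exact ⟨u + v, W.add_mem hu hv, m.add u v⟩
        inv_mem' := by
          rintro _ ⟨u, hu, rfl⟩
          exact ⟨-u, W.neg_mem hu, m.neg u⟩ }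
    have hNc : IsClosed (N : Set G) := by
      have hsc : Continuous s := continuous_of_discreteTopology
      have h1 : IsCompact (W : Set V) := by
        have : (W : Set V) = Set.range fun q : (T → ZMod p) × V => s q.1 + t q.2 := by
          ext v; exact Iff.rfl
        rw [this]
        exact isCompact_range ((hsc.comp continuous_fst).add (htc.comp continuous_snd))
      exact (h1.image m.emb.continuous).isClosed
    have hxN : ∀ n ∈ N, x * n * x⁻¹ ∈ N := by
      rintro _ ⟨u, hu, rfl⟩
      refine ⟨ρ x u, ?_, m.conj x u⟩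
      have h1 : ρ x u = u + t u := by rw [ht]; abel
      rw [h1]
      exact W.add_mem hu ((hW _).mpr ⟨0, u, by simp⟩)
    obtain ⟨H, hHc, hH⟩ := exists_semi hG hNc hxN
    have hHT : Subgroup.closure (T : Set G) ≤ H := by
      rw [Subgroup.closure_le]
      intro g hg
      refine (hH g).mpr ⟨a g, ⟨w g, (hW _).mpr ⟨Pi.single ⟨g, hg⟩ 1, 0, ?_⟩, hw g⟩, μ g, hμ g⟩
      simp [s]
    have hHtop : ∀ g, g ∈ H := fun g =>
      Subgroup.topologicalClosure_minimal _ hHT hHc (hT ▸ Subgroup.mem_top g)
    have hWtop : ∀ v, v ∈ W := by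
      intro v
      obtain ⟨_, ⟨u, hu, rfl⟩, ν, h⟩ := (hH _).mp (hHtop (ι v))
      have h1 : pw hG x ν ∈ A := by
        have : pw hG x ν = (ι u)⁻¹ * ι v := by rw [h, inv_mul_cancel_left]
        rw [this]
        exact A.mul_mem (A.inv_mem (hmem u)) (hmem v)
      rw [hfree _ h1 (commute_pw_left hG (Commute.refl x) ν), mul_one] at h
      rw [m.inj h]
      exact hu
    refine Module.Finite.of_surjective ((LinearMap.range t).mkQ ∘ₗ s) fun q => ?_
    obtain ⟨v, rfl⟩ := (LinearMap.range t).mkQ_surjective q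
    obtain ⟨e, u, rfl⟩ := (hW v).mp (hWtop v)
    refine ⟨e, ?_⟩
    rw [map_add, LinearMap.comp_apply, Submodule.mkQ_apply _ (t u),
      (Submodule.Quotient.mk_eq_zero _).mpr (LinearMap.mem_range_self t u), add_zero]
  obtain ⟨k, ψ, hψc, hψ⟩ := param_core t htc hti hsm hfin
  refine ⟨k, Nat.pos_of_ne_zero ?_, ?_⟩
  · rintro rfl
    apply hA1
    rw [Subgroup.eq_bot_iff_forall]
    intro g hg
    obtain ⟨v, rfl⟩ := (m.mem g).mp hg
    obtain ⟨r, rfl⟩ := ψ.surjective v
    rw [Subsingleton.elim r 0, map_zero, m.zero]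
  · let j : Multiplicative (Fin k → PowerSeries (ZMod p)) →* G :=
      { toFun := fun r => ι (ψ r.toAdd)
        map_one' := by rw [toAdd_one, map_zero, m.zero]
        map_mul' := fun r r' => by rw [toAdd_mul, map_add, m.add] }
    have hj : ∀ r, j (Multiplicative.ofAdd r) = ι (ψ r) := fun _ => rfl
    refine ⟨j, x, m.emb.continuous.comp (hψc.comp continuous_toAdd), ?_, fun r => ?_, ?_⟩
    · exact m.inj.comp (ψ.injective.comp Multiplicative.toAdd.injective)
    · have h1 : (fun i => (1 + PowerSeries.X) * r i) = r + fun i => PowerSeries.X * r i := by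
        funext i
        rw [add_mul, one_mul]
        rfl
      rw [hj, hj, h1, map_add, hψ, ht, ← m.conj, add_sub_cancel]
    · rw [eq_top_iff]
      intro g _
      obtain ⟨a, ha, μ, rfl⟩ := hdec g
      obtain ⟨v, rfl⟩ := (m.mem a).mp ha
      obtain ⟨r, rfl⟩ := ψ.surjective v
      refine Subgroup.mul_mem _ (Subgroup.le_topologicalClosure _ (Subgroup.mem_sup_left
        ⟨Multiplicative.ofAdd r, rfl⟩)) (pw_mem hG (Subgroup.isClosed_topologicalClosure _)
        (Subgroup.le_topologicalClosure _ (Subgroup.mem_sup_right (Subgroup.mem_zpowers x))) μ)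

end Pool.Agent.Lib.MP_2dbb30_al.LL
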