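import Pool.Agent.Lib.MP_2dbb30_al.TF.Heis

set_option autoImplicit false
set_option linter.unusedSectionVars false

open Topology Filter
open scoped commutatorElement

namespace Pool.Agent.Lib.MP_2dbb30_al.LL.PT

open Pool.Agent.Lib.MP_2dbb30_al.TF

variable {G : Type*} [Group G] [TopologicalSpace G] [IsTopologicalGroup G] [CompactSpace G]
  [T2Space G]

/-- **No Heisenberg.** -/
theorem heis {p : ℕ} (hp : p.Prime)
    {u v : G} (htf : ∀ g ∈ (Subgroup.zpowers ⁅u, v⁆).topologicalClosure,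
      ∀ n : ℕ, 0 < n → g ^ n = 1 → g = 1)
    (hu : Commute u ⁅u, v⁆) (hv : Commute v ⁅u, v⁆) {L D : Subgroup G}
    (hL : (Subgroup.closure {u, v}).topologicalClosure = L) (hDL : D ≤ L)
    (hn : ∀ l ∈ L, ∀ d ∈ D, l * d * l⁻¹ ∈ D) (hi : (D.subgroupOf L).index = p)
    (f : D →* G) (hf : ∀ d, f d ∈ L)
    (hs : ∀ K : Subgroup G, ∀ hK : K ≤ D, (∀ l ∈ L, ∀ k ∈ K, l * k * l⁻¹ ∈ K) →
      (∀ k : G, ∀ hk : k ∈ K, f ⟨k, hK hk⟩ ∈ K) → K = ⊥) : ⁅u, v⁆ = 1 := by
  set z := ⁅u, v⁆ with hz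
  set C := (Subgroup.zpowers z).topologicalClosure with hC
  set X := (Subgroup.zpowers u).topologicalClosure with hX
  set Y := (Subgroup.zpowers v).topologicalClosure with hY
  have hLc : IsClosed (L : Set G) := hL ▸ Subgroup.isClosed_topologicalClosure _
  have huL : u ∈ L := hL ▸ Subgroup.le_topologicalClosure _ (Subgroup.subset_closure (by simp))
  have hvL : v ∈ L := hL ▸ Subgroup.le_topologicalClosure _ (Subgroup.subset_closure (by simp))
  have hind : ∀ S : Subgroup G, IsClosed (S : Set G) → u ∈ S → v ∈ S → L ≤ S := by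
    intro S hS h1 h2
    rw [← hL]
    refine Subgroup.topologicalClosure_minimal _ ?_ hS
    rw [Subgroup.closure_le]
    rintro _ (rfl | rfl)
    · exact h1
    · exact h2
  have hzL : z ∈ L := L.mul_mem (L.mul_mem (L.mul_mem huL hvL) (L.inv_mem huL)) (L.inv_mem hvL)
  have hzC : z ∈ C := Subgroup.le_topologicalClosure _ (Subgroup.mem_zpowers z)
  have huX : u ∈ X := Subgroup.le_topologicalClosure _ (Subgroup.mem_zpowers u)
  have hvY : v ∈ Y := Subgroup.le_topologicalClosure _ (Subgroup.mem_zpowers v)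
  have hCL : C ≤ L := fun c hc => mem_of_mem_cl_zpowers L hLc hzL hc
  have hXL : X ≤ L := fun c hc => mem_of_mem_cl_zpowers L hLc huL hc
  have hYL : Y ≤ L := fun c hc => mem_of_mem_cl_zpowers L hLc hvL hc
  have hCc : IsClosed (C : Set G) := Subgroup.isClosed_topologicalClosure _
  have hXc : IsClosed (X : Set G) := Subgroup.isClosed_topologicalClosure _
  have hYc : IsClosed (Y : Set G) := Subgroup.isClosed_topologicalClosure _
  have hcen : ∀ g ∈ L, ∀ c ∈ C, Commute g c := by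
    intro g hg c hc
    have := hind (Subgroup.centralizer {z}) (isClosed_centralizer' _)
      (by rw [Subgroup.mem_centralizer_iff]; rintro _ rfl; exact hu.symm.eq)
      (by rw [Subgroup.mem_centralizer_iff]; rintro _ rfl; exact hv.symm.eq) hg
    rw [Subgroup.mem_centralizer_iff] at this
    exact commute_of_cl_zpowers (Commute.symm (this z rfl)) hc
  have hinv : ∀ g ∈ L, ∀ h : G, ⁅g, h⁆ ∈ C → ⁅g⁻¹, h⁆ = ⁅g, h⁆⁻¹ := by
    intro g hg h hc
    have h1 : ⁅g⁻¹, h⁆ = g⁻¹ * ⁅g, h⁆⁻¹ * g := by simp only [commutatorElement_def]; group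
    rw [h1, mul_assoc, ← (hcen g hg _ (C.inv_mem hc)).eq]; group
  have hstep : ∀ h : G, ⁅u, h⁆ ∈ C → ⁅v, h⁆ ∈ C → ∀ g ∈ L, ⁅g, h⁆ ∈ C := by
    intro h h1 h2 g hg
    let S : Subgroup G :=
      { carrier := {g | g ∈ L ∧ ⁅g, h⁆ ∈ C}
        one_mem' := ⟨L.one_mem, by simp⟩
        mul_mem' := by
          rintro a b ⟨ha, ha'⟩ ⟨hb, hb'⟩
          exact ⟨L.mul_mem ha hb, by rw [comm_mul_left (hcen a ha _ hb')]; exact C.mul_mem hb' ha'⟩
        inv_mem' := by
          rintro a ⟨ha, ha'⟩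
          exact ⟨L.inv_mem ha, by rw [hinv a ha h ha']; exact C.inv_mem ha'⟩ }
    have hS : IsClosed (S : Set G) :=
      hLc.inter (hCc.preimage (f := fun g : G => g * h * g⁻¹ * h⁻¹) (by fun_prop))
    exact (hind S hS ⟨huL, h1⟩ ⟨hvL, h2⟩ hg).2
  have hcomm : ∀ g ∈ L, ∀ h ∈ L, ⁅g, h⁆ ∈ C := by
    intro g hg h hh
    refine hstep h ?_ ?_ g hg
    · rw [← commutatorElement_inv]
      refine C.inv_mem (hstep u (by simp) ?_ h hh)
      rw [← commutatorElement_inv]; exact C.inv_mem hzC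
    · rw [← commutatorElement_inv]
      exact C.inv_mem (hstep v hzC (by simp) h hh)
  have hsurj : ∀ c ∈ C, ∃ w ∈ X, ⁅w, v⁆ = c := by
    intro c hc
    let S : Subgroup G :=
      { carrier := (fun w : G => ⁅w, v⁆) '' (X : Set G)
        one_mem' := ⟨1, X.one_mem, by simp⟩
        mul_mem' := by
          rintro _ _ ⟨a, ha, rfl⟩ ⟨b, hb, rfl⟩
          exact ⟨b * a, X.mul_mem hb ha,
            comm_mul_left (hcen b (hXL hb) _ (hcomm a (hXL ha) v hvL))⟩
        inv_mem' := by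
          rintro _ ⟨a, ha, rfl⟩
          exact ⟨a⁻¹, X.inv_mem ha, hinv a (hXL ha) v (hcomm a (hXL ha) v hvL)⟩ }
    have hS : IsClosed (S : Set G) :=
      (hXc.isCompact.image (f := fun w : G => w * v * w⁻¹ * v⁻¹) (by fun_prop)).isClosed
    exact mem_of_mem_cl_zpowers S hS ⟨u, huX, rfl⟩ hc
  have hCD : C ≤ D := by
    intro c hc
    obtain ⟨w, hw, rfl⟩ := hsurj c hc
    exact comm_mem_of_index hp hn hi (hXL hw) hvL
  -- the isolator of `C`
  have hroot : ∀ g ∈ L, ∀ n : ℕ, 0 < n → g ^ n ∈ C → ∀ h ∈ L, Commute g h := by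
    intro g hg n hn0 hgn h hh
    rw [← commutatorElement_eq_one_iff_commute]
    refine htf _ (hcomm g hg h hh) n hn0 ?_
    rw [← comm_pow_left (hcen g hg _ (hcomm g hg h hh)), commutatorElement_eq_one_iff_commute]
    exact (hcen h hh _ hgn).symm
  let I : Subgroup G :=
    { carrier := {g | g ∈ L ∧ ∃ n : ℕ, 0 < n ∧ g ^ n ∈ C}
      one_mem' := ⟨L.one_mem, 1, one_pos, by simp⟩
      mul_mem' := by
        rintro a b ⟨ha, n, hn0, ha'⟩ ⟨hb, m, hm0, hb'⟩
        refine ⟨L.mul_mem ha hb, n * m, Nat.mul_pos hn0 hm0, ?_⟩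
        rw [(hroot a ha n hn0 ha' b hb).mul_pow, pow_mul, mul_comm n m, pow_mul]
        exact C.mul_mem (C.pow_mem ha' _) (C.pow_mem hb' _)
      inv_mem' := by
        rintro a ⟨ha, n, hn0, ha'⟩
        exact ⟨L.inv_mem ha, n, hn0, by rw [inv_pow]; exact C.inv_mem ha'⟩ }
  by_cases hID : I ≤ D
  · have hI : I = ⊥ := by
      refine hs I hID ?_ ?_
      · rintro l hl k ⟨hk, n, hn0, hk'⟩
        rw [← (hroot k hk n hn0 hk' l hl).eq, mul_inv_cancel_right]
        exact ⟨hk, n, hn0, hk'⟩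
      · rintro k ⟨hk, n, hn0, hk'⟩
        refine ⟨hf _, n * (p * p), Nat.mul_pos hn0 (Nat.mul_pos hp.pos hp.pos), ?_⟩
        obtain ⟨w, hw, hwk⟩ := hsurj _ hk'
        have hwD : w ^ p ∈ D := pow_mem_of_index hn hi (hXL hw)
        have hvD : v ^ p ∈ D := pow_mem_of_index hn hi hvL
        have h1 : k ^ (n * (p * p)) = ⁅w ^ p, v ^ p⁆ := by
          rw [comm_pow_left (hcen w (hXL hw) _ (hcomm w (hXL hw) _ (L.pow_mem hvL p))),
            comm_pow_right (hcen v hvL _ (hcomm w (hXL hw) v hvL)), hwk, ← pow_mul, ← pow_mul]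
        have h2 : (⟨k, hID ⟨hk, n, hn0, hk'⟩⟩ : D) ^ (n * (p * p))
            = ⁅(⟨w ^ p, hwD⟩ : D), (⟨v ^ p, hvD⟩ : D)⁆ := Subtype.ext h1
        rw [← map_pow, h2, map_commutatorElement]
        exact hcomm _ (hf _) _ (hf _)
    have : z ∈ I := ⟨hzL, 1, one_pos, by simpa using hzC⟩
    rw [hI] at this
    exact this
  · obtain ⟨i, ⟨hiL, n, hn0, hin⟩, hiD⟩ := SetLike.not_le_iff_exists.mp hID
    have hic := hroot i hiL n hn0 hin
    have hdec : ∀ g ∈ L, ∃ d ∈ D, ∃ j : ℤ, g = d * i ^ j := fun g hg =>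
      exists_mul_zpow_of_index hp hn hi hiL hiD hg
    have hLD : ⁅L, L⁆ ≤ (⁅(⊤ : Subgroup D), (⊤ : Subgroup D)⁆).map D.subtype := by
      rw [Subgroup.commutator_le]
      intro g hg h hh
      obtain ⟨d, hd, j, rfl⟩ := hdec g hg
      obtain ⟨e, he, k, rfl⟩ := hdec h hh
      refine ⟨⁅(⟨d, hd⟩ : D), (⟨e, he⟩ : D)⁆,
        Subgroup.commutator_mem_commutator (Subgroup.mem_top _) (Subgroup.mem_top _), ?_⟩
      show ⁅d, e⁆ = ⁅d * i ^ j, e * i ^ k⁆
      have c1 : Commute (i ^ j) (e * i ^ k) := (hic _ hh).zpow_left j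
      have c2 : Commute (i ^ k) d⁻¹ := (hic _ (L.inv_mem (hDL hd))).zpow_left k
      calc ⁅d, e⁆ = d * e * (d⁻¹ * i ^ k) * (e * i ^ k)⁻¹ := by
            rw [commutatorElement_def]; group
        _ = d * ((e * i ^ k) * i ^ j) * (d * i ^ j)⁻¹ * (e * i ^ k)⁻¹ := by rw [← c2.eq]; group
        _ = ⁅d * i ^ j, e * i ^ k⁆ := by rw [← c1.eq, commutatorElement_def]; group
    have hKD : ⁅L, L⁆ ≤ D := hLD.trans (Subgroup.map_subtype_le _)
    have hK : ⁅L, L⁆ = ⊥ := by
      refine hs _ hKD ?_ ?_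
      · intro l hl k hk
        have hkC : k ∈ C := (Subgroup.commutator_le.mpr hcomm) hk
        rw [(hcen l hl k hkC).eq, mul_inv_cancel_right]
        exact hk
      · intro k hk
        obtain ⟨d, hd, rfl⟩ := hLD hk
        have h1 : f d ∈ (⁅(⊤ : Subgroup D), (⊤ : Subgroup D)⁆).map f := ⟨d, hd, rfl⟩
        rw [Subgroup.map_commutator] at h1
        have h2 : (⊤ : Subgroup D).map f ≤ L := by
          rintro _ ⟨x, _, rfl⟩; exact hf x
        exact Subgroup.commutator_mono h2 h2 h1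
    have : z ∈ ⁅L, L⁆ := Subgroup.commutator_mem_commutator huL hvL
    rw [hK] at this
    exact this

variable {p : ℕ} [Fact p.Prime] [TotallyDisconnectedSpace G]

theorem comm_eq_one {A : Subgroup G} (hc : IsClosed (A : Set G))
    (htf : ∀ g ∈ A, IsOfFinOrder g → g = 1) (hve : HVE p G) (a b : G) (hab : ⁅a, b⁆ ∈ A)
    (ha : Commute ⁅a, b⁆ a) (hb : Commute ⁅a, b⁆ b) : ⁅a, b⁆ = 1 := by
  by_cases h1 : a = 1
  · simp [h1]
  obtain ⟨D, f, hDL, hn, hi, hmul, hf, hs⟩ := hve a b h1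
  let F : D →* G := MonoidHom.mk' (fun d => f d) fun x y => hmul x x.2 y y.2
  exact heis (Fact.out : p.Prime)
    (fun g hg n hn0 hgn => htf g (mem_of_mem_cl_zpowers A hc hab hg)
      (isOfFinOrder_iff_pow_eq_one.mpr ⟨n, hn0, hgn⟩)) ha.symm hb.symm rfl hDL
    hn hi F (fun d => hf d d.2) fun K hK h2 h3 => hs K hK h2 h3

theorem self_cent [Group.IsSolvable G] (hve : HVE p G) {A : Subgroup G}
    (hA : Maximal (fun B : Subgroup G => B.Normal ∧ ∀ a ∈ B, ∀ b ∈ B, a * b = b * a) A)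
    (hAc : IsClosed (A : Set G)) (htf : ∀ g ∈ A, IsOfFinOrder g → g = 1) :
    ∀ g, g ∈ A ↔ ∀ a ∈ A, g * a = a * g := by
  obtain ⟨⟨hAn, hAab⟩, hmax⟩ := hA
  set Z : Subgroup G := Subgroup.centralizer (A : Set G) with hZ
  have hZn : Z.Normal := inferInstance
  have hAZ : A ≤ Z := fun a ha => Subgroup.mem_centralizer_iff.mpr fun b hb => hAab b hb a ha
  -- the derived series of `Z`, inside `G`
  let S : ℕ → Subgroup G := fun k => Nat.rec Z (fun _ T => ⁅T, T⁆) k
  have hS0 : S 0 = Z := rfl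
  have hSs : ∀ k, S (k + 1) = ⁅S k, S k⁆ := fun _ => rfl
  have hSn : ∀ k, (S k).Normal := by
    intro k
    induction k with
    | zero => exact hZn
    | succ k ih => rw [hSs]; exact @Subgroup.commutator_normal G _ (S k) (S k) ih ih
  have hSZ : ∀ k, S k ≤ Z := by
    intro k
    induction k with
    | zero => exact le_rfl
    | succ k ih =>
      rw [hSs]
      exact (Subgroup.commutator_mono ih ih).trans (Subgroup.commutator_le_left Z Z)
  have hSd : ∀ k, S k ≤ derivedSeries G k := by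
    intro k
    induction k with
    | zero => exact le_top
    | succ k ih => rw [hSs, derivedSeries_succ]; exact Subgroup.commutator_mono ih ih
  have hdown : ∀ k, S (k + 1) ≤ A → S k ≤ A := by
    intro k hk
    have := hSn k
    have hB : A ⊔ S k ≤ A := by
      refine hmax ⟨@Subgroup.sup_normal G _ A (S k) hAn this, ?_⟩ le_sup_left
      have hBZ : A ⊔ S k ≤ Z := sup_le hAZ (hSZ k)
      have hc : ∀ x ∈ S k, ∀ y ∈ S k, Commute x y := by
        intro x hx y hy
        have hxy : ⁅x, y⁆ ∈ A := hk (Subgroup.commutator_mem_commutator hx hy)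
        rw [← commutatorElement_eq_one_iff_commute]
        exact comm_eq_one hAc htf hve x y hxy (Subgroup.mem_centralizer_iff.mp (hSZ k hx) _ hxy)
          (Subgroup.mem_centralizer_iff.mp (hSZ k hy) _ hxy)
      intro x hx y hy
      have hx' : x ∈ ((A ⊔ S k : Subgroup G) : Set G) := hx
      have hy' : y ∈ ((A ⊔ S k : Subgroup G) : Set G) := hy
      rw [@Subgroup.mul_normal G _ A (S k) this] at hx' hy'
      obtain ⟨a, ha, s, hs, rfl⟩ := hx'
      obtain ⟨b, hb, t, ht, rfl⟩ := hy'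
      have c1 : Commute a (b * t) := Subgroup.mem_centralizer_iff.mp (hBZ hy) a ha
      have c2 : Commute b s := Subgroup.mem_centralizer_iff.mp (hSZ k hs) b hb
      exact (c1.mul_left (c2.symm.mul_right (hc s hs t ht))).eq
    exact le_sup_right.trans hB
  have hZA : Z ≤ A := by
    obtain ⟨k, hk⟩ := Group.IsSolvable.solvable (G := G)
    have h1 : S k ≤ A := (hSd k).trans (hk ▸ bot_le)
    clear hk
    induction k with
    | zero => exact h1
    | succ k ih => exact ih (hdown k h1)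
  refine fun g => ⟨fun hg a ha => hAab g hg a ha, fun h => hZA ?_⟩
  exact Subgroup.mem_centralizer_iff.mpr fun a ha => (h a ha).symm

end Pool.Agent.Lib.MP_2dbb30_al.LL.PT
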