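import Pool.Agent.Lib.MP_2dbb30_al.TF.KL
import Pool.Agent.Lib.MP_2dbb30_al.LL.Port1

set_option autoImplicit false
set_option linter.unusedSectionVars false

open Topology Filter
open scoped commutatorElement

namespace Pool.Agent.Lib.MP_2dbb30_al.LL.PT

open Pool.Agent.Lib.MP_2dbb30_al.TF

variable {p : ℕ} [Fact p.Prime] {G : Type*} [Group G] [TopologicalSpace G] [IsTopologicalGroup G]
  [CompactSpace G] [T2Space G] [TotallyDisconnectedSpace G]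
  {V : Type*} [AddCommGroup V] [Module ℤ_[p] V] [TopologicalSpace V] [IsTopologicalAddGroup V]
  {A : Subgroup G} {ι : V → G} {ρ : G →* Module.End ℤ_[p] V}

theorem tfA (m : Model A ι ρ) (htf : ∀ g ∈ A, IsOfFinOrder g → g = 1) {a : ℤ_[p]} {v : V}
    (h : a • v = 0) : a = 0 ∨ v = 0 := by
  by_cases ha : a = 0
  · exact Or.inl ha
  right
  have h2 : ((p ^ a.valuation : ℕ) : ℤ_[p]) = ((PadicInt.unitCoeff ha)⁻¹ : ℤ_[p]ˣ) * a := by
    rw [Units.eq_inv_mul_iff_mul_eq]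
    push_cast
    exact (PadicInt.unitCoeff_spec ha).symm
  have h3 : (p ^ a.valuation) • v = 0 := by
    rw [← Nat.cast_smul_eq_nsmul ℤ_[p], h2, mul_smul, h, smul_zero]
  have h4 : ι v ^ p ^ a.valuation = 1 := by rw [← m.nsmul, h3, m.zero]
  have h5 : ι v = 1 :=
    htf _ ((m.mem _).2 ⟨v, rfl⟩) (isOfFinOrder_iff_pow_eq_one.mpr ⟨_, pow_pos (Fact.out : p.Prime).pos _, h4⟩)
  exact m.inj (h5.trans m.zero.symm)

theorem closedA (m : Model A ι ρ) : IsClosed (A : Set G) := by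
  have : (A : Set G) = Set.range ι := by
    ext g; exact m.mem g
  rw [this]
  exact m.emb.isClosed_range

theorem kl' (m : Model A ι ρ) (hG : ProP p G) (htf : ∀ g ∈ A, IsOfFinOrder g → g = 1)
    (hve : HVE p G) (y : G) (a : V) :
    (∃ e : ℕ, ρ (y ^ p ^ e) a = a) ∨ (∃ c : ℤ_[p], ρ y a = c • a) ∨
      ∀ X : AddSubgroup V, IsClosed (X : Set V) → a ∈ X → (∀ v ∈ X, ρ y v ∈ X) →
        ∃ w ∈ X, (p : ℤ_[p]) • a = ρ y w - w := by
  classical
  have hp : p.Prime := Fact.out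
  have hp0 : (p : ℤ_[p]) ≠ 0 := Nat.cast_ne_zero.2 hp.ne_zero
  have htp : ∀ v : V, (p : ℤ_[p]) • v = 0 → v = 0 := fun v h => (tfA m htf h).resolve_left hp0
  by_cases ha0 : a = 0
  · exact Or.inl ⟨0, by simp [ha0]⟩
  have ha1 : ι a ≠ 1 := fun h => ha0 (m.inj (h.trans m.zero.symm))
  obtain ⟨M, hM, ha, hy, hmin⟩ := exists_cyc ρ y a
  obtain ⟨D, f, hDH, hDn, hDi, hf, hfH, hs⟩ := hve (ι a) y ha1
  set H := (Subgroup.closure ({ι a, y} : Set G)).topologicalClosure with hH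
  have hHc : IsClosed (H : Set G) := Subgroup.isClosed_topologicalClosure _
  have haH : ι a ∈ H := Subgroup.le_topologicalClosure _ (Subgroup.subset_closure (by simp))
  have hyH : y ∈ H := Subgroup.le_topologicalClosure _ (Subgroup.subset_closure (by simp))
  have hMH : ∀ v ∈ M, ι v ∈ H := by
    let X : AddSubgroup V :=
      { carrier := ι ⁻¹' H
        zero_mem' := by simp [m.zero]
        add_mem' := fun h1 h2 => by
          simp only [Set.mem_preimage, m.add]; exact H.mul_mem h1 h2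
        neg_mem' := fun h1 => by
          simp only [Set.mem_preimage, m.neg]; exact H.inv_mem h1 }
    exact hmin X (hHc.preimage m.emb.continuous) haH fun v hv => by
      change ι (ρ y v) ∈ H
      rw [m.conj]
      exact H.mul_mem (H.mul_mem hyH hv) (H.inv_mem hyH)
  have hdec : ∀ h ∈ H, ∃ v ∈ M, ∃ μ : ℤ_[p], h = ι v * pw hG y μ :=
    fun h hh => mem_H m hG hM ha hy hh
  have hact : ∀ (v : V) (g : G) (w : V), ρ (ι v * g) w = ρ g w := fun v g w => by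
    rw [map_mul, Module.End.mul_apply, m.rho_iota]
  obtain ⟨hpow, hcom, hgen, hdvd⟩ := index_facts hDn hDi
  have hf1 : f 1 = 1 := by
    have := hf 1 D.one_mem 1 D.one_mem
    rw [mul_one] at this
    exact (mul_eq_left.1 this.symm)
  have hfi : ∀ d ∈ D, f d⁻¹ = (f d)⁻¹ := fun d hd => by
    apply eq_inv_of_mul_eq_one_left
    rw [← hf _ (D.inv_mem hd) _ hd, inv_mul_cancel, hf1]
  have hfp : ∀ d ∈ D, ∀ n : ℕ, f (d ^ n) = f d ^ n := fun d hd n => by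
    induction n with
    | zero => simpa using hf1
    | succ n ih => rw [pow_succ, hf _ (D.pow_mem hd n) _ hd, ih, pow_succ]
  have hfc : ∀ d ∈ D, ∀ k ∈ D, f (d * k * d⁻¹) = f d * f k * (f d)⁻¹ := fun d hd k hk => by
    rw [hf _ (D.mul_mem hd hk) _ (D.inv_mem hd), hf _ hd _ hk, hfi d hd]
  have hpD : ∀ v ∈ M, ι ((p : ℤ_[p]) • v) ∈ D := fun v hv => by
    rw [Nat.cast_smul_eq_nsmul, m.nsmul]; exact hpow _ (hMH v hv)
  have htD : ∀ h ∈ H, ∀ v ∈ M, ι (ρ h v - v) ∈ D := fun h hh v hv => by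
    rw [m.sub, m.conj]; exact hcom _ hh _ (hMH v hv)
  have hpM : ∀ v ∈ M, (p : ℤ_[p]) • v ∈ M := fun v hv => m.smul_mem hM _ hv
  have hHM : ∀ h ∈ H, ∀ v ∈ M, ρ h v ∈ M := fun h hh v hv => by
    obtain ⟨w, -, μ, rfl⟩ := hdec h hh
    rw [hact]; exact inv_pw_mem m hG hM hy μ hv
  have hHH : ∀ h ∈ H, ∀ k ∈ H, ∀ v, ρ h (ρ k v) = ρ k (ρ h v) := fun h hh k hk v => by
    obtain ⟨w, -, μ, rfl⟩ := hdec h hh
    obtain ⟨w', -, ν, rfl⟩ := hdec k hk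
    simp only [hact]; exact rho_comm hG y μ ν v
  have core : ∀ X : AddSubgroup V, (∀ x ∈ X, ι x ∈ D) → (∀ h ∈ H, ∀ x ∈ X, ρ h x ∈ X) →
      (∀ x ∈ X, ∃ x' ∈ X, f (ι x) = ι x') → ∀ x ∈ X, x = 0 := by
    intro X h1 h2 h3 x hx
    let N : Subgroup G :=
      { carrier := ι '' X
        one_mem' := ⟨0, X.zero_mem, m.zero⟩
        mul_mem' := by
          rintro _ _ ⟨u, hu, rfl⟩ ⟨w, hw, rfl⟩
          exact ⟨u + w, X.add_mem hu hw, m.add u w⟩
        inv_mem' := by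
          rintro _ ⟨u, hu, rfl⟩
          exact ⟨-u, X.neg_mem hu, m.neg u⟩ }
    have hN := hs N (by rintro _ ⟨u, hu, rfl⟩; exact h1 u hu)
      (by rintro h hh _ ⟨u, hu, rfl⟩; exact ⟨_, h2 h hh u hu, m.conj h u⟩)
      (by
        rintro _ ⟨u, hu, rfl⟩
        obtain ⟨u', hu', h⟩ := h3 u hu
        exact ⟨u', hu', h.symm⟩)
    have : ι x ∈ N := ⟨x, hx, rfl⟩
    rw [hN, Subgroup.mem_bot] at this
    exact m.inj (this.trans m.zero.symm)
  by_cases hI : ∀ v ∈ M, ι v ∈ D → ∃ w ∈ M, f (ι v) = ι w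
  swap
  · -- the image leaves `M`
    push Not at hI
    obtain ⟨v, hv, hvD, hI⟩ := hI
    obtain ⟨w, hw, μ, hμ⟩ := hdec _ (hfH _ hvD)
    have hμ0 : μ ≠ 0 := by
      rintro rfl
      exact hI w hw (by simpa using hμ)
    obtain ⟨e, u, hu⟩ : ∃ (e : ℕ) (u : ℤ_[p]ˣ), μ = u * (p : ℤ_[p]) ^ e :=
      ⟨_, _, PadicInt.unitCoeff_spec hμ0⟩
    set d := y ^ p ^ (e + 1) with hd
    have hd' : d = (y ^ p) ^ p ^ e := by rw [hd, ← pow_mul, pow_succ']
    have hdD : d ∈ D := hd' ▸ D.pow_mem (hpow y hyH) _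
    have hdH : d ∈ H := hDH hdD
    obtain ⟨w', -, ν, hν⟩ := hdec _ (hfH _ (hpow y hyH))
    have hfd : ∀ c, ρ (f d) c = ρ (pw hG y (ν * (p : ℤ_[p]) ^ e)) c := fun c => by
      have : ρ (f (y ^ p)) = ρ (pw hG y ν) := LinearMap.ext fun c => by rw [hν, hact]
      rw [hd', hfp _ (hpow y hyH), map_pow, this, ← map_pow, pw_pow, Nat.cast_pow]
    have hkill : ∀ b ∈ M, f (ι (ρ d (ρ d ((p : ℤ_[p]) • b) - (p : ℤ_[p]) • b) -
        (ρ d ((p : ℤ_[p]) • b) - (p : ℤ_[p]) • b))) = 1 := by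
      intro b hb
      set c := ρ d ((p : ℤ_[p]) • b) - (p : ℤ_[p]) • b with hc
      have hcD : ι c ∈ D := htD d hdH _ (hpM b hb)
      obtain ⟨c', hc'⟩ : ∃ c', f (ι c) = ι c' := by
        obtain ⟨w1, -, μ1, h1⟩ := hdec _ (hfH _ hdD)
        obtain ⟨w2, -, μ2, h2⟩ := hdec _ (hfH _ (hpD b hb))
        refine ⟨w1 + ρ (pw hG y μ1) w2 - ρ (pw hG y μ2) w1 - w2, ?_⟩
        rw [hc, m.sub, m.conj, hf _ (hDn _ hdH _ (hpD b hb)) _ (D.inv_mem (hpD b hb)),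
          hfc _ hdD _ (hpD b hb), hfi _ (hpD b hb), h1, h2, m.sub, m.sub, m.add, m.conj, m.conj]
        have h3 := (commute_pw hG (Commute.refl y) μ1 μ2).eq
        calc _ = ι w1 * pw hG y μ1 * ι w2 * (pw hG y μ2 * (pw hG y μ1)⁻¹) * (ι w1)⁻¹ *
              (pw hG y μ2)⁻¹ * (ι w2)⁻¹ := by group
          _ = ι w1 * pw hG y μ1 * ι w2 * ((pw hG y μ1)⁻¹ * pw hG y μ2) * (ι w1)⁻¹ *
              (pw hG y μ2)⁻¹ * (ι w2)⁻¹ := by
            rw [(commute_pw hG (Commute.refl y) μ2 μ1).inv_right.eq]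
          _ = _ := by group
      have hfix : ρ (pw hG y μ) c' = c' := by
        apply m.inj
        rw [← hact w, ← hμ, m.conj, ← hc', ← hfc _ hvD _ hcD, ← m.conj, m.rho_iota]
      have hfix' : ρ (f d) c' = c' := by
        rw [hfd]
        have h4 : ν * (p : ℤ_[p]) ^ e = μ * (((u⁻¹ : ℤ_[p]ˣ) : ℤ_[p]) * ν) := by
          rw [hu]
          have := u.mul_inv
          linear_combination (-(ν * (p : ℤ_[p]) ^ e)) * this
        rw [h4, pw_mul]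
        apply m.inj
        have h5 : Commute (pw hG y μ) (ι c') := by
          have := m.conj (pw hG y μ) c'
          rw [hfix] at this
          exact (mul_inv_eq_iff_eq_mul.1 this.symm)
        rw [m.conj, (commute_pw_left hG h5 _).eq, mul_inv_cancel_right]
      rw [m.sub, m.conj, hf _ (hDn _ hdH _ hcD) _ (D.inv_mem hcD), hfc _ hdD _ hcD, hfi _ hcD, hc',
        ← m.conj, hfix', mul_inv_cancel]
    have h0 := core (tim ρ d (tim ρ d (pim p M)))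
      (by
        rintro _ ⟨_, ⟨_, ⟨b, hb, rfl⟩, rfl⟩, rfl⟩
        exact htD d hdH _ (M.sub_mem (hHM d hdH _ (hpM b hb)) (hpM b hb)))
      (by
        rintro h hh _ ⟨_, ⟨_, ⟨b, hb, rfl⟩, rfl⟩, rfl⟩
        refine mem_tim.2 ⟨_, mem_tim.2 ⟨_, mem_pim.2 ⟨ρ h b, hHM h hh b hb, rfl⟩, rfl⟩, ?_⟩
        change _ = ρ h (ρ d (ρ d ((p : ℤ_[p]) • b) - (p : ℤ_[p]) • b) -
          (ρ d ((p : ℤ_[p]) • b) - (p : ℤ_[p]) • b))
        simp only [map_sub, map_smul, hHH h hh d hdH])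
      (by
        rintro _ ⟨_, ⟨_, ⟨b, hb, rfl⟩, rfl⟩, rfl⟩
        exact ⟨0, zero_mem _, (hkill b hb).trans m.zero.symm⟩)
      _ (mem_tim.2 ⟨_, mem_tim.2 ⟨_, mem_pim.2 ⟨a, ha, rfl⟩, rfl⟩, rfl⟩)
    have h1 : ρ d (ρ d a - a) = ρ d a - a := by
      rw [← sub_eq_zero]
      apply htp
      rw [← h0]
      simp only [map_sub, map_smul, smul_sub]
    have h2 : ⁅d, ι a⁆ = ι (ρ d a - a) := by rw [m.sub, m.conj, commutatorElement_def]
    have h3 := comm_eq_one (closedA m) htf hve d (ι a) ((m.mem _).2 ⟨_, h2.symm⟩)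
      (by
        rw [h2]
        have := m.conj d (ρ d a - a)
        rw [h1] at this
        exact (mul_inv_eq_iff_eq_mul.1 this.symm).symm)
      (by rw [h2]; change _ * _ = _ * _; rw [← m.add, ← m.add, add_comm])
    refine Or.inl ⟨e + 1, ?_⟩
    rw [← sub_eq_zero]
    exact m.inj (by rw [← h2, h3, m.zero])
  -- the image stays in `M`
  choose! φ hφM hφ using hI
  have haD : ι a ∉ D := by
    intro haD
    have hall : ∀ v ∈ M, ι v ∈ D := fun v hv => by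
      obtain ⟨i, w, w', hw, hw', rfl⟩ := gen_cyc m hM ha hy hmin hv
      rw [m.add, m.add, m.nsmul]
      exact D.mul_mem (D.mul_mem (D.pow_mem haD i) (hpD w hw)) (htD y hyH w' hw')
    exact ha0 (core M hall hHM (fun v hv => ⟨φ v, hφM v hv (hall v hv), hφ v hv (hall v hv)⟩) a ha)
  have hM1 : ∀ v ∈ M, ι v ∈ D → ∃ w ∈ M, ∃ w' ∈ M, v = (p : ℤ_[p]) • w + (ρ y w' - w') := by
    intro v hv hvD
    obtain ⟨i, w, w', hw, hw', rfl⟩ := gen_cyc m hM ha hy hmin hv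
    rw [m.add, m.add, m.nsmul] at hvD
    have h1 := (D.mul_mem_cancel_right (hpD w hw)).1
      ((D.mul_mem_cancel_right (htD y hyH w' hw')).1 hvD)
    obtain ⟨j, rfl⟩ := hdvd _ haH haD i h1
    refine ⟨j • a + w, M.add_mem (M.nsmul_mem ha j) hw, w', hw', ?_⟩
    rw [smul_add, mul_smul, Nat.cast_smul_eq_nsmul ℤ_[p] p (j • a)]
  have hM1D : ∀ w ∈ M, ∀ w' ∈ M, ι ((p : ℤ_[p]) • w + (ρ y w' - w')) ∈ D := fun w hw w' hw' => by
    rw [m.add]; exact D.mul_mem (hpD w hw) (htD y hyH w' hw')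
  have htM : ∀ v ∈ M, ρ y v - v ∈ M := fun v hv => M.sub_mem (hy v hv) hv
  have hφadd : ∀ v ∈ M, ι v ∈ D → ∀ w ∈ M, ι w ∈ D → φ (v + w) = φ v + φ w := by
    intro v hv hvD w hw hwD
    apply m.inj
    rw [m.add, ← hφ v hv hvD, ← hφ w hw hwD, ← hf _ hvD _ hwD, ← m.add,
      hφ _ (M.add_mem hv hw) (by rw [m.add]; exact D.mul_mem hvD hwD)]
  have hφn : ∀ v ∈ M, ι v ∈ D → ∀ n : ℕ, φ (n • v) = n • φ v := by
    intro v hv hvD n
    apply m.inj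
    rw [m.nsmul, ← hφ v hv hvD, ← hfp _ hvD, ← m.nsmul,
      hφ _ (M.nsmul_mem hv n) (by rw [m.nsmul]; exact D.pow_mem hvD n)]
  have hφp : ∀ v ∈ M, ι v ∈ D → φ ((p : ℤ_[p]) • v) = (p : ℤ_[p]) • φ v := fun v hv hvD => by
    rw [Nat.cast_smul_eq_nsmul, Nat.cast_smul_eq_nsmul, hφn v hv hvD]
  obtain ⟨y', hy'D, hy'⟩ : ∃ y' ∈ D, ∀ v, ρ y' v = ρ y v := by
    obtain ⟨i, hi⟩ := hgen _ haH haD y hyH
    exact ⟨_, hi, fun v => by rw [← m.nsmul, ← m.neg, hact]⟩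
  obtain ⟨w0, -, k, hk⟩ := hdec _ (hfH _ hy'D)
  set z := pw hG y k with hz
  have hφt : ∀ v ∈ M, ι v ∈ D → φ (ρ y v - v) = ρ z (φ v) - φ v := by
    intro v hv hvD
    apply m.inj
    rw [← hφ _ (htM v hv) (htD y hyH v hv), ← hact w0 z, ← hk, m.sub, m.sub, ← hy', m.conj, m.conj,
      hf _ (hDn _ (hDH hy'D) _ hvD) _ (D.inv_mem hvD), hfc _ hy'D _ hvD, hfi _ hvD, hφ v hv hvD]
  let M0 : AddSubgroup V :=
    { carrier := {v | v ∈ M ∧ ι v ∈ D}
      zero_mem' := ⟨M.zero_mem, by rw [m.zero]; exact D.one_mem⟩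
      add_mem' := fun h1 h2 => ⟨M.add_mem h1.1 h2.1, by rw [m.add]; exact D.mul_mem h1.2 h2.2⟩
      neg_mem' := fun h1 => ⟨M.neg_mem h1.1, by rw [m.neg]; exact D.inv_mem h1.2⟩ }
  have hM0H : ∀ h ∈ H, ∀ v ∈ M0, ρ h v ∈ M0 := fun h hh v hv =>
    ⟨hHM h hh v hv.1, by rw [m.conj]; exact hDn h hh _ hv.2⟩
  by_cases hku : IsUnit k
  swap
  · -- the exponent is divisible by `p`
    obtain ⟨k', hk'⟩ : (p : ℤ_[p]) ∣ k := by
      rw [← PadicInt.norm_lt_one_iff_dvd]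
      exact PadicInt.not_isUnit_iff.1 hku
    have hyp : ∀ v ∈ M, ρ (y ^ p) v ∈ M := hHM _ (H.pow_mem hyH p)
    have h0 := core (tim ρ y M0)
      (by rintro _ ⟨v, hv, rfl⟩; exact htD y hyH v hv.1)
      (by
        rintro h hh _ ⟨v, hv, rfl⟩
        refine mem_tim.2 ⟨_, hM0H h hh v hv, ?_⟩
        change _ = ρ h (ρ y v - v)
        rw [map_sub, hHH h hh y hyH])
      (by
        rintro _ ⟨v, hv, rfl⟩
        refine ⟨φ (ρ y v - v), ?_, hφ _ (htM v hv.1) (htD y hyH v hv.1)⟩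
        rw [hφt v hv.1 hv.2, hz, hk', ← pow_pw]
        obtain ⟨w, hw, h1⟩ := mem_tim.1 (pw_sub_mem m hG hM hyp k' (hφM v hv.1 hv.2))
        obtain ⟨w', hw', h2⟩ := pow_sub_eq hy p hw
        rw [← h1, h2]
        refine mem_tim.2 ⟨_, ⟨M.add_mem (M.nsmul_mem hw p) (htM w' hw'), ?_⟩, rfl⟩
        rw [← Nat.cast_smul_eq_nsmul ℤ_[p]]
        exact hM1D w hw w' hw')
      _ (mem_tim.2 ⟨_, ⟨hpM a ha, hpD a ha⟩, rfl⟩)
    refine Or.inl ⟨0, ?_⟩
    rw [pow_zero, pow_one, ← sub_eq_zero]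
    apply htp
    rw [← h0, map_smul, smul_sub]
  have hzM : ∀ v ∈ M, ρ z v ∈ M := fun v hv => inv_pw_mem m hG hM hy k hv
  have hzt : ∀ v ∈ M, ρ z v - v ∈ tim ρ y M := fun v hv => pw_sub_mem m hG hM hy k hv
  set u := φ ((p : ℤ_[p]) • a) with hu
  set v := φ (ρ y a - a) with hv
  have huM : u ∈ M := hφM _ (hpM a ha) (hpD a ha)
  have hvM : v ∈ M := hφM _ (htM a ha) (htD y hyH a ha)
  have hrel : ρ z u - u = (p : ℤ_[p]) • v := by
    rw [hu, hv, ← hφt _ (hpM a ha) (hpD a ha), ← hφp _ (htM a ha) (htD y hyH a ha), map_smul,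
      smul_sub]
  have hgen' : ∀ b ∈ M, ι b ∉ D → ∀ w ∈ M, ∃ (i : ℕ), ∃ w1 ∈ M, ∃ w2 ∈ M,
      w = i • b + ((p : ℤ_[p]) • w1 + (ρ y w2 - w2)) := by
    intro b hb hbD w hw
    obtain ⟨i, hi⟩ := hgen _ (hMH b hb) hbD _ (hMH w hw)
    rw [← m.nsmul, ← m.neg, ← m.add] at hi
    obtain ⟨w1, h1, w2, h2, h3⟩ := hM1 _ (M.add_mem (M.neg_mem (M.nsmul_mem hb i)) hw) hi
    exact ⟨i, w1, h1, w2, h2, by rw [← h3]; abel⟩
  by_cases huD : ι u ∈ D
  swap
  · let X : AddSubgroup V :=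
      (pim p M).comap (ρ z - 1 : Module.End ℤ_[p] V).toAddMonoidHom
    have hX : ∀ w, w ∈ X ↔ ρ z w - w ∈ pim p M := fun w => Iff.rfl
    have hle : M ≤ X := by
      refine m.nak_t hG y ((isClosed_pim m hM).preimage ((m.cont_rho z).sub continuous_id))
        (fun w hw => ?_) hy (fun w hw => ?_) fun w hw => ?_
      · obtain ⟨b, hb, h⟩ := mem_pim.1 ((hX w).1 hw)
        refine (hX _).2 (mem_pim.2 ⟨_, hy b hb, ?_⟩)
        rw [← map_smul, h, map_sub, hHH y hyH z (pw_mem hG hHc hyH k)]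
      · exact (hX _).2 (mem_pim.2 ⟨_, M.sub_mem (hzM w hw) hw, by rw [map_smul, smul_sub]⟩)
      · obtain ⟨i, w1, h1, w2, h2, rfl⟩ := hgen' u huM huD w hw
        refine ⟨w2, h2, ?_⟩
        have : i • u + ((p : ℤ_[p]) • w1 + (ρ y w2 - w2)) - (ρ y w2 - w2) =
            i • u + (p : ℤ_[p]) • w1 := by abel
        rw [this]
        exact X.add_mem (X.nsmul_mem ((hX u).2 (mem_pim.2 ⟨v, hvM, hrel.symm⟩)) i)
          ((hX _).2 (mem_pim.2 ⟨_, M.sub_mem (hzM w1 h1) h1, by rw [map_smul, smul_sub]⟩))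
    have htp' : ∀ w ∈ M, ρ y w - w ∈ pim p M := by
      intro w hw
      obtain ⟨k', hk'⟩ := hku.exists_right_inv
      have h1 := pw_sub_mem m hG hM hzM k' hw
      rw [hz, ← pw_mul, hk', pw_one] at h1
      obtain ⟨b, hb, h2⟩ := mem_tim.1 h1
      rw [← h2]
      exact (hX b).1 (hle hb)
    have hsp : M ≤ (Submodule.span ℤ_[p] (({a} : Finset V) : Set V)).toAddSubgroup := by
      refine m.nak_p hG (m.isClosed_span {a}) fun w hw => ?_
      obtain ⟨i, w1, w2, h1, h2, rfl⟩ := gen_cyc m hM ha hy hmin hw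
      obtain ⟨b, hb, h3⟩ := mem_pim.1 (htp' w2 h2)
      refine ⟨w1 + b, M.add_mem h1 hb, ?_⟩
      have : i • a + (p : ℤ_[p]) • w1 + (ρ y w2 - w2) - (p : ℤ_[p]) • (w1 + b) = i • a := by
        rw [← h3, smul_add]; abel
      rw [this]
      exact AddSubgroup.nsmul_mem _ (Submodule.subset_span (by simp)) i
    have h4 : ρ y a ∈ Submodule.span ℤ_[p] (({a} : Finset V) : Set V) := hsp (hy a ha)
    rw [Finset.coe_singleton, Submodule.mem_span_singleton] at h4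
    obtain ⟨c, hc⟩ := h4
    exact Or.inr (Or.inl ⟨c, hc.symm⟩)
  by_cases hvD : ι v ∈ D
  swap
  · let Y : AddSubgroup V := (tim ρ y M).comap (DistribSMul.toAddMonoidHom V (p : ℤ_[p]))
    have hY : ∀ w, w ∈ Y ↔ (p : ℤ_[p]) • w ∈ tim ρ y M := fun w => Iff.rfl
    have hle : M ≤ Y := by
      refine m.nak_p hG ((isClosed_tim m y hM).preimage (m.cont_smul _)) fun w hw => ?_
      obtain ⟨i, w1, h1, w2, h2, rfl⟩ := hgen' v hvM hvD w hw
      refine ⟨w1, h1, ?_⟩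
      have : i • v + ((p : ℤ_[p]) • w1 + (ρ y w2 - w2)) - (p : ℤ_[p]) • w1 =
          i • v + (ρ y w2 - w2) := by abel
      rw [this]
      exact Y.add_mem (Y.nsmul_mem ((hY v).2 (hrel ▸ hzt u huM)) i)
        ((hY _).2 (mem_tim.2 ⟨_, hpM w2 h2, by rw [map_smul, smul_sub]⟩))
    obtain ⟨w, hwM, hw⟩ := mem_tim.1 ((hY a).1 (hle ha))
    exact Or.inr (Or.inr fun X h1 h2 h3 => ⟨w, hmin X h1 h2 h3 hwM, hw.symm⟩)
  exfalso
  have hstep : ∀ w ∈ M, ι (φ ((p : ℤ_[p]) • w)) ∈ D ∧ ι (φ (ρ y w - w)) ∈ D := by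
    intro w hw
    obtain ⟨i, w1, w2, h1, h2, h3⟩ := gen_cyc m hM ha hy hmin hw
    set b := (p : ℤ_[p]) • w1 + (ρ y w2 - w2) with hb
    have hbM : b ∈ M := M.add_mem (hpM w1 h1) (htM w2 h2)
    have hbD : ι b ∈ D := hM1D w1 h1 w2 h2
    have h4 : w = i • a + b := by rw [h3, hb, add_assoc]
    constructor
    · have : (p : ℤ_[p]) • w = i • ((p : ℤ_[p]) • a) + (p : ℤ_[p]) • b := by
        rw [h4, smul_add, smul_comm]
      rw [this, hφadd _ (M.nsmul_mem (hpM a ha) i)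
        (by rw [m.nsmul]; exact D.pow_mem (hpD a ha) i) _ (hpM b hbM) (hpD b hbM),
        hφn _ (hpM a ha) (hpD a ha), hφp b hbM hbD, m.add, m.nsmul]
      exact D.mul_mem (D.pow_mem huD i) (hpD _ (hφM b hbM hbD))
    · have : ρ y w - w = i • (ρ y a - a) + (ρ y b - b) := by
        rw [h4, map_add, map_nsmul, smul_sub]; abel
      rw [this, hφadd _ (M.nsmul_mem (htM a ha) i)
        (by rw [m.nsmul]; exact D.pow_mem (htD y hyH a ha) i) _ (htM b hbM) (htD y hyH b hbM),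
        hφn _ (htM a ha) (htD y hyH a ha), hφt b hbM hbD, m.add, m.nsmul]
      exact D.mul_mem (D.pow_mem hvD i) (htD z (pw_mem hG hHc hyH k) _ (hφM b hbM hbD))
  refine ha0 (htp a (core M0 (fun w hw => hw.2) hM0H (fun w hw => ?_) _ ⟨hpM a ha, hpD a ha⟩))
  refine ⟨φ w, ⟨hφM w hw.1 hw.2, ?_⟩, hφ w hw.1 hw.2⟩
  obtain ⟨w1, h1, w2, h2, rfl⟩ := hM1 w hw.1 hw.2
  rw [hφadd _ (hpM w1 h1) (hpD w1 h1) _ (htM w2 h2) (htD y hyH w2 h2), m.add]
  exact D.mul_mem (hstep w1 h1).1 (hstep w2 h2).2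

theorem kl (m : Model A ι ρ) (hG : ProP p G) (htf : ∀ g ∈ A, IsOfFinOrder g → g = 1)
    (hve : HVE p G) (y : G) (a : V) :
    (∃ (e : ℕ) (c : ℤ_[p]), ρ (y ^ p ^ e) a = c • a) ∨ ∃ w, (p : ℤ_[p]) • a = ρ y w - w := by
  rcases kl' m hG htf hve y a with ⟨e, h⟩ | ⟨c, h⟩ | h
  · exact Or.inl ⟨e, 1, by rw [one_smul, h]⟩
  · exact Or.inl ⟨0, c, by rw [pow_zero, pow_one, h]⟩
  · obtain ⟨w, -, hw⟩ := h ⊤ isClosed_univ trivial fun _ _ => trivial
    exact Or.inr ⟨w, hw⟩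

theorem line_pow (m : Model A ι ρ) (hG : ProP p G) (htf : ∀ g ∈ A, IsOfFinOrder g → g = 1)
    (hve : HVE p G) (x : G) (v : V) :
    ∃ (n : ℕ) (c : ℤ_[p]), ρ (x ^ p ^ n) v = c • v := by
  by_contra hcon
  have := m.t2Space
  have h1 : ∀ n : ℕ, ∃ w, (p : ℤ_[p]) • v = ρ (x ^ p ^ n) w - w := fun n =>
    (kl m hG htf hve (x ^ p ^ n) v).resolve_left fun ⟨e, c, h⟩ =>
      hcon ⟨n + e, c, by rw [pow_add, pow_mul, h]⟩
  have h2 : (p : ℤ_[p]) • v = 0 := by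
    by_contra h0
    obtain ⟨n, hn⟩ := m.small_pow hG
      (isOpen_compl_singleton.mem_nhds (Set.mem_compl_singleton_iff.2 (Ne.symm h0)))
    obtain ⟨w, hw⟩ := h1 n
    exact hn n le_rfl x w hw.symm
  have h3 := (tfA m htf h2).resolve_left (Nat.cast_ne_zero.2 (Fact.out : p.Prime).ne_zero)
  exact hcon ⟨0, 0, by simp [h3]⟩

end Pool.Agent.Lib.MP_2dbb30_al.LL.PT
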