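import Pool.Agent.Lib.MP_2dbb30_al.TF.Chart
import Pool.Agent.Lib.MP_2dbb30_al.LL.Port2

set_option autoImplicit false
set_option linter.unusedSectionVars false

open Topology Filter
open scoped Manifold ContDiff commutatorElement

namespace Pool.Agent.Lib.MP_2dbb30_al.LL.PT

open Pool.Agent.Lib.MP_2dbb30_al.TF

variable {p : ℕ} [Fact p.Prime] {G : Type*} [Group G] [TopologicalSpace G] [IsTopologicalGroup G]
  [CompactSpace G] [T2Space G] [TotallyDisconnectedSpace G]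
  {V : Type*} [AddCommGroup V] [Module ℤ_[p] V] [TopologicalSpace V] [IsTopologicalAddGroup V]
  {A : Subgroup G} {ι : V → G} {ρ : G →* Module.End ℤ_[p] V}

/-- Baire on `V` and two-line linear algebra -/
theorem scalar_pow (m : Model A ι ρ) (hG : ProP p G) (htf : ∀ g ∈ A, IsOfFinOrder g → g = 1)
    (x : G) (h : ∀ v : V, ∃ (n : ℕ) (c : ℤ_[p]), ρ (x ^ p ^ n) v = c • v) :
    ∃ (n : ℕ) (c : ℤ_[p]ˣ), ∀ v : V, ρ (x ^ p ^ n) v = (c : ℤ_[p]) • v := by
  have := m.compactSpace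
  have := m.t2Space
  let E : ℕ → Set V := fun n => Prod.snd '' {t : ℤ_[p] × V | ρ (x ^ p ^ n) t.2 = t.1 • t.2}
  have hEc : ∀ n, IsClosed (E n) := fun n =>
    ((isClosed_eq ((m.cont_rho _).comp continuous_snd) (cont_smul₂ m hG)).isCompact.image
      continuous_snd).isClosed
  have hEu : ⋃ n, E n = Set.univ := by
    rw [Set.eq_univ_iff_forall]
    intro v
    obtain ⟨n, c, hc⟩ := h v
    exact Set.mem_iUnion.mpr ⟨n, (c, v), hc, rfl⟩
  obtain ⟨n, v₀, hv₀⟩ := nonempty_interior_of_iUnion_of_closed hEc hEu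
  have hU : (fun u : V => v₀ + u) ⁻¹' E n ∈ 𝓝 (0 : V) := by
    refine (continuous_const.add continuous_id).continuousAt.preimage_mem_nhds ?_
    simpa using mem_interior_iff_mem_nhds.mp hv₀
  obtain ⟨k, hk⟩ := m.small_p hG hU
  set T := ρ (x ^ p ^ n) with hT
  set q : ℤ_[p] := (p : ℤ_[p]) ^ k with hq
  have hq0 : q ≠ 0 := pow_ne_zero _ (by exact_mod_cast (Fact.out : p.Prime).ne_zero)
  have hev : ∀ v : V, ∃ c : ℤ_[p], T (v₀ + q • v) = c • (v₀ + q • v) := by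
    intro v
    obtain ⟨⟨c, w⟩, hc, hw⟩ := hk v
    have hw' : w = v₀ + q • v := hw
    exact ⟨c, hw' ▸ hc⟩
  have hsame : ∀ v v' : V, ∀ c c' : ℤ_[p], T (v₀ + q • v) = c • (v₀ + q • v) →
      T (v₀ + q • v') = c' • (v₀ + q • v') → v₀ + q • v ≠ 0 → v₀ + q • v' ≠ 0 → c = c' := by
    intro v v' c c' hc hc' h0 h0'
    obtain ⟨d, hd⟩ := hev (v' + v' - v)
    have e : v₀ + q • (v' + v' - v) = (v₀ + q • v') + (v₀ + q • v') - (v₀ + q • v) := by
      rw [smul_sub, smul_add]; abel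
    rw [e, map_sub, map_add, hc, hc'] at hd
    generalize v₀ + q • v = s at *
    generalize v₀ + q • v' = s' at *
    have e1 : (2 * (d - c')) • s' = (d - c) • s := by
      have : (2 * (d - c')) • s' - (d - c) • s = d • (s' + s' - s) - (c' • s' + c' • s' - c • s) := by
        module
      rw [← sub_eq_zero, this, hd, sub_self]
    have e2 := congrArg T e1
    rw [map_smul, map_smul, hc, hc', smul_comm _ c' s', e1] at e2
    have e3 : ((d - c) * (c - c')) • s = 0 := by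
      have : ((d - c) * (c - c')) • s = (d - c) • c • s - c' • (d - c) • s := by module
      rw [this, e2, sub_self]
    rcases tfA m htf e3 with h1 | h1
    · rcases mul_eq_zero.mp h1 with h2 | h2
      · rw [h2, zero_smul] at e1
        rcases tfA m htf e1 with h3 | h3
        · have h4 : d - c' = 0 := (mul_eq_zero.mp h3).resolve_left two_ne_zero
          linear_combination h4 - h2
        · exact absurd h3 h0'
      · exact sub_eq_zero.mp h2
    · exact absurd h1 h0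
  obtain ⟨c, hc⟩ : ∃ c : ℤ_[p], ∀ v : V, T (v₀ + q • v) = c • (v₀ + q • v) := by
    by_cases hz : ∀ v : V, v₀ + q • v = 0
    · exact ⟨1, fun v => by rw [hz v, map_zero, smul_zero]⟩
    · push Not at hz
      obtain ⟨w, hw⟩ := hz
      obtain ⟨c, hc⟩ := hev w
      refine ⟨c, fun v => ?_⟩
      by_cases h0 : v₀ + q • v = 0
      · rw [h0, map_zero, smul_zero]
      · obtain ⟨c', hc'⟩ := hev v
        rw [hc', hsame w v c c' hc hc' hw h0]
  have hall : ∀ v : V, T v = c • v := by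
    intro v
    have h0 := hc 0
    have h1 := hc v
    rw [smul_zero, add_zero] at h0
    rw [map_add, h0, map_smul, smul_add, add_right_inj] at h1
    have h2 : q • (T v - c • v) = 0 := by rw [smul_sub, h1, smul_comm, sub_self]
    exact sub_eq_zero.mp ((tfA m htf h2).resolve_left hq0)
  by_cases hu : IsUnit c
  · obtain ⟨c, rfl⟩ := hu
    exact ⟨n, c, hall⟩
  · have hdiv : (p : ℤ_[p]) ∣ c := by
      rw [← PadicInt.norm_lt_one_iff_dvd]
      exact PadicInt.mem_nonunits.mp hu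
    obtain ⟨b, rfl⟩ := hdiv
    have hbot : (⊤ : AddSubgroup V) ≤ ⊥ := by
      refine m.nak_p hG (by simp) fun v _ => ⟨b • ρ (x ^ p ^ n)⁻¹ v, trivial, ?_⟩
      rw [← mul_smul, ← hall, hT, ← Module.End.mul_apply, ← map_mul, mul_inv_cancel, map_one,
        Module.End.one_apply, sub_self]
      exact zero_mem _
    refine ⟨n, 1, fun v => ?_⟩
    have hv : v = 0 := hbot (AddSubgroup.mem_top v)
    rw [hv, map_zero, smul_zero]

theorem finite_V (m : Model A ι ρ) (hG : ProP p G) (htf : ∀ g ∈ A, IsOfFinOrder g → g = 1)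
    (hfg : ∃ T : Finset G, (Subgroup.closure (T : Set G)).topologicalClosure = ⊤)
    (hA : ∀ g, (∀ v, ρ g v = v) → g ∈ A) (h : IsOpen (scal ρ : Set G)) :
    Module.Finite ℤ_[p] V := by
  classical
  have hfi : (scal ρ).FiniteIndex := by
    have : Finite (G ⧸ scal ρ) := Subgroup.quotient_finite_of_isOpen _ h
    exact Subgroup.finiteIndex_of_finite_quotient
  obtain ⟨F, hF⟩ := fg_of_open (scal ρ) h hfg
  have hFs : ∀ f ∈ F, f ∈ scal ρ := fun f hf =>
    hF ▸ Subgroup.le_topologicalClosure _ (Subgroup.subset_closure hf)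
  have hind : ∀ S : Subgroup G, IsClosed (S : Set G) → (∀ f ∈ F, f ∈ S) → scal ρ ≤ S := by
    intro S hS h1
    rw [← hF]
    exact Subgroup.topologicalClosure_minimal _ ((Subgroup.closure_le _).mpr h1) hS
  have hιs : ∀ v : V, ι v ∈ scal ρ := fun v => ⟨1, fun w => by rw [m.rho_iota]; simp⟩
  have hpre : ∀ B : Finset G, (∀ b ∈ B, b ∈ A) → ∃ W : Submodule ℤ_[p] V, W.FG ∧
      IsClosed (m.img W : Set G) ∧ ∀ b ∈ B, b ∈ m.img W := by
    intro B hB
    refine ⟨Submodule.span ℤ_[p] (B.preimage ι m.inj.injOn : Finset V), ⟨_, rfl⟩,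
      m.emb.isClosedMap _ (m.isClosed_span _), fun b hb => ?_⟩
    obtain ⟨v, rfl⟩ := (m.mem b).mp (hB b hb)
    exact ⟨v, Submodule.subset_span (by simpa using hb), rfl⟩
  by_cases hsA : scal ρ ≤ A
  · obtain ⟨W, hW, hWc, hWF⟩ := hpre F fun f hf => hsA (hFs f hf)
    have htop : W = ⊤ := by
      rw [eq_top_iff]
      intro v _
      obtain ⟨w, hw, e⟩ := hind _ hWc hWF (hιs v)
      exact m.inj e ▸ hw
    exact ⟨htop ▸ hW⟩
  · obtain ⟨s, hs, hsA⟩ := SetLike.not_le_iff_exists.mp hsA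
    obtain ⟨W, hW, hWc, hWF⟩ := hpre ((F ×ˢ F).image fun t : G × G => ⁅t.1, t.2⁆) (by
      intro b hb
      obtain ⟨t, ht, rfl⟩ := Finset.mem_image.mp hb
      rw [Finset.mem_product] at ht
      exact comm_mem_of_scal hA (hFs _ ht.1) (hFs _ ht.2))
    have hnorm : ∀ g ∈ scal ρ, ∀ n ∈ m.img W, g * n * g⁻¹ ∈ m.img W := by
      rintro g ⟨c, hc⟩ _ ⟨w, hw, rfl⟩
      exact ⟨ρ g w, by rw [hc]; exact W.smul_mem _ hw, m.conj g w⟩
    have hstep : ∀ y : G, (∀ f ∈ F, ⁅f, y⁆ ∈ m.img W) → ∀ g ∈ scal ρ, ⁅g, y⁆ ∈ m.img W := by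
      intro y hy g hg
      let S : Subgroup G :=
        { carrier := {g | g ∈ scal ρ ∧ ⁅g, y⁆ ∈ m.img W}
          one_mem' := ⟨one_mem _, by simp⟩
          mul_mem' := by
            rintro a b ⟨ha, ha'⟩ ⟨hb, hb'⟩
            refine ⟨mul_mem ha hb, ?_⟩
            have : ⁅a * b, y⁆ = a * ⁅b, y⁆ * a⁻¹ * ⁅a, y⁆ := by
              simp only [commutatorElement_def]; group
            rw [this]
            exact mul_mem (hnorm a ha _ hb') ha'
          inv_mem' := by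
            rintro a ⟨ha, ha'⟩
            refine ⟨inv_mem ha, ?_⟩
            have : ⁅a⁻¹, y⁆ = a⁻¹ * ⁅a, y⁆⁻¹ * a⁻¹⁻¹ := by
              simp only [commutatorElement_def]; group
            rw [this]
            exact hnorm _ (inv_mem ha) _ (inv_mem ha') }
      have hS : IsClosed (S : Set G) :=
        (scal_closed m).inter (hWc.preimage (f := fun g : G => g * y * g⁻¹ * y⁻¹) (by fun_prop))
      exact (hind S hS (fun f hf => ⟨hFs f hf, hy f hf⟩) hg).2
    have hcomm : ∀ g ∈ scal ρ, ∀ y ∈ scal ρ, ⁅g, y⁆ ∈ m.img W := by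
      intro g hg y hy
      refine hstep y (fun f hf => ?_) g hg
      rw [← commutatorElement_inv]
      refine inv_mem (hstep f (fun f' hf' => hWF _ ?_) y hy)
      exact Finset.mem_image.mpr ⟨(f', f), Finset.mem_product.mpr ⟨hf', hf⟩, rfl⟩
    obtain ⟨β, hβ⟩ := id hs
    have hβ1 : (β : ℤ_[p]) - 1 ≠ 0 := by
      intro h1
      exact hsA (hA s fun v => by rw [hβ, sub_eq_zero.mp h1, one_smul])
    have hmem : ∀ v : V, ((β : ℤ_[p]) - 1) • v ∈ W := by
      intro v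
      obtain ⟨w, hw, e⟩ := hcomm s hs _ (hιs v)
      have e2 : ι (((β : ℤ_[p]) - 1) • v) = ⁅s, ι v⁆ := by
        rw [sub_smul, one_smul, m.sub, ← hβ, m.conj, commutatorElement_def]
      exact m.inj (e.trans e2.symm) ▸ hw
    have : Module.Finite ℤ_[p] W := Module.Finite.iff_fg.mpr hW
    refine Module.Finite.of_injective
      (LinearMap.codRestrict W (((β : ℤ_[p]) - 1) • LinearMap.id : V →ₗ[ℤ_[p]] V) hmem) ?_
    rw [injective_iff_map_eq_zero]
    intro v hv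
    exact (tfA m htf (congrArg Subtype.val hv)).resolve_left hβ1

theorem exists_coord' (m : Model A ι ρ) (htf : ∀ g ∈ A, IsOfFinOrder g → g = 1)
    [Module.Finite ℤ_[p] V] :
    ∃ (r : ℕ) (j : V →+ (Fin r → ℚ_[p])) (M : G → (Fin r → ℚ_[p]) →L[ℚ_[p]] (Fin r → ℚ_[p])),
      IsOpenEmbedding j ∧ (∀ (a : ℤ_[p]) (v : V), j (a • v) = (a : ℚ_[p]) • j v) ∧
      ∀ g v, j (ρ g v) = M g (j v) := by
  classical
  have := m.t2Space
  have : Module.IsTorsionFree ℤ_[p] V :=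
    Module.IsTorsionFree.of_smul_eq_zero fun a v h => tfA m htf h
  have : Module.Free ℤ_[p] V := Module.free_of_finite_type_torsion_free'
  let b := Module.finBasis ℤ_[p] V
  set r := Module.finrank ℤ_[p] V
  have hc : Continuous (b.equivFun.symm : (Fin r → ℤ_[p]) → V) := by
    have : (b.equivFun.symm : (Fin r → ℤ_[p]) → V) = fun c => ∑ i, c i • b i := by
      ext c; exact b.equivFun_symm_apply c
    rw [this]
    exact continuous_finsetSum _ fun i _ => (m.smul (b i)).comp (continuous_apply i)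
  let H : (Fin r → ℤ_[p]) ≃ₜ V := hc.homeoOfEquivCompactToT2 (f := b.equivFun.symm.toEquiv)
  let j : V →+ (Fin r → ℚ_[p]) :=
    { toFun := fun v i => (b.equivFun v i : ℚ_[p])
      map_zero' := by ext i; simp
      map_add' := fun v w => by ext i; simp }
  have hj : IsOpenEmbedding j := by
    have h1 : IsOpenEmbedding (Pi.map fun (_ : Fin r) (a : ℤ_[p]) => (a : ℚ_[p])) :=
      IsOpenEmbedding.piMap fun _ => PadicInt.isOpenEmbedding_coe
    exact h1.comp H.symm.isOpenEmbedding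
  refine ⟨r, j, fun g => LinearMap.toContinuousLinearMap
    (Matrix.toLin' ((LinearMap.toMatrix b b (ρ g)).map fun a : ℤ_[p] => (a : ℚ_[p]))), hj, ?_, ?_⟩
  · intro a v
    ext i
    simp [j]
  · intro g v
    ext i
    have h1 := congrFun (LinearMap.toMatrix_mulVec_repr b b (ρ g) v) i
    simp only [j, AddMonoidHom.coe_mk, ZeroHom.coe_mk, Module.Basis.equivFun_apply,
      LinearMap.coe_toContinuousLinearMap', Matrix.toLin'_apply]
    rw [← h1]
    simp [Matrix.mulVec, dotProduct]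

theorem lie_open' (m : Model A ι ρ) (htf : ∀ g ∈ A, IsOfFinOrder g → g = 1)
    [Module.Finite ℤ_[p] V] (hA : IsOpen (A : Set G)) :
    ∃ (n : ℕ) (_ : ChartedSpace (Fin n → ℚ_[p]) G),
      LieGroup 𝓘(ℚ_[p], Fin n → ℚ_[p]) ω G := by
  obtain ⟨n, j, M, hj, -, hM⟩ := exists_coord' m htf
  let r : G → G := fun g => (g : G ⧸ A).out
  have hr : ∀ g, (r g)⁻¹ * g ∈ A := fun g => QuotientGroup.eq.mp (QuotientGroup.out_eq' _)
  have hrr : ∀ g h, g⁻¹ * h ∈ A → r g = r h := fun g h e => by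
    show (g : G ⧸ A).out = (h : G ⧸ A).out
    rw [QuotientGroup.eq.mpr e]
  choose c hc using fun g => (m.mem _).mp (hr g)
  have hιA : ∀ v, ι v ∈ A := fun v => (m.mem _).mpr ⟨v, rfl⟩
  have hcadd : ∀ g v, c (g * ι v) = c g + v := by
    intro g v
    apply m.inj
    rw [m.add, hc, hc, ← hrr g (g * ι v) (by simpa using hιA v), mul_assoc]
  have hcr : ∀ g, c (r g) = 0 := by
    intro g
    apply m.inj
    rw [hc, hrr (r g) g (hr g), inv_mul_cancel, m.zero]
  have hdec : ∀ g, g = r g * ι (c g) := fun g => by rw [hc]; group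
  have hrange : Set.range ι = (A : Set G) := by
    ext g; exact (m.mem g).symm
  have hι : IsOpenEmbedding ι := ⟨m.emb.isEmbedding, hrange ▸ hA⟩
  have hloc : ∀ g : G, ∀ᶠ x in 𝓝 g, r x = r g := by
    intro g
    have : (fun x : G => g⁻¹ * x) ⁻¹' (A : Set G) ∈ 𝓝 g :=
      (hA.preimage (by fun_prop)).mem_nhds (by simp)
    filter_upwards [this] with x hx
    exact (hrr g x hx).symm
  refine ⟨n, lie_of_local (fun g => j (c g)) ?_ ?_ ?_⟩
  · refine isLocalHomeomorph_of_param (Z := V) _ fun g => ⟨fun v => r g * ι v,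
      (Homeomorph.mulLeft (r g)).isOpenEmbedding.comp hι, ⟨c g, (hdec g).symm⟩, ?_⟩
    have : (fun g => j (c g)) ∘ (fun v => r g * ι v) = j := by
      ext1 v
      show j (c (r g * ι v)) = j v
      rw [hcadd, hcr, zero_add]
    rw [this]; exact hj
  · intro g h
    refine ⟨fun t => j (c (r g * r h)) + (M (r h)⁻¹ t.1 + t.2), by fun_prop, ?_⟩
    filter_upwards [(continuous_fst.tendsto (g, h)).eventually (hloc g),
      (continuous_snd.tendsto (g, h)).eventually (hloc h)] with x h1 h2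
    rw [← hM, ← map_add, ← map_add, ← hcadd]
    congr 2
    rw [m.add, m.conj]
    conv_lhs => rw [hdec x.1, hdec x.2, h1, h2]
    group
  · intro g
    refine ⟨fun t => j (c (r g)⁻¹) - M (r g) t, by fun_prop, ?_⟩
    filter_upwards [hloc g] with x h1
    rw [← hM, ← map_sub, sub_eq_add_neg, ← hcadd]
    congr 2
    rw [m.neg, m.conj]
    conv_lhs => rw [hdec x, h1]
    group

/-- either `A` is open or some element acts as a scalar `β ≠ 1` with `β ≡ 1 mod p ^ 2` -/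
theorem open_or_scalar (m : Model A ι ρ) (htf : ∀ g ∈ A, IsOfFinOrder g → g = 1)
    (hA : ∀ g, (∀ v, ρ g v = v) → g ∈ A) (hS : IsOpen (scal ρ : Set G)) :
    IsOpen (A : Set G) ∨ (Nontrivial V ∧ ∃ (s : G) (β : ℤ_[p]), (p : ℤ_[p]) ^ 2 ∣ β - 1 ∧ β ≠ 1 ∧
      ∀ v, ρ s v = β • v) := by
  have := m.t2Space
  rcases subsingleton_or_nontrivial V with hV | hV
  · left
    have : (A : Set G) = Set.univ :=
      Set.eq_univ_of_forall fun g => hA g fun v => Subsingleton.elim _ _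
    rw [this]; exact isOpen_univ
  by_cases hex : ∃ (s : G) (β : ℤ_[p]), (p : ℤ_[p]) ^ 2 ∣ β - 1 ∧ β ≠ 1 ∧ ∀ v, ρ s v = β • v
  · exact Or.inr ⟨hV, hex⟩
  left
  obtain ⟨v₀, hv₀⟩ := exists_ne (0 : V)
  have hp : (0 : ℝ) < (p : ℝ) ^ (-(2 : ℕ) : ℤ) :=
    zpow_pos (by exact_mod_cast (Fact.out : p.Prime).pos) _
  let B : Set ℤ_[p] := {a | (p : ℝ) ^ (-(2 : ℕ) : ℤ) ≤ ‖a - 1‖}
  have hB : IsClosed B := isClosed_le continuous_const (by fun_prop)
  have hBv : IsClosed ((fun a : ℤ_[p] => a • v₀) '' B) := (hB.isCompact.image (m.smul v₀)).isClosed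
  have hU : (fun g : G => ρ g v₀) ⁻¹' ((fun a : ℤ_[p] => a • v₀) '' B)ᶜ ∈ 𝓝 (1 : G) := by
    refine (hBv.isOpen_compl.preimage (m.cont_rho' v₀)).mem_nhds ?_
    rintro ⟨a, ha, e⟩
    have e' : (a - 1) • v₀ = 0 := by
      rw [sub_smul, one_smul, sub_eq_zero]; simpa using e
    have h0 : a - 1 = 0 := (tfA m htf e').resolve_right hv₀
    have ha' : (p : ℝ) ^ (-(2 : ℕ) : ℤ) ≤ ‖a - 1‖ := ha
    rw [h0, norm_zero] at ha'
    exact absurd hp (not_lt.mpr ha')
  refine Subgroup.isOpen_of_mem_nhds A (g := 1) ?_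
  filter_upwards [hU, hS.mem_nhds (one_mem (scal ρ))] with g hg hgs
  obtain ⟨c, hc⟩ := hgs
  have h1 : ‖(c : ℤ_[p]) - 1‖ ≤ (p : ℝ) ^ (-(2 : ℕ) : ℤ) := by
    by_contra h
    exact hg ⟨c, (not_le.mp h).le, (hc v₀).symm⟩
  rw [PadicInt.norm_le_pow_iff_mem_span_pow, Ideal.mem_span_singleton] at h1
  have h2 : (c : ℤ_[p]) = 1 := by
    by_contra h
    exact hex ⟨g, c, h1, h, hc⟩
  exact hA g fun v => by rw [hc, h2, one_smul]

theorem lie_scalar' (m : Model A ι ρ) (htf : ∀ g ∈ A, IsOfFinOrder g → g = 1)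
    [Module.Finite ℤ_[p] V] (hA : ∀ g, (∀ v, ρ g v = v) → g ∈ A) (hS : IsOpen (scal ρ : Set G))
    [Nontrivial V] (s : G) (β : ℤ_[p]) (h1 : (p : ℤ_[p]) ^ 2 ∣ β - 1) (h2 : β ≠ 1)
    (hs : ∀ v, ρ s v = β • v) :
    ∃ (n : ℕ) (_ : ChartedSpace (Fin n → ℚ_[p]) G),
      LieGroup 𝓘(ℚ_[p], Fin n → ℚ_[p]) ω G := by
  have := m.t2Space
  have hSn := scal_normal ρ
  have hSc := scal_closed m
  obtain ⟨n, j, M, hj, hjs, hM⟩ := exists_coord' m htf
  obtain ⟨v₀, hv₀⟩ := exists_ne (0 : V)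
  have hcancel : ∀ (g : G) (a b : ℤ_[p]), a • ρ g v₀ = b • ρ g v₀ → a = b := by
    intro g a b h
    have h3 : (a - b) • ρ g v₀ = 0 := by rw [sub_smul, h, sub_self]
    refine sub_eq_zero.mp ((tfA m htf h3).resolve_right fun h4 => hv₀ ?_)
    rw [← rho_inv_left ρ g v₀, h4, map_zero]
  -- the cocycle
  have hcA : ∀ g : G, ∃ v, ι v = ⁅g, s⁆ := by
    intro g
    refine (m.mem _).mp (hA _ fun v => ?_)
    rw [commutatorElement_def, rho_mul, rho_mul, rho_mul, hs, map_smul, rho_inv_right, ← hs,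
      rho_inv_right]
  choose c hc using hcA
  have hcmul : ∀ g h, c (g * h) = c g + ρ g (c h) := by
    intro g h
    apply m.inj
    rw [add_comm, m.add, m.conj, hc, hc, hc]
    simp only [commutatorElement_def]; group
  have hc1 : c 1 = 0 := by
    apply m.inj; rw [hc, m.zero]; simp
  have hcι : ∀ a, c (ι a) = (1 - β) • a := by
    intro a
    apply m.inj
    rw [hc, sub_smul, one_smul, m.sub, ← hs, m.conj, commutatorElement_def]; group
  have hcc : Continuous c := by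
    rw [m.emb.isInducing.continuous_iff]
    have : ι ∘ c = fun g => g * s * g⁻¹ * s⁻¹ := by ext g; exact hc g
    rw [this]; fun_prop
  have hβ0 : 1 - β ≠ 0 := sub_ne_zero.mpr h2.symm
  -- coset representatives and scalars
  let r : G → G := fun g => (g : G ⧸ scal ρ).out
  have hr : ∀ g, (r g)⁻¹ * g ∈ scal ρ := fun g => QuotientGroup.eq.mp (QuotientGroup.out_eq' _)
  have hrq : ∀ g, ((r g : G) : G ⧸ scal ρ) = g := fun g => QuotientGroup.out_eq' _
  have hrr : ∀ g h : G, (g : G ⧸ scal ρ) = h → r g = r h := fun g h e => by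
    show (g : G ⧸ scal ρ).out = (h : G ⧸ scal ρ).out
    rw [e]
  have hτex : ∀ g : G, ∃ t : ℤ_[p]ˣ, ∀ v, ρ g v = (t : ℤ_[p]) • ρ (r g) v := by
    intro g
    obtain ⟨t, ht⟩ := hr g
    refine ⟨t, fun v => ?_⟩
    rw [← map_smul, ← ht, ← rho_mul, mul_inv_cancel_left]
  choose τ hτ using hτex
  have hτu : ∀ (g : G) (a : ℤ_[p]), ρ g v₀ = a • ρ (r g) v₀ → (τ g : ℤ_[p]) = a :=
    fun g a h => hcancel (r g) _ _ ((hτ g v₀).symm.trans h)
  have hτ0 : ∀ g, (((τ g : ℤ_[p])) : ℚ_[p]) ≠ 0 := fun g =>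
    PadicInt.coe_ne_zero.mpr (τ g).ne_zero
  have hιs : ∀ v : V, ι v ∈ scal ρ := fun v => ⟨1, fun w => by rw [m.rho_iota]; simp⟩
  have hq1 : ∀ k ∈ scal ρ, (k : G ⧸ scal ρ) = 1 := fun k hk => (QuotientGroup.eq_one_iff k).mpr hk
  have hloc : ∀ g : G, ∀ᶠ x in 𝓝 g, r x = r g := by
    intro g
    have : (fun x : G => g⁻¹ * x) ⁻¹' (scal ρ : Set G) ∈ 𝓝 g :=
      (hS.preimage (by fun_prop)).mem_nhds (by simp)
    filter_upwards [this] with x hx
    exact (hrr g x (QuotientGroup.eq.mpr hx)).symm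
  have hτc : Continuous fun g => (τ g : ℤ_[p]) := by
    rw [continuous_iff_continuousAt]
    intro g
    have hemb : IsClosedEmbedding fun a : ℤ_[p] => a • ρ (r g) v₀ :=
      (m.smul _).isClosedEmbedding fun a b h => hcancel _ a b h
    rw [ContinuousAt, hemb.isInducing.tendsto_nhds_iff, ← hτ g v₀]
    refine ((m.cont_rho' v₀).tendsto g).congr' ?_
    filter_upwards [hloc g] with x hx
    show ρ x v₀ = (τ x : ℤ_[p]) • ρ (r g) v₀
    rw [hτ x, hx]
  let e : G → (Fin n → ℚ_[p]) × ℚ_[p] := fun g => (j (c g), ((τ g : ℤ_[p]) : ℚ_[p]))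
  have hec : Continuous e :=
    (hj.continuous.comp hcc).prodMk (PadicInt.isOpenEmbedding_coe.continuous.comp hτc)
  -- the closure of the powers of `s`
  have hsS : s ∈ scal ρ := by
    have hu : IsUnit β := by
      rw [PadicInt.isUnit_iff]
      obtain ⟨b, hb⟩ := h1
      have hlt : ‖β - 1‖ < 1 := by
        rw [PadicInt.norm_lt_one_iff_dvd, hb]
        exact (dvd_pow_self _ two_ne_zero).mul_right b
      have := PadicInt.norm_add_eq_max_of_ne (q := β - 1) (r := 1) (by rw [norm_one]; exact hlt.ne)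
      rw [sub_add_cancel, norm_one, max_eq_right hlt.le] at this
      exact this
    obtain ⟨u, rfl⟩ := hu
    exact ⟨u, hs⟩
  let X : Set G := {k | k ∈ scal ρ ∧ c k = 0}
  have hXc : IsClosed X := hSc.inter (isClosed_eq hcc continuous_const)
  let Q : Set ℤ_[p] := Prod.fst '' {t : ℤ_[p] × G | t.2 ∈ X ∧ ρ t.2 v₀ = t.1 • v₀}
  have hQc : IsClosed Q :=
    (((hXc.preimage continuous_snd).inter (isClosed_eq ((m.cont_rho' v₀).comp continuous_snd)
      ((m.smul v₀).comp continuous_fst))).isCompact.image continuous_fst).isClosed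
  have hQ : Q ∈ 𝓝 (1 : ℤ_[p]) := by
    refine nhds_one_of_pow h1 h2 hQc fun k => ⟨(β ^ k, s ^ k), ⟨⟨pow_mem hsS k, ?_⟩, ?_⟩, rfl⟩
    · apply m.inj
      rw [hc, m.zero, commutatorElement_eq_one_iff_commute]
      exact (Commute.refl s).pow_left k
    · show ρ (s ^ k) v₀ = β ^ k • v₀
      induction k with
      | zero => simp
      | succ k ih => rw [pow_succ', rho_mul, ih, hs, pow_succ', mul_smul]
  have : CompactSpace (scal ρ) := isCompact_iff_compactSpace.mp hSc.isCompact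
  refine lie_of_local' e ?_ ?_ ?_
  · refine isLocalHomeomorph_of_param (Z := scal ρ) _ fun g => ⟨fun k => r g * k,
      (Homeomorph.mulLeft (r g)).isOpenEmbedding.comp hS.isOpenEmbedding_subtypeVal,
      ⟨⟨_, hr g⟩, mul_inv_cancel_left _ _⟩, ?_⟩
    have hrk : ∀ k ∈ scal ρ, r (r g * k) = r g := fun k hk =>
      hrr _ _ (by rw [QuotientGroup.mk_mul, hq1 k hk, mul_one, hrq])
    have hinj : Function.Injective (e ∘ fun k : scal ρ => r g * (k : G)) := by
      intro k l hkl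
      have e1 : c (r g * k) = c (r g * l) := hj.injective (congrArg Prod.fst hkl)
      have e2 : (τ (r g * k) : ℤ_[p]) = τ (r g * l) := Subtype.ext (congrArg Prod.snd hkl)
      have e3 : ∀ v, ρ (r g * k) v = ρ (r g * l) v := fun v => by
        rw [hτ (r g * k), hτ (r g * l), hrk k k.2, hrk l l.2, e2]
      have e4 : (r g * k)⁻¹ * (r g * l) ∈ A := hA _ fun v => by
        rw [rho_mul, ← e3, rho_inv_left]
      obtain ⟨a, ha⟩ := (m.mem _).mp e4
      have e5 : r g * l = r g * k * ι a := by rw [ha, mul_inv_cancel_left]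
      rw [e5, hcmul (r g * k), left_eq_add, hcι] at e1
      have e6 : (1 - β) • a = 0 := by rw [← rho_inv_left ρ (r g * k) ((1 - β) • a), e1, map_zero]
      rw [(tfA m htf e6).resolve_left hβ0, m.zero, mul_one] at e5
      exact Subtype.ext (mul_left_cancel e5).symm
    refine ⟨((hec.comp (by fun_prop)).isClosedEmbedding hinj).isEmbedding, ?_⟩
    rw [isOpen_iff_mem_nhds]
    rintro _ ⟨k, rfl⟩
    set x := r g * (k : G) with hx
    have hβq : ((1 - β : ℤ_[p]) : ℚ_[p]) ≠ 0 := PadicInt.coe_ne_zero.mpr hβ0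
    have hN1 : (fun u : Fin n → ℚ_[p] => ((1 - β : ℤ_[p]) : ℚ_[p])⁻¹ • (u - j (c x))) ⁻¹'
        Set.range j ∈ 𝓝 (j (c x)) :=
      (hj.isOpen_range.preimage (by fun_prop)).mem_nhds ⟨0, by simp⟩
    have hN2 : (fun t : ℚ_[p] => (((τ x : ℤ_[p])) : ℚ_[p])⁻¹ * t) ⁻¹'
        ((fun a : ℤ_[p] => (a : ℚ_[p])) '' Q) ∈ 𝓝 (((τ x : ℤ_[p])) : ℚ_[p]) := by
      refine ContinuousAt.preimage_mem_nhds (by fun_prop) ?_
      rw [inv_mul_cancel₀ (hτ0 x)]
      exact PadicInt.isOpenEmbedding_coe.isOpenMap.image_mem_nhds hQ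
    refine mem_of_superset (prod_mem_nhds hN1 hN2) ?_
    rintro ⟨u, t⟩ ⟨⟨a, ha⟩, ⟨_, ⟨⟨b, l⟩, ⟨⟨hl, hl0⟩, hb⟩, rfl⟩, ht⟩⟩
    have hy : (r g)⁻¹ * ι a * r g * k * l ∈ scal ρ := by
      refine mul_mem (mul_mem ?_ k.2) hl
      simpa using hSn.conj_mem _ (hιs a) (r g)⁻¹
    have hy2 : r g * ((r g)⁻¹ * ι a * r g * k * l) = ι a * (x * l) := by rw [hx]; group
    refine ⟨⟨_, hy⟩, ?_⟩
    show e (r g * ((r g)⁻¹ * ι a * r g * k * l)) = (u, t)
    have hr2 := hrk _ hy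
    rw [hy2] at hr2 ⊢
    have hl0' : c l = 0 := hl0
    have hb' : ρ l v₀ = b • v₀ := hb
    have ha' : j a = ((1 - β : ℤ_[p]) : ℚ_[p])⁻¹ • (u - j (c x)) := ha
    have ht' : (b : ℚ_[p]) = (((τ x : ℤ_[p])) : ℚ_[p])⁻¹ * t := ht
    refine Prod.ext ?_ ?_
    · show j (c (ι a * (x * l))) = u
      rw [hcmul, m.rho_iota, hcmul, hl0', map_zero, add_zero, hcι, map_add, hjs, ha',
        smul_inv_smul₀ hβq, sub_add_cancel]
    · show (((τ (ι a * (x * l)) : ℤ_[p])) : ℚ_[p]) = t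
      rw [hτu (ι a * (x * l)) (τ x * b) (by
        rw [rho_mul, m.rho_iota, rho_mul, hb', map_smul, hτ x, hr2, hrk k k.2, mul_comm, mul_smul]),
        PadicInt.coe_mul, ht', mul_inv_cancel_left₀ (hτ0 x)]
  · intro g h
    refine ⟨fun t => (t.1.1 + t.1.2 • M (r g) t.2.1,
      ((τ (r g * r h) : ℤ_[p]) : ℚ_[p]) * (t.1.2 * t.2.2)), by fun_prop, ?_⟩
    filter_upwards [(continuous_fst.tendsto (g, h)).eventually (hloc g),
      (continuous_snd.tendsto (g, h)).eventually (hloc h)] with x e1 e2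
    refine Prod.ext ?_ ?_
    · show j (c (x.1 * x.2)) = j (c x.1) + ((τ x.1 : ℤ_[p]) : ℚ_[p]) • M (r g) (j (c x.2))
      rw [hcmul, map_add, hτ x.1, hjs, hM, e1]
    · show ((τ (x.1 * x.2) : ℤ_[p]) : ℚ_[p]) = ((τ (r g * r h) : ℤ_[p]) : ℚ_[p]) *
        (((τ x.1 : ℤ_[p]) : ℚ_[p]) * ((τ x.2 : ℤ_[p]) : ℚ_[p]))
      have e3 : r (x.1 * x.2) = r (r g * r h) :=
        hrr _ _ (by rw [← e1, ← e2, QuotientGroup.mk_mul, QuotientGroup.mk_mul, hrq, hrq])
      rw [hτu (x.1 * x.2) (τ (r g * r h) * (τ x.1 * τ x.2)) (by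
        rw [rho_mul, hτ x.1, hτ x.2, e1, e2, map_smul, ← rho_mul, hτ (r g * r h), e3, smul_smul,
          smul_smul, mul_comm]), PadicInt.coe_mul, PadicInt.coe_mul]
  · intro g
    have hd : ContDiffAt ℚ_[p] ω (fun t : (Fin n → ℚ_[p]) × ℚ_[p] => t.2⁻¹) (e g) :=
      contDiffAt_snd.inv (hτ0 g)
    refine ⟨fun t => (-(t.2⁻¹ • M (r g)⁻¹ t.1), ((τ (r g)⁻¹ : ℤ_[p]) : ℚ_[p]) * t.2⁻¹),
      ((hd.smul (by fun_prop)).neg).prodMk (contDiffAt_const.mul hd), ?_⟩
    filter_upwards [hloc g] with x e1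
    have e2 : ∀ w, (τ x : ℤ_[p]) • ρ x⁻¹ w = ρ (r g)⁻¹ w := by
      intro w
      conv_lhs => rw [← rho_inv_right ρ (r g) w, ← map_smul, ← e1, ← hτ x, rho_inv_left, e1]
    refine Prod.ext ?_ ?_
    · show j (c x⁻¹) = -(((τ x : ℤ_[p]) : ℚ_[p])⁻¹ • M (r g)⁻¹ (j (c x)))
      have e3 : c x⁻¹ = -ρ x⁻¹ (c x) := by
        rw [eq_neg_iff_add_eq_zero, ← hcmul, inv_mul_cancel, hc1]
      rw [e3, map_neg, ← hM, ← e2, hjs, inv_smul_smul₀ (hτ0 x)]
    · show ((τ x⁻¹ : ℤ_[p]) : ℚ_[p]) = ((τ (r g)⁻¹ : ℤ_[p]) : ℚ_[p]) * ((τ x : ℤ_[p]) : ℚ_[p])⁻¹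
      have e3 : r x⁻¹ = r (r g)⁻¹ :=
        hrr _ _ (by rw [← e1, QuotientGroup.mk_inv, QuotientGroup.mk_inv, hrq])
      have e4 : (τ x : ℤ_[p]) * τ x⁻¹ = τ (r g)⁻¹ := by
        apply hcancel (r x⁻¹)
        rw [mul_smul, ← hτ x⁻¹, e2, hτ (r g)⁻¹, e3]
      rw [eq_mul_inv_iff_mul_eq₀ (hτ0 x), ← e4, PadicInt.coe_mul, mul_comm]

theorem lie_of_scal (m : Model A ι ρ) (htf : ∀ g ∈ A, IsOfFinOrder g → g = 1)
    [Module.Finite ℤ_[p] V] (hA : ∀ g, (∀ v, ρ g v = v) → g ∈ A) (hS : IsOpen (scal ρ : Set G)) :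
    ∃ (n : ℕ) (_ : ChartedSpace (Fin n → ℚ_[p]) G),
      LieGroup 𝓘(ℚ_[p], Fin n → ℚ_[p]) ω G := by
  rcases open_or_scalar m htf hA hS with h | ⟨_, s, β, h1, h2, hs⟩
  exacts [lie_open' m htf h, lie_scalar' m htf hA hS s β h1 h2 hs]

end Pool.Agent.Lib.MP_2dbb30_al.LL.PT
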