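import Pool.Agent.Lib.MP_2dbb30_al.TF.Main
import Pool.Agent.Lib.MP_2dbb30_al.LL.Port3

set_option autoImplicit false
set_option linter.unusedSectionVars false

open Topology Filter
open scoped commutatorElement Manifold ContDiff

namespace Pool.Agent.Lib.MP_2dbb30_al.LL

open Pool.Agent.Lib.MP_2dbb30_al.TF

variable {p : ℕ} [Fact p.Prime] {G : Type*} [Group G] [TopologicalSpace G] [IsTopologicalGroup G]
  [CompactSpace G] [T2Space G] [TotallyDisconnectedSpace G]

/-- abelian normal subgroups -/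
def AbN (B : Subgroup G) : Prop := B.Normal ∧ ∀ a ∈ B, ∀ b ∈ B, a * b = b * a

theorem exists_maxA : ∃ A : Subgroup G, Maximal AbN A ∧ IsClosed (A : Set G) := by
  obtain ⟨A, hA⟩ : ∃ A : Subgroup G, Maximal AbN A := by
    refine zorn_le₀ {B : Subgroup G | AbN B} ?_
    intro c hc hch
    rcases c.eq_empty_or_nonempty with rfl | hne
    · exact ⟨⊥, ⟨inferInstance, by simp⟩, by simp⟩
    have hdir : DirectedOn (· ≤ ·) c := hch.directedOn
    refine ⟨sSup c, ⟨⟨fun n hn g => ?_⟩, fun a ha b hb => ?_⟩, fun z hz => le_sSup hz⟩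
    · obtain ⟨B, hB, hnB⟩ := (Subgroup.mem_sSup_of_directedOn hne hdir).mp hn
      exact (le_sSup hB : B ≤ sSup c) ((hc hB).1.conj_mem n hnB g)
    · obtain ⟨B, hB, haB⟩ := (Subgroup.mem_sSup_of_directedOn hne hdir).mp ha
      obtain ⟨B', hB', hbB⟩ := (Subgroup.mem_sSup_of_directedOn hne hdir).mp hb
      obtain ⟨E, hE, h1, h2⟩ := hdir B hB B' hB'
      exact (hc hE).2 a (h1 haB) b (h2 hbB)
  have hn := hA.1.1
  have h1 : ∀ a ∈ A, ∀ b ∈ A.topologicalClosure, a * b = b * a := by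
    intro a ha b hb
    have := Subgroup.topologicalClosure_minimal A (t := Subgroup.centralizer {a})
      (fun c hc => Subgroup.mem_centralizer_iff.mpr (by rintro _ rfl; exact hA.1.2 _ ha _ hc))
      (isClosed_centralizer' _) hb
    exact Subgroup.mem_centralizer_iff.mp this a rfl
  have h2 : ∀ a ∈ A.topologicalClosure, ∀ b ∈ A.topologicalClosure, a * b = b * a := by
    intro a ha b hb
    have := Subgroup.topologicalClosure_minimal A (t := Subgroup.centralizer {b})
      (fun c hc => Subgroup.mem_centralizer_iff.mpr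
        (by rintro _ rfl; exact (h1 _ hc _ hb).symm))
      (isClosed_centralizer' _) ha
    exact (Subgroup.mem_centralizer_iff.mp this b rfl).symm
  have h3 : A.topologicalClosure ≤ A :=
    hA.2 ⟨Subgroup.is_normal_topologicalClosure A, h2⟩ (Subgroup.le_topologicalClosure A)
  refine ⟨A, hA, ?_⟩
  rw [← le_antisymm h3 (Subgroup.le_topologicalClosure A)]
  exact Subgroup.isClosed_topologicalClosure A

/-- S2: port of `TF.main` with torsion-freeness only for the maximal abelian normal subgroup -/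
theorem analytic_of_tf [Group.IsSolvable G] (hG : ProP p G)
    (hfg : ∃ T : Finset G, (Subgroup.closure (T : Set G)).topologicalClosure = ⊤)
    (hve : HVE p G) {A : Subgroup G} (hA : Maximal AbN A) (hc : IsClosed (A : Set G))
    (htf : ∀ g ∈ A, IsOfFinOrder g → g = 1) :
    ∃ (n : ℕ) (_ : ChartedSpace (Fin n → ℚ_[p]) G),
      LieGroup 𝓘(ℚ_[p], Fin n → ℚ_[p]) ω G := by
  have hZ := PT.self_cent hve hA hc htf
  obtain ⟨V, _, _, _, _, ι, ρ, m⟩ := exists_model hG A hA.1.1 hc hA.1.2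
  have hA' : ∀ g, (∀ v, ρ g v = v) → g ∈ A := by
    intro g hg
    rw [hZ]
    intro a ha
    obtain ⟨v, rfl⟩ := (m.mem a).1 ha
    have := m.conj g v
    rw [hg] at this
    rw [← mul_inv_eq_iff_eq_mul, ← this]
  have hS : IsOpen (scal ρ : Set G) := scal_open m hG hfg fun x => by
    obtain ⟨n, c, hc⟩ := PT.scalar_pow m hG htf x (PT.line_pow m hG htf hve x)
    exact ⟨n, c, hc⟩
  have := PT.finite_V m hG htf hfg hA' hS
  exact PT.lie_of_scal m htf hA' hS

theorem analytic_of_torsion [Group.IsSolvable G] (hG : ProP p G)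
    (hfg : ∃ T : Finset G, (Subgroup.closure (T : Set G)).topologicalClosure = ⊤)
    (htor : ∀ g : G, IsOfFinOrder g) :
    ∃ (n : ℕ) (_ : ChartedSpace (Fin n → ℚ_[p]) G),
      LieGroup 𝓘(ℚ_[p], Fin n → ℚ_[p]) ω G := by
  have hc : IsClosed ((⊥ : Subgroup G) : Set G) := by
    rw [Subgroup.coe_bot]; exact isClosed_singleton
  have hfi : (⊥ : Subgroup G).FiniteIndex := finiteIndex_of_pow_mem ⊥ hc hfg fun x => by
    obtain ⟨n, hn, hx⟩ := isOfFinOrder_iff_pow_eq_one.mp (htor x)
    exact ⟨n, hn, Subgroup.mem_bot.mpr hx⟩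
  have ho : IsOpen ((⊥ : Subgroup G) : Set G) := Subgroup.isOpen_of_isClosed_of_finiteIndex _ hc
  obtain ⟨V, _, _, _, _, ι, ρ, m⟩ := exists_model hG (⊥ : Subgroup G) inferInstance hc (by simp)
  have hV : Subsingleton V := ⟨fun v w => m.inj (by
    rw [Subgroup.mem_bot.mp ((m.mem _).2 ⟨v, rfl⟩), Subgroup.mem_bot.mp ((m.mem _).2 ⟨w, rfl⟩)])⟩
  have : Module.Finite ℤ_[p] V := Module.Finite.of_finite
  exact PT.lie_open' m (fun g hg _ => Subgroup.mem_bot.mp hg) ho

end Pool.Agent.Lib.MP_2dbb30_al.LL
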