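import Pool.Agent.Lib.MP_2dbb30_al.LL.StructB
import Pool.Agent.Lib.MP_2dbb30_al.LL.Param
import Pool.Agent.Lib.MP_2dbb30_al.LL.Port
import Pool.Agent.Lib.MP_2dbb30_al.LL.If

set_option autoImplicit false
set_option linter.unusedSectionVars false

open Topology Filter
open scoped commutatorElement Manifold ContDiff

namespace Pool.Agent.Lib.MP_2dbb30_al.LL

open Pool.Agent.Lib.MP_2dbb30_al.TF

variable {p : ℕ} [Fact p.Prime] {G : Type*} [Group G] [TopologicalSpace G] [IsTopologicalGroup G]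
  [CompactSpace G] [T2Space G] [TotallyDisconnectedSpace G]

theorem only_if [Group.IsSolvable G] (hG : ProP p G)
    (hfg : ∃ T : Finset G, (Subgroup.closure (T : Set G)).topologicalClosure = ⊤)
    (hve : HVE p G) (h3 : HVE3 p G)
    (hna : ¬ ∃ (n : ℕ) (_ : ChartedSpace (Fin n → ℚ_[p]) G),
      LieGroup 𝓘(ℚ_[p], Fin n → ℚ_[p]) ω G) : ∃ k : ℕ, 0 < k ∧ Lamp p k G := by
  obtain ⟨A, hA, hAc⟩ := exists_maxA (G := G)
  have hAn : A.Normal := hA.1.1
  obtain ⟨x₀, hx₀⟩ : ∃ x₀ : G, ¬ IsOfFinOrder x₀ := by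
    by_contra h
    push Not at h
    exact hna (analytic_of_torsion hG hfg h)
  obtain ⟨c, hcA, hcf, hc1⟩ : ∃ c ∈ A, IsOfFinOrder c ∧ c ≠ 1 := by
    by_contra h
    push Not at h
    exact hna (analytic_of_tf hG hfg hve hA hAc h)
  have hZp : ∀ g ∈ Subgroup.centralizer (A : Set G), g ^ p = 1 := fun g hg => by
    by_contra h
    exact hc1 (eq_one_of_commute hG hve (pow_p hG hve hcf) (fun h' => h (pow_p hG hve h'))
      (Subgroup.mem_centralizer_iff.1 hg c hcA))
  have hZn : (Subgroup.centralizer (A : Set G)).Normal := inferInstance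
  have hAZ : A ≤ Subgroup.centralizer (A : Set G) :=
    fun a ha => Subgroup.mem_centralizer_iff.2 fun b hb => hA.1.2 b hb a ha
  have hZA : Subgroup.centralizer (A : Set G) ≤ A :=
    hA.2 ⟨hZn, abelian_of_exp hG hve h3 (isClosed_centralizer' _) hZp hx₀
      fun n hn => hZn.conj_mem n hn x₀⟩ hAZ
  have hAp : ∀ a ∈ A, a ^ p = 1 := fun a ha => hZp a (hAZ ha)
  have hA1 : A ≠ ⊥ := fun h => hc1 (by rwa [h, Subgroup.mem_bot] at hcA)
  obtain ⟨x, hx, hdec⟩ := struct hG hve h3 hAn hAc hAp hA1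
    (fun g => ⟨fun hg a ha => hA.1.2 g hg a ha,
      fun h => hZA (Subgroup.mem_centralizer_iff.2 fun a ha => (h a ha).symm)⟩) hx₀
  exact param hG hfg hAn hAc hAp hA1 hA.1.2 hx
    (fun a ha h => eq_one_of_commute hG hve (hAp a ha) hx h) hdec

theorem main [Group.IsSolvable G] (hG : ProP p G)
    (hfg : ∃ T : Finset G, (Subgroup.closure (T : Set G)).topologicalClosure = ⊤) :
    ((∀ L : Subgroup G, L ≠ ⊥ →
      (∃ F : Finset G, (Subgroup.closure (F : Set G)).topologicalClosure = L) → SelfSimilar p L) ∧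
    ¬ ∃ (n : ℕ) (_ : ChartedSpace (Fin n → ℚ_[p]) G),
      LieGroup 𝓘(ℚ_[p], Fin n → ℚ_[p]) ω G) ↔ ∃ k : ℕ, 0 < k ∧ Lamp p k G := by
  classical
  refine ⟨fun ⟨hss, hna⟩ => ?_,
    fun ⟨k, hk, h⟩ => ⟨fun L h1 h2 => lamp_ss hG hk h L h1 h2, lamp_not_analytic hk h⟩⟩
  have key : ∀ F : Finset G, ∀ a ∈ F, a ≠ 1 →
      VE p (Subgroup.closure (F : Set G)).topologicalClosure := fun F a ha h1 => by
    refine ve_of_selfSimilar hG _ (Subgroup.isClosed_topologicalClosure _)
      (hss _ (fun h => h1 ?_) ⟨F, rfl⟩)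
    have : a ∈ (Subgroup.closure (F : Set G)).topologicalClosure :=
      Subgroup.le_topologicalClosure _ (Subgroup.subset_closure ha)
    rwa [h, Subgroup.mem_bot] at this
  refine only_if hG hfg (fun a b ha => ?_) (fun a b c ha => ?_) hna
  · simpa using key {a, b} a (by simp) ha
  · simpa using key {a, b, c} a (by simp) ha

end Pool.Agent.Lib.MP_2dbb30_al.LL
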