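import Mathlib

set_option autoImplicit false

open scoped PowerSeries.WithPiTopology

namespace Pool.Agent.Lib.MP_2dbb30_al.LL

/-- `G` is the pro-`p` lamplighter group `𝔽_p[[X]]^k ⋊ ℤ_p`: it is topologically generated by a
continuously embedded copy of the additive group `𝔽_p[[X]]^k` and an element `y` which conjugates
this copy by multiplication with `1 + X`. -/
def Lamp (p k : ℕ) (G : Type*) [Group G] [TopologicalSpace G] [IsTopologicalGroup G] : Prop :=
  ∃ (j : Multiplicative (Fin k → PowerSeries (ZMod p)) →* G) (y : G),
    Continuous j ∧ Function.Injective j ∧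
    (∀ v, y * j (Multiplicative.ofAdd v) * y⁻¹ =
      j (Multiplicative.ofAdd fun i => (1 + PowerSeries.X) * v i)) ∧
    (j.range ⊔ Subgroup.zpowers y).topologicalClosure = ⊤

end Pool.Agent.Lib.MP_2dbb30_al.LL
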