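import Pool.Agent.Lib.MP_2dbb30_al.TF.KL

set_option autoImplicit false
set_option linter.unusedSectionVars false

open scoped commutatorElement IsMulCommutative

namespace Pool.Agent.Lib.MP_2dbb30_al.LL

open Pool.Agent.Lib.MP_2dbb30_al.TF

/-- two vectors parallel to a nonzero vector are parallel -/
theorem f3_cross {F : Type*} [Field F] {a b e a1 b1 e1 a2 b2 e2 : F}
    (h1 : a * b1 - a1 * b = 0) (h2 : a * e1 - a1 * e = 0) (h3 : b * e1 - b1 * e = 0)
    (k1 : a * b2 - a2 * b = 0) (k2 : a * e2 - a2 * e = 0) (k3 : b * e2 - b2 * e = 0)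
    (hne : ¬ (a = 0 ∧ b = 0 ∧ e = 0)) :
    a1 * b2 - a2 * b1 = 0 ∧ a1 * e2 - a2 * e1 = 0 ∧ b1 * e2 - b2 * e1 = 0 := by
  by_cases ha : a = 0
  · by_cases hb : b = 0
    · have he : e ≠ 0 := fun he => hne ⟨ha, hb, he⟩
      refine ⟨mul_left_cancel₀ he ?_, mul_left_cancel₀ he ?_, mul_left_cancel₀ he ?_⟩
      · linear_combination (-b2) * h2 + b1 * k2 + e1 * k1 - e2 * h1 + a2 * h3 - a2 * h3
          + (b * (e1 * a2 - e2 * a1) - b * (e1 * a2 - e2 * a1)) * ha + (a2 * e1 - a1 * e2) * hb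
      · linear_combination (-e2) * h2 + e1 * k2
      · linear_combination (-e2) * h3 + e1 * k3
    · refine ⟨mul_left_cancel₀ hb ?_, mul_left_cancel₀ hb ?_, mul_left_cancel₀ hb ?_⟩
      · linear_combination (-b2) * h1 + b1 * k1
      · linear_combination a1 * k3 - a2 * h3 + e * ((a1 * b2 - a2 * b1) * (0 : F)) * ha
          + (b1 * k2 - b2 * h2) - (b1 * e2 - b2 * e1) * ha
      · linear_combination b1 * k3 - b2 * h3
  · refine ⟨mul_left_cancel₀ ha ?_, mul_left_cancel₀ ha ?_, mul_left_cancel₀ ha ?_⟩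
    · linear_combination a1 * k1 - a2 * h1
    · linear_combination a1 * k2 - a2 * h2
    · refine mul_left_cancel₀ ha ?_
      linear_combination (a * e2) * h1 - (a * e1) * k1 + b * (a1 * k2 - a2 * h2)

/-- the commutator form of a group of class two -/
theorem f3_form {Q : Type*} [Group Q] (hc : ∀ a b c : Q, Commute ⁅a, b⁆ c) :
    ∃ B : Q → Q → Additive (Subgroup.center Q),
      (∀ x y, ((B x y).toMul : Q) = ⁅x, y⁆) ∧ (∀ x y t, B (x * y) t = B x t + B y t) ∧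
      (∀ x t, B x t = -B t x) ∧ (∀ x t (n : ℤ), B (x ^ n) t = n • B x t) ∧
      (∀ x t, B x t = 0 ↔ Commute x t) := by
  let B : Q → Q → Additive (Subgroup.center Q) := fun x y =>
    Additive.ofMul ⟨⁅x, y⁆, Subgroup.mem_center_iff.2 fun g => (hc x y g).eq.symm⟩
  have hB : ∀ x y, ((B x y).toMul : Q) = ⁅x, y⁆ := fun _ _ => rfl
  have hext : ∀ s t : Additive (Subgroup.center Q), (s.toMul : Q) = (t.toMul : Q) → s = t :=
    fun s t h => Additive.toMul.injective (Subtype.ext h)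
  have hmul : ∀ x y t, B (x * y) t = B x t + B y t := by
    intro x y t
    apply hext
    rw [toMul_add, Subgroup.coe_mul, hB, hB, hB]
    have h := (hc y t x).eq
    calc ⁅x * y, t⁆ = x * ⁅y, t⁆ * x⁻¹ * ⁅x, t⁆ := by
          simp only [commutatorElement_def]; group
      _ = ⁅y, t⁆ * ⁅x, t⁆ := by rw [← h, mul_inv_cancel_right]
      _ = ⁅x, t⁆ * ⁅y, t⁆ := (hc y t _).eq
  refine ⟨B, hB, hmul, fun x t => ?_, fun x t n => ?_, fun x t => ?_⟩
  · apply hext
    rw [toMul_neg, Subgroup.coe_inv, hB, hB, commutatorElement_inv]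
  · let φ : Q →* Subgroup.center Q := MonoidHom.mk' (fun x => (B x t).toMul) fun x y => by
      rw [hmul, toMul_add]
    have h := map_zpow φ x n
    apply Additive.toMul.injective
    rw [toMul_zsmul]
    exact h
  · rw [← commutatorElement_eq_one_iff_commute, ← hB]
    constructor
    · intro h
      rw [h]
      rfl
    · intro h
      exact hext _ _ h

/-- the two facts about the group which are used -/
theorem f3_core {p : ℕ} [Fact p.Prime] {Q : Type*} [Group Q] {u v w : Q}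
    (hP : Subgroup.closure ({u, v, w} : Set Q) = ⊤) (hexp : ∀ a : Q, a ^ p = 1)
    (hc : ∀ a b c : Q, Commute ⁅a, b⁆ c)
    (hind : ∀ i j k : ℤ, ⁅u, v⁆ ^ i * ⁅u, w⁆ ^ j * ⁅v, w⁆ ^ k = 1 →
      (p : ℤ) ∣ i ∧ (p : ℤ) ∣ j ∧ (p : ℤ) ∣ k) :
    (∀ c y1 y2 : Q, Commute c y1 → Commute c y2 → ¬ Commute y1 y2 → c ∈ commutator Q) ∧
      ¬ Commute u v ∧ ∀ i j : ℤ, ¬ Commute (u ^ i * v) (u ^ j * w) ∧
        ¬ Commute (v ^ i * u) (v ^ j * w) ∧ ¬ Commute (w ^ i * u) (w ^ j * v) := by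
  have hp : p.Prime := Fact.out
  obtain ⟨B, hB, hmul, hsw, hz, h0⟩ := f3_form hc
  have hself : ∀ x, B x x = 0 := fun x => (h0 x x).2 (Commute.refl x)
  have hmul' : ∀ t x y, B t (x * y) = B t x + B t y := fun t x y => by
    rw [hsw t (x * y), hmul, hsw t x, hsw t y, neg_add]
  have hz' : ∀ t x (n : ℤ), B t (x ^ n) = n • B t x := fun t x n => by
    rw [hsw t (x ^ n), hz, hsw t x, smul_neg]
  have hind' : ∀ i j k : ℤ, i • B u v + j • B u w + k • B v w = 0 →
      (p : ℤ) ∣ i ∧ (p : ℤ) ∣ j ∧ (p : ℤ) ∣ k := by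
    intro i j k h
    apply hind
    have h2 := congrArg (fun s : Additive (Subgroup.center Q) => (s.toMul : Q)) h
    simp only [toMul_add, toMul_zsmul, Subgroup.coe_mul, SubgroupClass.coe_zpow, hB, toMul_zero,
      Subgroup.coe_one] at h2
    exact h2
  have hp1 : ¬ (p : ℤ) ∣ 1 := fun h => hp.one_lt.ne' (by exact_mod_cast Int.eq_one_of_dvd_one (Int.natCast_nonneg p) h)
  have hpz : ∀ (x : Q) (n : ℤ), (p : ℤ) ∣ n → x ^ n = 1 := by
    rintro x _ ⟨m, rfl⟩
    rw [zpow_mul, zpow_natCast, hexp, one_zpow]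
  have hps : ∀ (x t : Q) (n : ℤ), (p : ℤ) ∣ n → n • B x t = 0 := fun x t n hn => by
    rw [← hz, hpz x n hn]
    exact (h0 1 t).2 (Commute.one_left t)
  have hcen : ∀ z ∈ commutator Q, ∀ t, Commute z t := by
    intro z hz t
    have : commutator Q ≤ Subgroup.center Q :=
      Subgroup.commutator_le.2 fun a _ b _ => Subgroup.mem_center_iff.2 fun g => (hc a b g).eq.symm
    exact (Subgroup.mem_center_iff.1 (this hz) t).symm
  have hrep : ∀ y : Q, ∃ a b e : ℤ, ∃ z ∈ commutator Q, y = u ^ a * v ^ b * w ^ e * z := by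
    intro y
    have h1 : ∃ a b e : ℤ, Abelianization.of y =
        Abelianization.of u ^ a * Abelianization.of v ^ b * Abelianization.of w ^ e := by
      have hy : y ∈ Subgroup.closure ({u, v, w} : Set Q) := by rw [hP]; trivial
      induction hy using Subgroup.closure_induction with
      | mem x hx =>
        rcases hx with rfl | rfl | rfl
        · exact ⟨1, 0, 0, by simp⟩
        · exact ⟨0, 1, 0, by simp⟩
        · exact ⟨0, 0, 1, by simp⟩
      | one => exact ⟨0, 0, 0, by simp⟩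
      | mul x y _ _ hx hy =>
        obtain ⟨a, b, e, hx⟩ := hx
        obtain ⟨a', b', e', hy⟩ := hy
        refine ⟨a + a', b + b', e + e', ?_⟩
        rw [map_mul, hx, hy, zpow_add, zpow_add, zpow_add]
        simp only [mul_assoc, mul_left_comm]
      | inv x _ hx =>
        obtain ⟨a, b, e, hx⟩ := hx
        refine ⟨-a, -b, -e, ?_⟩
        rw [map_inv, hx, zpow_neg, zpow_neg, zpow_neg, mul_inv, mul_inv]
    obtain ⟨a, b, e, h1⟩ := h1
    refine ⟨a, b, e, (u ^ a * v ^ b * w ^ e)⁻¹ * y, ?_, by group⟩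
    rw [← Abelianization.ker_of, MonoidHom.mem_ker, map_mul, map_inv, map_mul, map_mul, map_zpow,
      map_zpow, map_zpow, ← h1, inv_mul_cancel]
  have hform : ∀ (a b e a' b' e' : ℤ), ∀ z ∈ commutator Q, ∀ z' ∈ commutator Q,
      B (u ^ a * v ^ b * w ^ e * z) (u ^ a' * v ^ b' * w ^ e' * z') =
        (a * b' - a' * b) • B u v + (a * e' - a' * e) • B u w + (b * e' - b' * e) • B v w := by
    intro a b e a' b' e' z hz1 z' hz2
    have k1 : ∀ t, B z t = 0 := fun t => (h0 z t).2 (hcen z hz1 t)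
    have k2 : ∀ t, B t z' = 0 := fun t => (h0 t z').2 (hcen z' hz2 t).symm
    simp only [hmul, hmul', hz, hz', k1, k2, hself, hsw v u, hsw w u, hsw w v]
    module
  refine ⟨fun c y1 y2 hc1 hc2 hne => ?_, fun h => ?_, fun i j => ⟨fun h => ?_, fun h => ?_, fun h => ?_⟩⟩
  · obtain ⟨a, b, e, z, hz0, rfl⟩ := hrep c
    obtain ⟨a1, b1, e1, z1, hz1, rfl⟩ := hrep y1
    obtain ⟨a2, b2, e2, z2, hz2, rfl⟩ := hrep y2
    by_cases hd : (p : ℤ) ∣ a ∧ (p : ℤ) ∣ b ∧ (p : ℤ) ∣ e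
    · rw [hpz u a hd.1, hpz v b hd.2.1, hpz w e hd.2.2, one_mul, one_mul, one_mul]
      exact hz0
    · exfalso
      apply hne
      have q1 := hind' _ _ _ ((hform a b e a1 b1 e1 z hz0 z1 hz1).symm.trans ((h0 _ _).2 hc1))
      have q2 := hind' _ _ _ ((hform a b e a2 b2 e2 z hz0 z2 hz2).symm.trans ((h0 _ _).2 hc2))
      simp only [← ZMod.intCast_zmod_eq_zero_iff_dvd] at q1 q2 hd
      push_cast at q1 q2
      have q3 := f3_cross q1.1 q1.2.1 q1.2.2 q2.1 q2.2.1 q2.2.2 hd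
      rw [← h0, hform a1 b1 e1 a2 b2 e2 z1 hz1 z2 hz2, hps, hps, hps, add_zero, add_zero]
      · rw [← ZMod.intCast_zmod_eq_zero_iff_dvd]; push_cast; exact q3.2.2
      · rw [← ZMod.intCast_zmod_eq_zero_iff_dvd]; push_cast; exact q3.2.1
      · rw [← ZMod.intCast_zmod_eq_zero_iff_dvd]; push_cast; exact q3.1
  · refine hp1 (hind' 1 0 0 ?_).1
    rw [(h0 u v).2 h]
    module
  · refine hp1 (hind' (-j) i 1 ?_).2.2
    rw [← (h0 _ _).2 h]
    simp only [hmul, hmul', hz, hz', hself, hsw v u]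
    module
  · refine hp1 (hind' j 1 i ?_).2.1
    rw [← (h0 _ _).2 h]
    simp only [hmul, hmul', hz, hz', hself]
    module
  · refine hp1 (hind' 1 j (-i) ?_).1
    rw [← (h0 _ _).2 h]
    simp only [hmul, hmul', hz, hz', hself, hsw w v]
    module

/-- a normal subgroup of prime index, without any topology -/
theorem f3_index {p : ℕ} [Fact p.Prime] {G : Type*} [Group G] {H D : Subgroup G}
    (hn : ∀ h ∈ H, ∀ d ∈ D, h * d * h⁻¹ ∈ D) (hi : D.relIndex H = p) :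
    (∀ h ∈ H, ∀ k ∈ H, h * k * h⁻¹ * k⁻¹ ∈ D) ∧
      ∀ u ∈ H, u ∉ D → ∀ h ∈ H, ∃ i : ℕ, (u ^ i)⁻¹ * h ∈ D := by
  have hN : (D.subgroupOf H).Normal := ⟨fun n hn' g => hn g g.2 n hn'⟩
  have hc : Nat.card (H ⧸ D.subgroupOf H) = p := hi
  have hp : p.Prime := Fact.out
  have : Finite (H ⧸ D.subgroupOf H) := Nat.finite_of_card_ne_zero (hc ▸ hp.ne_zero)
  have hcyc : IsCyclic (H ⧸ D.subgroupOf H) := isCyclic_of_prime_card hc
  have hone : ∀ x : H, (x : H ⧸ D.subgroupOf H) = 1 ↔ (x : G) ∈ D := fun x =>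
    QuotientGroup.eq_one_iff x
  refine ⟨fun h hh k hk => ?_, fun u hu huD h hh => ?_⟩
  · have := (hone (⟨h, hh⟩ * ⟨k, hk⟩ * ⟨h, hh⟩⁻¹ * ⟨k, hk⟩⁻¹)).1 (by
      simp only [QuotientGroup.mk_mul, QuotientGroup.mk_inv]
      rw [hcyc.isMulCommutative.is_comm.comm ((⟨h, hh⟩ : H) : H ⧸ D.subgroupOf H)]
      group)
    exact this
  · have h1 : ((⟨u, hu⟩ : H) : H ⧸ D.subgroupOf H) ≠ 1 := fun h => huD ((hone _).1 h)
    obtain ⟨i, hi'⟩ := mem_powers_of_prime_card hc h1 (g' := ((⟨h, hh⟩ : H) : H ⧸ D.subgroupOf H))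
    refine ⟨i, ?_⟩
    simp only [← QuotientGroup.mk_pow] at hi'
    exact (QuotientGroup.eq (s := D.subgroupOf H)).1 hi'

/-- F3: the free three-generated group of class two and exponent `p` is not self-similar -/
theorem f3 {p : ℕ} [Fact p.Prime] {G : Type*} [Group G] {u v w : G} {P : Subgroup G}
    (hP : Subgroup.closure ({u, v, w} : Set G) = P) (hexp : ∀ a ∈ P, a ^ p = 1)
    (hc : ∀ a ∈ P, ∀ b ∈ P, ∀ c ∈ P, Commute ⁅a, b⁆ c)
    (hind : ∀ i j k : ℤ, ⁅u, v⁆ ^ i * ⁅u, w⁆ ^ j * ⁅v, w⁆ ^ k = 1 →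
      (p : ℤ) ∣ i ∧ (p : ℤ) ∣ j ∧ (p : ℤ) ∣ k) : ¬ VE p P := by
  rintro ⟨D, f, hDP, hDn, hDi, hf, hfP, hs⟩
  have hu : u ∈ P := hP ▸ Subgroup.subset_closure (by simp)
  have hv : v ∈ P := hP ▸ Subgroup.subset_closure (by simp)
  have hw : w ∈ P := hP ▸ Subgroup.subset_closure (by simp)
  have hcl : Subgroup.closure ({⟨u, hu⟩, ⟨v, hv⟩, ⟨w, hw⟩} : Set P) = ⊤ := by
    apply Subgroup.map_injective P.subtype_injective
    rw [MonoidHom.map_closure, ← MonoidHom.range_eq_map, Subgroup.range_subtype]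
    simp only [Set.image_insert_eq, Set.image_singleton, Subgroup.subtype_apply]
    exact hP
  have hcm : ∀ x y : P, Commute x y ↔ Commute (x : G) (y : G) := fun x y =>
    ⟨fun h => congrArg Subtype.val h.eq, fun h => Subtype.ext h.eq⟩
  obtain ⟨hX, huv, hY⟩ := f3_core (p := p) hcl (fun a => Subtype.ext (hexp a a.2))
    (fun a b c => (hcm _ _).2 (hc a a.2 b b.2 c c.2))
    (fun i j k h => hind i j k (congrArg Subtype.val h))
  have hX' : ∀ c ∈ P, ∀ y1 ∈ P, ∀ y2 ∈ P, Commute c y1 → Commute c y2 → ¬ Commute y1 y2 →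
      c ∈ ⁅P, P⁆ := by
    intro c hc0 y1 h1 y2 h2 k1 k2 k3
    rw [← Subgroup.map_subtype_commutator]
    exact ⟨⟨c, hc0⟩, hX ⟨c, hc0⟩ ⟨y1, h1⟩ ⟨y2, h2⟩ ((hcm _ _).2 k1) ((hcm _ _).2 k2)
      fun h => k3 ((hcm _ _).1 h), rfl⟩
  obtain ⟨hcomm, hgen⟩ := f3_index hDn hDi
  have hf1 : f 1 = 1 := by
    have := hf 1 D.one_mem 1 D.one_mem
    rw [mul_one] at this
    exact (mul_eq_left.1 this.symm)
  have hfi : ∀ d ∈ D, f d⁻¹ = (f d)⁻¹ := fun d hd => by
    apply eq_inv_of_mul_eq_one_left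
    rw [← hf _ (D.inv_mem hd) _ hd, inv_mul_cancel, hf1]
  have hZD : ⁅P, P⁆ ≤ D := Subgroup.commutator_le.2 fun a ha b hb => hcomm a ha b hb
  have hZc : ∀ z ∈ ⁅P, P⁆, ∀ t ∈ P, Commute z t := by
    intro z hz t ht
    have : ⁅P, P⁆ ≤ Subgroup.centralizer {t} := Subgroup.commutator_le.2 fun a ha b hb =>
      Subgroup.mem_centralizer_singleton_iff.2 (hc a ha b hb t ht).eq
    exact Subgroup.mem_centralizer_singleton_iff.1 (this hz)
  by_cases hab : ∀ d1 ∈ D, ∀ d2 ∈ D, Commute (f d1) (f d2)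
  · have hDD : ⁅D, D⁆ ≤ ⁅P, P⁆ := Subgroup.commutator_mono hDP hDP
    let φ : D →* G := MonoidHom.mk' (fun d => f d) fun a b => hf a a.2 b b.2
    have hker : commutator D ≤ φ.ker := Subgroup.commutator_le.2 fun a _ b _ => by
      rw [MonoidHom.mem_ker, map_commutatorElement, commutatorElement_eq_one_iff_commute]
      exact hab a a.2 b b.2
    have hbot := hs ⁅D, D⁆ (hDD.trans hZD)
      (fun h hh n hn => by rwa [← (hZc n (hDD hn) h hh).eq, mul_inv_cancel_right])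
      (fun n hn => by
        rw [← Subgroup.map_subtype_commutator] at hn
        obtain ⟨d, hd, rfl⟩ := hn
        have : f d = 1 := hker hd
        rw [Subgroup.subtype_apply, this]
        exact one_mem _)
    have hDc : ∀ a ∈ D, ∀ b ∈ D, Commute a b := fun a ha b hb => by
      rw [← commutatorElement_eq_one_iff_commute, ← Subgroup.mem_bot, ← hbot]
      exact Subgroup.commutator_mem_commutator ha hb
    have hpw : ∀ (x : G) (i : ℕ), (x ^ i)⁻¹ = x ^ (-(i : ℤ)) := fun x i => by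
      rw [zpow_neg, zpow_natCast]
    by_cases huD : u ∈ D
    · by_cases hvD : v ∈ D
      · exact huv ((hcm _ _).2 (hDc u huD v hvD))
      · obtain ⟨i, hi⟩ := hgen v hv hvD u hu
        obtain ⟨j, hj⟩ := hgen v hv hvD w hw
        rw [hpw] at hi hj
        exact (hY (-i) (-j)).2.1 ((hcm _ _).2 (hDc _ hi _ hj))
    · obtain ⟨i, hi⟩ := hgen u hu huD v hv
      obtain ⟨j, hj⟩ := hgen u hu huD w hw
      rw [hpw] at hi hj
      exact (hY (-i) (-j)).1 ((hcm _ _).2 (hDc _ hi _ hj))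
  · simp only [not_forall] at hab
    obtain ⟨d1, hd1, d2, hd2, hne⟩ := hab
    have hfc : ∀ n ∈ ⁅P, P⁆, ∀ d ∈ D, Commute (f n) (f d) := fun n hn d hd => by
      have h := (hZc n hn d (hDP hd)).eq
      show f n * f d = f d * f n
      rw [← hf n (hZD hn) d hd, ← hf d hd n (hZD hn), h]
    have hbot := hs ⁅P, P⁆ hZD
      (fun h hh n hn => by rwa [← (hZc n hn h hh).eq, mul_inv_cancel_right])
      (fun n hn => hX' _ (hfP n (hZD hn)) _ (hfP d1 hd1) _ (hfP d2 hd2) (hfc n hn d1 hd1)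
        (hfc n hn d2 hd2) hne)
    apply huv
    rw [hcm, ← commutatorElement_eq_one_iff_commute, ← Subgroup.mem_bot, ← hbot]
    exact Subgroup.commutator_mem_commutator hu hv

end Pool.Agent.Lib.MP_2dbb30_al.LL
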