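import Pool.Agent.Lib.MP_2dbb30_al.LL.U
import Pool.Agent.Lib.MP_2dbb30_al.LL.F3
import Pool.Agent.Lib.MP_2dbb30_al.TF.Scal

set_option autoImplicit false
set_option linter.unusedSectionVars false

open Topology Filter
open scoped commutatorElement

namespace Pool.Agent.Lib.MP_2dbb30_al.LL

open Pool.Agent.Lib.MP_2dbb30_al.TF

variable {p : ℕ} [Fact p.Prime] {G : Type*} [Group G] [TopologicalSpace G] [IsTopologicalGroup G]
  [CompactSpace G] [T2Space G] [TotallyDisconnectedSpace G]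

theorem mem_of_zpow_mem {Q : Type*} [Group Q] {D : Subgroup Q} {y : Q} (hp : y ^ p ∈ D) {j : ℤ}
    (hj : y ^ j ∈ D) (h : ¬ (p : ℤ) ∣ j) : y ∈ D := by
  by_contra hy
  refine h (Int.natCast_dvd.2 (dvd_of_pow_mem hy hp ?_))
  rcases Int.natAbs_eq j with e | e
  · rwa [e, zpow_natCast] at hj
  · rwa [e, zpow_neg, zpow_natCast, D.inv_mem_iff] at hj

theorem finite_closure [Group.IsSolvable G] {N : Subgroup G} (hNp : ∀ n ∈ N, n ^ p = 1)
    {S : Set G} (hS : S.Finite) (hSN : S ⊆ N) : (Subgroup.closure S : Set G).Finite := by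
  have : Group.FG (Subgroup.closure S) := by
    rw [Group.fg_iff_subgroup_fg]; exact ⟨hS.toFinset, by simp⟩
  have := finite_of_solvable_torsion (Subgroup.closure S) fun g =>
    isOfFinOrder_iff_pow_eq_one.2 ⟨p, (Fact.out : p.Prime).pos,
      Subtype.ext (hNp _ ((Subgroup.closure_le N).2 hSN g.2))⟩
  exact Set.toFinite _

/-- NA: a closed subgroup of exponent `p` normalised by an element of infinite order is abelian -/
theorem abelian_of_exp [Group.IsSolvable G] (hG : ProP p G) (hve : HVE p G) (h3 : HVE3 p G)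
    {N : Subgroup G} (hN : IsClosed (N : Set G)) (hNp : ∀ n ∈ N, n ^ p = 1) {x : G}
    (hx : ¬ IsOfFinOrder x) (hxN : ∀ n ∈ N, x * n * x⁻¹ ∈ N) :
    ∀ a ∈ N, ∀ b ∈ N, a * b = b * a := by
  have hp : p.Prime := Fact.out
  obtain ⟨H, -, hH⟩ := exists_semi hG hN hxN
  have hNH : N ≤ H := fun n hn => (hH n).2 ⟨n, hn, 0, by simp⟩
  have hxH : x ∈ H := (hH x).2 ⟨1, one_mem _, 1, by simp⟩
  have hHN : ∀ h ∈ H, ∀ n ∈ N, h * n * h⁻¹ ∈ N := fun h hh n hn => by
    obtain ⟨m, hm, a, rfl⟩ := (hH h).1 hh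
    have := N.mul_mem (N.mul_mem hm (conj_pw hG hN hxN a hn)) (N.inv_mem hm)
    convert this using 1
    group
  have c1 : ∀ h ∈ H, ∀ u ∈ N, Commute u (h * u * h⁻¹) := fun h hh u hu => by
    obtain ⟨m, hm, a, rfl⟩ := (hH h).1 hh
    have h1 : ∀ a : ℤ_[p], a ≠ 0 → Commute u (m * pw hG x a * u * (m * pw hG x a)⁻¹) :=
      fun a ha => comm_conj hG hve hN hNp (not_fin_semi hG hN hNp hx hxN hm ha)
        (hHN _ ((hH _).2 ⟨m, hm, a, rfl⟩)) hu
    by_cases ha : a = 0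
    swap
    · exact h1 a ha
    have hc := continuous_pw hG x
    have hcl : IsClosed {a : ℤ_[p] | u * (m * pw hG x a * u * (m * pw hG x a)⁻¹) =
        (m * pw hG x a * u * (m * pw hG x a)⁻¹) * u} := isClosed_eq (by fun_prop) (by fun_prop)
    have ht := tendsto_pow_atTop_nhds_zero_of_norm_lt_one
      (show ‖(p : ℤ_[p])‖ < 1 from (PadicInt.norm_lt_one_iff_dvd _).2 dvd_rfl)
    rw [ha]
    exact hcl.mem_of_tendsto ht (Eventually.of_forall fun k =>
      h1 _ (pow_ne_zero k (Nat.cast_ne_zero.2 hp.ne_zero)))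
  have hW : ∀ u ∈ N, ∃ W : Subgroup G, u ∈ W ∧ W ≤ N ∧ (∀ h ∈ H, ∀ w ∈ W, h * w * h⁻¹ ∈ W) ∧
      ∀ a ∈ W, ∀ b ∈ W, Commute a b := fun u hu => by
    refine ⟨Subgroup.closure {t | ∃ h ∈ H, h * u * h⁻¹ = t},
      Subgroup.subset_closure ⟨1, one_mem _, by simp⟩, ?_, fun h hh w hw => ?_, ?_⟩
    · rw [Subgroup.closure_le]
      rintro _ ⟨h, hh, rfl⟩
      exact hHN h hh u hu
    · induction hw using Subgroup.closure_induction with
      | mem t ht =>
        obtain ⟨h', hh', rfl⟩ := ht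
        exact Subgroup.subset_closure ⟨h * h', H.mul_mem hh hh', by group⟩
      | one => simp
      | mul a b _ _ ha hb => simpa [mul_assoc] using mul_mem ha hb
      | inv a _ ha => simpa [mul_assoc] using inv_mem ha
    · intro a ha b hb
      refine Subgroup.closure_induction₂ (p := fun a b _ _ => Commute a b) ?_ ?_ ?_ ?_ ?_ ?_ ?_ ha hb
      · rintro _ _ ⟨h, hh, rfl⟩ ⟨h', hh', rfl⟩
        have := (c1 (h⁻¹ * h') (H.mul_mem (H.inv_mem hh) hh') u hu).conj h
        convert this using 1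
        group
      · exact fun _ _ => Commute.one_left _
      · exact fun _ _ => Commute.one_right _
      · exact fun _ _ _ _ _ _ h1 h2 => h1.mul_left h2
      · exact fun _ _ _ _ _ _ h1 h2 => h1.mul_right h2
      · exact fun _ _ _ _ h1 => h1.inv_left
      · exact fun _ _ _ _ h1 => h1.inv_right
  intro u hu v hv
  by_cases hu1 : u = 1
  · simp [hu1]
  obtain ⟨U, huU, hUN, hUn, hUc⟩ := hW u hu
  obtain ⟨V, hvV, hVN, hVn, hVc⟩ := hW v hv
  have hcU : ∀ a ∈ U, ∀ b ∈ V, ⁅a, b⁆ ∈ U := fun a ha b hb => by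
    have := U.mul_mem ha (hUn b (hNH (hVN hb)) _ (U.inv_mem ha))
    simpa [commutatorElement_def, mul_assoc] using this
  have hcV : ∀ a ∈ U, ∀ b ∈ V, ⁅a, b⁆ ∈ V := fun a ha b hb =>
    V.mul_mem (hVn a (hNH (hUN ha)) b hb) (V.inv_mem hb)
  have hform : ∀ a ∈ U, ∀ b ∈ V, ∀ a' ∈ U, ∀ b' ∈ V, ⁅a * b, a' * b'⁆ = ⁅a', b⁆⁻¹ * ⁅a, b'⁆ := by
    intro a ha b hb a' ha' b' hb'
    have e1 : ⁅a, a' * b'⁆ = ⁅a, b'⁆ := by
      calc ⁅a, a' * b'⁆ = ⁅a, a'⁆ * (a' * ⁅a, b'⁆ * a'⁻¹) := by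
            simp only [commutatorElement_def]; group
        _ = _ := by
            rw [commutatorElement_eq_one_iff_commute.2 (hUc a ha a' ha'), one_mul,
              (hUc a' ha' _ (hcU a ha b' hb')).eq, mul_inv_cancel_right]
    have e2 : ⁅b, a' * b'⁆ = ⁅a', b⁆⁻¹ := by
      calc ⁅b, a' * b'⁆ = ⁅a', b⁆⁻¹ * (a' * ⁅b, b'⁆ * a'⁻¹) := by
            simp only [commutatorElement_def]; group
        _ = _ := by
            rw [commutatorElement_eq_one_iff_commute.2 (hVc b hb b' hb')]; group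
    calc ⁅a * b, a' * b'⁆ = a * ⁅b, a' * b'⁆ * a⁻¹ * ⁅a, a' * b'⁆ := by
          simp only [commutatorElement_def]; group
      _ = _ := by
          rw [e1, e2, (hUc a ha _ (U.inv_mem (hcU a' ha' b hb))).eq, mul_inv_cancel_right]
  let T : G → G := fun a => x * a * x⁻¹
  have hTU : ∀ a ∈ U, T a ∈ U := hUn x hxH
  have hTV : ∀ a ∈ V, T a ∈ V := hVn x hxH
  have hTc : ∀ a b : G, T ⁅a, b⁆ = ⁅T a, T b⁆ := fun a b => by
    simp only [T, commutatorElement_def]; group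
  have hsym : ∀ a ∈ U, ∀ b ∈ V, ⁅T a, b⁆ = ⁅a, T b⁆ := fun a ha b hb => by
    have h1 := commutatorElement_eq_one_iff_commute.2 (c1 x hxH _ (N.mul_mem (hUN ha) (hVN hb)))
    have h2 : x * (a * b) * x⁻¹ = T a * T b := by simp only [T]; group
    rw [h2, hform a ha b hb _ (hTU a ha) _ (hTV b hb), inv_mul_eq_one] at h1
    exact h1
  set z := ⁅u, v⁆ with hz
  set w := T (T u) * T (T (T (T v))) with hw
  have hT2u := hTU _ (hTU _ huU)
  have hT2v := hTV _ (hTV _ hvV)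
  have hT4v := hTV _ (hTV _ hT2v)
  have huw : ⁅u, w⁆ = T (T z) := by
    have := hform u huU 1 V.one_mem _ hT2u _ hT4v
    rw [mul_one] at this
    rw [this, hz, hTc, hTc, hsym _ (hTU _ huU) _ hT2v, hsym _ huU _ (hTV _ hT2v)]
    simp
  have hvw : ⁅v, w⁆ = (T z)⁻¹ := by
    have := hform 1 U.one_mem v hvV _ hT2u _ hT4v
    rw [one_mul] at this
    rw [this, hz, hTc, hsym _ (hTU _ huU) _ hvV]
    simp
  have hzU : z ∈ U := hcU u huU v hvV
  have hwN : w ∈ N := N.mul_mem (hUN hT2u) (hVN hT4v)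
  have hsub : ({u, v, w} : Set G) ⊆ N := by
    rintro _ (rfl | rfl | rfl)
    exacts [hu, hv, hwN]
  have hPN := (Subgroup.closure_le N).2 hsub
  have hPf := finite_closure hNp (Set.toFinite _) hsub
  have hve3 := h3 u v w hu1
  rw [le_antisymm (Subgroup.topologicalClosure_minimal _ le_rfl hPf.isClosed)
    (Subgroup.le_topologicalClosure _)] at hve3
  have hdec : ∀ t ∈ Subgroup.closure ({u, v, w} : Set G), ∃ a ∈ U, ∃ b ∈ V, t = a * b := by
    intro t ht
    induction ht using Subgroup.closure_induction with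
    | mem t ht =>
      rcases ht with rfl | rfl | rfl
      · exact ⟨_, huU, 1, one_mem _, by simp⟩
      · exact ⟨1, one_mem _, _, hvV, by simp⟩
      · exact ⟨_, hT2u, _, hT4v, rfl⟩
    | one => exact ⟨1, one_mem _, 1, one_mem _, by simp⟩
    | mul _ _ _ _ h1 h2 =>
      obtain ⟨a, ha, b, hb, rfl⟩ := h1
      obtain ⟨a', ha', b', hb', rfl⟩ := h2
      exact ⟨a * (b * a' * b⁻¹), U.mul_mem ha (hUn b (hNH (hVN hb)) a' ha'), b * b',
        V.mul_mem hb hb', by group⟩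
    | inv _ _ h1 =>
      obtain ⟨a, ha, b, hb, rfl⟩ := h1
      exact ⟨b⁻¹ * a⁻¹ * b⁻¹⁻¹, hUn _ (hNH (hVN (V.inv_mem hb))) _ (U.inv_mem ha), b⁻¹,
        V.inv_mem hb, by group⟩
  obtain ⟨i, j, k, hrel, hnd⟩ : ∃ i j k : ℤ, z ^ i * T (T z) ^ j * (T z)⁻¹ ^ k = 1 ∧
      ¬ ((p : ℤ) ∣ i ∧ (p : ℤ) ∣ j ∧ (p : ℤ) ∣ k) := by
    by_contra hcon
    push Not at hcon
    refine f3 rfl (fun a ha => hNp a (hPN ha)) (fun a ha b hb c hc => ?_)
      (fun i j k h => ?_) hve3
    · obtain ⟨a1, ha1, a2, ha2, rfl⟩ := hdec a ha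
      obtain ⟨b1, hb1, b2, hb2, rfl⟩ := hdec b hb
      obtain ⟨c1, hc1, c2, hc2, rfl⟩ := hdec c hc
      rw [hform _ ha1 _ ha2 _ hb1 _ hb2]
      exact (hUc _ (U.mul_mem (U.inv_mem (hcU _ hb1 _ ha2)) (hcU _ ha1 _ hb2)) _ hc1).mul_right
        (hVc _ (V.mul_mem (V.inv_mem (hcV _ hb1 _ ha2)) (hcV _ ha1 _ hb2)) _ hc2)
    · rw [huw, hvw] at h
      exact hcon i j k h
  have hone : ∀ a ∈ U, ∀ j : ℤ, (p : ℤ) ∣ j → a ^ j = 1 := by
    rintro a ha _ ⟨j, rfl⟩
    rw [zpow_mul, zpow_natCast, hNp a (hUN ha), one_zpow]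
  have hTz := hTU z hzU
  have hT2z := hTU _ hTz
  set F := Subgroup.closure ({z, T z} : Set G) with hF
  have hzF : z ∈ F := Subgroup.subset_closure (by simp)
  have hTzF : T z ∈ F := Subgroup.subset_closure (by simp)
  have hT2F : T (T z) ∈ F := by
    by_cases hj : (p : ℤ) ∣ j
    swap
    · refine mem_of_zpow_mem (by rw [hNp _ (hUN hT2z)]; exact one_mem _) ?_ hj
      have : z ^ i * T (T z) ^ j * (T z)⁻¹ ^ k ∈ F := hrel ▸ one_mem _
      rwa [F.mul_mem_cancel_right (F.zpow_mem (F.inv_mem hTzF) k),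
        F.mul_mem_cancel_left (F.zpow_mem hzF i)] at this
    rw [hone _ hT2z j hj, mul_one] at hrel
    have h1 : T z ∈ Subgroup.zpowers z := by
      by_cases hk : (p : ℤ) ∣ k
      · rw [hone _ (U.inv_mem hTz) k hk, mul_one] at hrel
        have : z ∈ (⊥ : Subgroup G) :=
          mem_of_zpow_mem (hNp _ (hUN hzU)) hrel fun hi => hnd ⟨hi, hj, hk⟩
        rw [Subgroup.mem_bot.1 this]
        simp [T]
      · rw [← Subgroup.inv_mem_iff]
        refine mem_of_zpow_mem (by rw [hNp _ (hUN (U.inv_mem hTz))]; exact one_mem _) ?_ hk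
        rw [eq_inv_of_mul_eq_one_right hrel]
        exact inv_mem ⟨i, rfl⟩
    obtain ⟨r, hr⟩ := h1
    have : T (T z) = T z ^ r := by
      conv_lhs => rw [← hr]
      simp only [T, conj_zpow]
    rw [this]
    exact F.zpow_mem hTzF r
  have hTF : ∀ t ∈ F, T t ∈ F := fun t ht => by
    induction ht using Subgroup.closure_induction with
    | mem t ht =>
      rcases ht with rfl | rfl
      exacts [hTzF, hT2F]
    | one => simp [T]
    | mul a b _ _ ha hb => simpa [T, mul_assoc] using mul_mem ha hb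
    | inv a _ ha => simpa [T, mul_assoc] using inv_mem ha
  have hFf : (F : Set G).Finite := finite_closure hNp (Set.toFinite _) (by
    rintro _ (rfl | rfl)
    exacts [hUN hzU, hUN hTz])
  have horb : ∀ n : ℕ, x ^ n * z * (x ^ n)⁻¹ ∈ (F : Set G) := fun n => by
    induction n with
    | zero => simpa using hzF
    | succ n ih =>
      have e : x ^ (n + 1) * z * (x ^ (n + 1))⁻¹ = T (x ^ n * z * (x ^ n)⁻¹) := by
        simp only [T, pow_succ']; group
      rw [e]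
      exact hTF _ ih
  obtain ⟨m, n, hmn, h⟩ := hFf.exists_lt_map_eq_of_forall_mem horb
  obtain ⟨r, rfl⟩ := Nat.exists_eq_add_of_lt hmn
  rw [← commutatorElement_eq_one_iff_mul_comm]
  refine eq_one_of_commute hG hve (hNp _ (hUN hzU)) (x := x ^ (r + 1))
    (fun hf => hx (hf.of_pow (Nat.succ_ne_zero r))) ?_
  have : z = x ^ (r + 1) * z * (x ^ (r + 1))⁻¹ := by
    calc z = (x ^ m)⁻¹ * (x ^ m * z * (x ^ m)⁻¹) * x ^ m := by group
      _ = _ := by rw [h, add_assoc, pow_add]; group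
  exact (mul_inv_eq_iff_eq_mul.1 this.symm).symm

end Pool.Agent.Lib.MP_2dbb30_al.LL
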