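import Pool.Agent.Lib.MP_2dbb30_al.Literal
import Pool.Agent.Lib.MP_2dbb30_al.TF.Defs

set_option autoImplicit false

open scoped Manifold ContDiff

namespace Pool.Agent.Lib.MP_2dbb30_al.LL.OldMetabelian

open Pool.Agent.Lib.MP_2dbb30_al.TF

open Pool.Agent.Lib.MP_2dbb30_al in
theorem derived_two {p : ℕ} [Fact p.Prime] : derivedSeries (SD p (S p)) 2 = ⊥ := by
  let K : Subgroup (SD p (S p)) :=
    { carrier := {g | g.a = 0}
      one_mem' := rfl
      mul_mem' := fun {g h} hg hh => by
        have hg' : g.a = 0 := hg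
        have hh' : h.a = 0 := hh
        show (g * h).a = 0
        rw [SD.mul_a, hg', hh', add_zero]
      inv_mem' := fun {g} hg => by
        have hg' : g.a = 0 := hg
        show (g⁻¹).a = 0
        rw [SD.inv_a, hg', neg_zero] }
  have h1 : derivedSeries (SD p (S p)) 1 ≤ K := by
    rw [derivedSeries_succ, Subgroup.commutator_le]
    intro g _ h _
    show (g * h * g⁻¹ * h⁻¹).a = 0
    simp
  rw [eq_bot_iff, derivedSeries_succ, Subgroup.commutator_le]
  intro g hg h hh
  have hg' : g.a = 0 := h1 hg
  have hh' : h.a = 0 := h1 hh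
  rw [Subgroup.mem_bot, commutatorElement_eq_one_iff_mul_comm]
  ext1
  · rw [SD.mul_v, SD.mul_v, hg', hh', chi_zero, one_smul, one_smul, add_comm]
  · rw [SD.mul_a, SD.mul_a, add_comm]

/-- For every prime `p` there is a metabelian finitely generated pro-`p` group which is strongly
hereditarily self-similar of index `p` and carries no `p`-adic analytic group structure. -/
theorem result (p : ℕ) [Fact p.Prime] :
    ∃ (G : Type) (_ : Group G) (_ : TopologicalSpace G) (_ : IsTopologicalGroup G)
      (_ : CompactSpace G) (_ : T2Space G) (_ : TotallyDisconnectedSpace G),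
      (∀ N : Subgroup G, N.Normal → IsOpen (N : Set G) → ∃ k : ℕ, N.index = p ^ k) ∧
      (∃ T : Finset G, (Subgroup.closure (T : Set G)).topologicalClosure = ⊤) ∧
      derivedSeries G 2 = ⊥ ∧
      SelfSimilar p G ∧
      (∀ L : Subgroup G, L ≠ ⊥ →
        (∃ T : Finset G, (Subgroup.closure (T : Set G)).topologicalClosure = L) →
        SelfSimilar p L) ∧
      ¬ ∃ (n : ℕ) (_ : ChartedSpace (Fin n → ℚ_[p]) G),
        LieGroup 𝓘(ℚ_[p], Fin n → ℚ_[p]) ω G := by
  have hp : p ≠ 0 := (Fact.out : p.Prime).ne_zero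
  open Pool.Agent.Lib.MP_2dbb30_al PowerSeries.WithPiTopology in
  refine ⟨SD p (S p), inferInstance, inferInstance, inferInstance, inferInstance, inferInstance,
    inferInstance, pro_p, fin_gen, derived_two, ?_,
    fun L hne hfg => action_of_SS hp (hereditary L hne hfg), not_analytic⟩
  open Pool.Agent.Lib.MP_2dbb30_al PowerSeries.WithPiTopology in
  exact action_top hp

end Pool.Agent.Lib.MP_2dbb30_al.LL.OldMetabelian
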