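import Pool.Agent.Lib.MP_2dbb30_al.LL.Tors

set_option autoImplicit false
set_option linter.unusedSectionVars false

open Topology Filter
open scoped commutatorElement

namespace Pool.Agent.Lib.MP_2dbb30_al.LL

open Pool.Agent.Lib.MP_2dbb30_al.TF

variable {p : ℕ} [Fact p.Prime] {G : Type*} [Group G] [TopologicalSpace G] [IsTopologicalGroup G]
  [CompactSpace G] [T2Space G] [TotallyDisconnectedSpace G]

theorem comm_cl {B : Subgroup G} (h : ∀ a ∈ B, ∀ b ∈ B, a * b = b * a) :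
    ∀ a ∈ B.topologicalClosure, ∀ b ∈ B.topologicalClosure, a * b = b * a := by
  have h1 : B.topologicalClosure ≤ Subgroup.centralizer (B : Set G) :=
    Subgroup.topologicalClosure_minimal _
      (fun a ha => Subgroup.mem_centralizer_iff.2 fun b hb => h b hb a ha) (isClosed_centralizer' _)
  have h2 : B.topologicalClosure ≤ Subgroup.centralizer (B.topologicalClosure : Set G) :=
    Subgroup.topologicalClosure_minimal _
      (fun a ha => Subgroup.mem_centralizer_iff.2 fun b hb =>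
        (Subgroup.mem_centralizer_iff.1 (h1 hb) a ha).symm) (isClosed_centralizer' _)
  exact fun a ha b hb => Subgroup.mem_centralizer_iff.1 (h2 hb) a ha

theorem conj_cl {B : Subgroup G} {l : G} (h : ∀ b ∈ B, l * b * l⁻¹ ∈ B) :
    ∀ b ∈ B.topologicalClosure, l * b * l⁻¹ ∈ B.topologicalClosure := by
  intro b hb
  have hc : IsClosed {b : G | l * b * l⁻¹ ∈ B.topologicalClosure} :=
    B.isClosed_topologicalClosure.preimage ((continuous_const.mul continuous_id).mul continuous_const)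
  have hsub : (B : Set G) ⊆ {b : G | l * b * l⁻¹ ∈ B.topologicalClosure} :=
    fun x hx => B.le_topologicalClosure (h x hx)
  exact closure_minimal hsub hc hb

theorem conj_commutator {S : Subgroup G} {l : G} (h : ∀ b ∈ S, l * b * l⁻¹ ∈ S) :
    ∀ b ∈ (⁅S, S⁆ : Subgroup G), l * b * l⁻¹ ∈ (⁅S, S⁆ : Subgroup G) := by
  intro b hb
  have h1 : S.map (MulAut.conj l).toMonoidHom ≤ S := by
    rintro _ ⟨x, hx, rfl⟩; exact h x hx
  have h2 : (⁅S, S⁆ : Subgroup G).map (MulAut.conj l).toMonoidHom ≤ ⁅S, S⁆ := by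
    rw [Subgroup.map_commutator]; exact Subgroup.commutator_mono h1 h1
  exact h2 ⟨b, hb, rfl⟩

theorem pw_split (hG : ProP p G) (g : G) (a : ℤ_[p]) :
    ∃ (i : ℕ) (b : ℤ_[p]), pw hG g a = g ^ i * pw hG g b ^ p := by
  obtain ⟨b, hb⟩ := Ideal.mem_span_singleton.1 (PadicInt.appr_spec 1 a)
  refine ⟨a.appr 1, b, ?_⟩
  rw [pw_pow, ← pw_natCast hG, ← pw_add]
  congr 1
  rw [pow_one] at hb
  linear_combination hb

section Abstract

variable {Q : Type*} [Group Q]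

theorem serre_step {y₁ y₂ : Q} (hy : Subgroup.closure ({y₁, y₂} : Set Q) = ⊤) {U : Subgroup Q}
    (hc : ∀ u ∈ U, ∀ q x : Q, Commute ⁅q, u⁆ x) {w : Q} (hw : w ∈ (⁅U, ⊤⁆ : Subgroup Q)) :
    ∃ u₁ ∈ U, ∃ u₂ ∈ U, w = ⁅y₁, u₁⁆ * ⁅y₂, u₂⁆ := by
  have h1 : ∀ y : Q, ∀ u : Q, ∀ u' ∈ U, ⁅y, u * u'⁆ = ⁅y, u⁆ * ⁅y, u'⁆ := fun y u u' hu' => by
    calc ⁅y, u * u'⁆ = ⁅y, u⁆ * (u * ⁅y, u'⁆ * u⁻¹) := by simp only [commutatorElement_def]; group
      _ = _ := by rw [← (hc u' hu' y u).eq, mul_inv_cancel_right]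
  have h2 : ∀ y y' : Q, ∀ u ∈ U, ⁅y * y', u⁆ = ⁅y', u⁆ * ⁅y, u⁆ := fun y y' u hu => by
    calc ⁅y * y', u⁆ = y * ⁅y', u⁆ * y⁻¹ * ⁅y, u⁆ := by simp only [commutatorElement_def]; group
      _ = _ := by rw [← (hc u hu y' y).eq, mul_inv_cancel_right]
  have h3 : ∀ y : Q, ∀ u ∈ U, ⁅y, u⁻¹⁆ = ⁅y, u⁆⁻¹ := fun y u hu => by
    apply eq_inv_of_mul_eq_one_right
    rw [← h1 y u _ (U.inv_mem hu)]; simp
  let S : Subgroup Q :=
    { carrier := {w | ∃ u₁ ∈ U, ∃ u₂ ∈ U, w = ⁅y₁, u₁⁆ * ⁅y₂, u₂⁆}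
      one_mem' := ⟨1, U.one_mem, 1, U.one_mem, by simp⟩
      mul_mem' := by
        rintro _ _ ⟨a, ha, b, hb, rfl⟩ ⟨c, hc', d, hd, rfl⟩
        refine ⟨a * c, U.mul_mem ha hc', b * d, U.mul_mem hb hd, ?_⟩
        rw [h1 _ _ _ hc', h1 _ _ _ hd, mul_assoc, mul_assoc, ← mul_assoc ⁅y₂, b⁆,
          (hc b hb y₂ _).eq, mul_assoc]
      inv_mem' := by
        rintro _ ⟨a, ha, b, hb, rfl⟩
        refine ⟨a⁻¹, U.inv_mem ha, b⁻¹, U.inv_mem hb, ?_⟩
        rw [h3 _ _ ha, h3 _ _ hb, (hc a ha y₁ _).eq, mul_inv_rev] }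
  have hle : (⁅U, ⊤⁆ : Subgroup Q) ≤ S := by
    rw [Subgroup.commutator_le]
    intro u hu q hq
    rw [← commutatorElement_inv]
    refine S.inv_mem ?_
    rw [← hy] at hq
    induction hq using Subgroup.closure_induction with
    | mem x hx =>
      rcases hx with rfl | rfl
      · exact ⟨u, hu, 1, U.one_mem, by simp⟩
      · exact ⟨1, U.one_mem, u, hu, by simp⟩
    | one => simp
    | mul x y _ _ hx hy => rw [h2 _ _ _ hu]; exact S.mul_mem hy hx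
    | inv x _ hx =>
      have : ⁅x⁻¹, u⁆ = ⁅x, u⁆⁻¹ := by
        apply eq_inv_of_mul_eq_one_left
        rw [← h2 _ _ _ hu]; simp
      rw [this]; exact S.inv_mem hx
  exact hle hw

theorem serre_nil [Group.IsNilpotent Q] {y₁ y₂ : Q}
    (hy : Subgroup.closure ({y₁, y₂} : Set Q) = ⊤) {c : Q} (hc : c ∈ ⁅(⊤ : Subgroup Q), (⊤ : Subgroup Q)⁆) :
    ∃ a b : Q, c = ⁅y₁, a⁆ * ⁅y₂, b⁆ := by
  have key : ∀ n : ℕ, ∃ a b : Q,
      (⁅y₁, a⁆ * ⁅y₂, b⁆)⁻¹ * c ∈ (⊤ : Subgroup Q).lowerCentralSeries (n + 1) := by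
    intro n
    induction n with
    | zero => exact ⟨1, 1, by simpa using hc⟩
    | succ n ih =>
      obtain ⟨a, b, h⟩ := ih
      set Γ := (⊤ : Subgroup Q).lowerCentralSeries with hΓ
      have hn : (Γ (n + 1 + 1)).Normal := inferInstance
      let π := QuotientGroup.mk' (Γ (n + 1 + 1))
      have hπ : Function.Surjective π := QuotientGroup.mk'_surjective _
      have hcen : ∀ u ∈ (Γ n).map π, ∀ q x : Q ⧸ Γ (n + 1 + 1), Commute ⁅q, u⁆ x := by
        rintro _ ⟨u, hu, rfl⟩ q x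
        obtain ⟨q, rfl⟩ := hπ q
        obtain ⟨x, rfl⟩ := hπ x
        rw [← commutatorElement_eq_one_iff_commute, ← map_commutatorElement,
          ← map_commutatorElement]
        refine (QuotientGroup.eq_one_iff _).2
          (Subgroup.commutator_mem_commutator ?_ (Subgroup.mem_top x))
        rw [← commutatorElement_inv]
        exact inv_mem (Subgroup.commutator_mem_commutator hu (Subgroup.mem_top q))
      obtain ⟨_, ⟨u₁, hu₁, rfl⟩, _, ⟨u₂, hu₂, rfl⟩, h'⟩ :=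
        serre_step (y₁ := π y₁) (y₂ := π y₂) (w := π ((⁅y₁, a⁆ * ⁅y₂, b⁆)⁻¹ * c)) (by
          have := MonoidHom.map_closure π ({y₁, y₂} : Set Q)
          rw [hy, Subgroup.map_top_of_surjective _ hπ, Set.image_pair] at this
          exact this.symm) hcen (by
          rw [← Subgroup.map_top_of_surjective _ hπ, ← Subgroup.map_commutator]
          exact ⟨_, h, rfl⟩)
      refine ⟨a * u₁, b * u₂, (QuotientGroup.eq (s := Γ (n + 1 + 1))).1 ?_⟩
      change π _ = π c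
      rw [map_mul, map_inv, inv_mul_eq_iff_eq_mul] at h'
      have e : ∀ y a u : Q, u ∈ Γ n → π ⁅y, a * u⁆ = π ⁅y, a⁆ * ⁅π y, π u⁆ := fun y a u hu => by
        calc π ⁅y, a * u⁆ = π ⁅y, a⁆ * (π a * ⁅π y, π u⁆ * (π a)⁻¹) := by
              simp only [commutatorElement_def, map_mul, map_inv]; group
          _ = _ := by rw [← (hcen _ ⟨u, hu, rfl⟩ (π y) (π a)).eq, mul_inv_cancel_right]
      rw [h', map_mul, map_mul, e _ _ _ hu₁, e _ _ _ hu₂, mul_assoc, mul_assoc,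
        ← mul_assoc ⁅π y₁, π u₁⁆, (hcen _ ⟨u₁, hu₁, rfl⟩ (π y₁) _).eq, mul_assoc]
  obtain ⟨r, hr⟩ := Subgroup.nilpotent_iff_lowerCentralSeries.mp ‹Group.IsNilpotent Q›
  obtain ⟨a, b, h⟩ := key r
  have := Subgroup.lowerCentralSeries_antitone _ (Nat.le_succ r) h
  rw [hr, Subgroup.mem_bot, inv_mul_eq_one] at this
  exact ⟨a, b, this.symm⟩

theorem dvd_of_pow_mem {D : Subgroup Q} {y : Q} (hy : y ∉ D) (hp : y ^ p ∈ D) {j : ℕ}
    (hj : y ^ j ∈ D) : p ∣ j := by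
  by_contra h
  have hc : IsCoprime (p : ℤ) (j : ℤ) :=
    Nat.isCoprime_iff_coprime.2 (((Fact.out : p.Prime).coprime_iff_not_dvd).2 h)
  obtain ⟨a, b, hab⟩ := hc
  apply hy
  have := D.mul_mem (D.zpow_mem hp a) (D.zpow_mem hj b)
  rwa [← zpow_natCast, ← zpow_natCast, ← zpow_mul, ← zpow_mul, ← zpow_add, mul_comm _ a,
    mul_comm _ b, hab, zpow_one] at this

theorem coatom_facts [Finite Q] (hQ : IsPGroup p Q) {W : Subgroup Q} (hW : W ≠ ⊤) :
    ∃ C : Subgroup Q, W ≤ C ∧ C ≠ ⊤ ∧ (∀ q, q ^ p ∈ C) ∧ ∀ q q' : Q, ⁅q, q'⁆ ∈ C := by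
  obtain ⟨C, hC, hWC⟩ := (eq_top_or_exists_le_coatom W).resolve_left hW
  have := hQ.isNilpotent
  have hn : C.Normal :=
    Subgroup.NormalizerCondition.normal_of_coatom C Group.normalizerCondition_of_isNilpotent hC
  let π := QuotientGroup.mk' C
  have hgen : ∀ q, q ∉ C → ∀ x, π x ∈ Subgroup.zpowers (π q) := fun q hq x => by
    have h1 : (Subgroup.zpowers (π q)).comap π = ⊤ := hC.2 _ (lt_of_le_of_ne
      (fun c hc => by
        rw [Subgroup.mem_comap, show π c = 1 from (QuotientGroup.eq_one_iff c).2 hc]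
        exact one_mem _)
      fun h => hq (h ▸ Subgroup.mem_zpowers _))
    have : x ∈ (Subgroup.zpowers (π q)).comap π := h1 ▸ Subgroup.mem_top x
    exact this
  refine ⟨C, hWC, hC.1, fun q => ?_, fun q q' => ?_⟩
  · by_contra h
    have h1 := hgen _ h q
    rw [map_pow, mem_zpowers_pow_iff] at h1
    obtain ⟨k, hk⟩ := (IsPGroup.iff_orderOf.1 (hQ.to_quotient C)) (π q)
    rw [hk] at h1
    have h2 : k = 0 := by
      by_contra h0
      have := Nat.dvd_gcd (dvd_refl p) (dvd_pow_self p h0)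
      rw [h1] at this
      exact (Fact.out : p.Prime).one_lt.ne' (Nat.dvd_one.1 this)
    rw [h2, pow_zero, orderOf_eq_one_iff] at hk
    exact h (C.pow_mem ((QuotientGroup.eq_one_iff q).1 hk) p)
  · refine (QuotientGroup.eq_one_iff _).1 ?_
    change π _ = 1
    rw [map_commutatorElement, commutatorElement_eq_one_iff_commute]
    by_cases h : q ∈ C
    · rw [show π q = 1 from (QuotientGroup.eq_one_iff q).2 h]; exact Commute.one_left _
    · obtain ⟨k, hk⟩ := hgen q h q'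
      rw [← hk]; exact (Commute.refl _).zpow_right k

end Abstract

theorem quot_facts (hG : ProP p G) {N : Subgroup G} [hN : N.Normal] (hNo : IsOpen (N : Set G)) :
    Finite (G ⧸ N) ∧ IsPGroup p (G ⧸ N) ∧
      ∀ X : Subgroup (G ⧸ N), IsClosed ((X.comap (QuotientGroup.mk' N) : Subgroup G) : Set G) := by
  obtain ⟨k, hk⟩ := hG N hN hNo
  refine ⟨Nat.finite_of_card_ne_zero (by
    change N.index ≠ 0
    rw [hk]; exact pow_ne_zero _ (Fact.out : p.Prime).ne_zero), IsPGroup.of_card hk, fun X => ?_⟩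
  refine Subgroup.isClosed_of_isOpen _ (Subgroup.isOpen_mono (H₁ := N) (fun n hn => ?_) hNo)
  rw [Subgroup.mem_comap, show QuotientGroup.mk' N n = 1 from (QuotientGroup.eq_one_iff n).2 hn]
  exact one_mem _

/-- S0 serre: the closure of the commutator subgroup of a two-generated pro-`p` group -/
theorem serre (hG : ProP p G) (y₁ y₂ : G) {L : Subgroup G}
    (hL : (Subgroup.closure ({y₁, y₂} : Set G)).topologicalClosure = L) {c : G}
    (hc : c ∈ (⁅L, L⁆ : Subgroup G).topologicalClosure) :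
    ∃ a ∈ L, ∃ b ∈ L, c = ⁅y₁, a⁆ * ⁅y₂, b⁆ := by
  have hLc : IsClosed (L : Set G) := hL ▸ Subgroup.isClosed_topologicalClosure _
  have hcl : IsClosed ((fun q : G × G => ⁅y₁, q.1⁆ * ⁅y₂, q.2⁆) '' ((L : Set G) ×ˢ (L : Set G))) := by
    refine ((hLc.isCompact.prod hLc.isCompact).image ?_).isClosed
    simp only [commutatorElement_def]
    fun_prop
  obtain ⟨⟨a, b⟩, ⟨ha, hb⟩, h⟩ := mem_of_forall_mk hcl (x := c) fun N hN hNo => by
    obtain ⟨hfin, hP, hX⟩ := quot_facts hG hNo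
    let π := QuotientGroup.mk' N
    set Q := (Subgroup.closure ({y₁, y₂} : Set G)).map π with hQ
    have hLQ : L ≤ Q.comap π :=
      hL ▸ Subgroup.topologicalClosure_minimal _ (Subgroup.le_comap_map _ _) (hX Q)
    have h1 : π c ∈ (⁅Q, Q⁆ : Subgroup (G ⧸ N)) := by
      refine Subgroup.topologicalClosure_minimal _ ?_ (hX ⁅Q, Q⁆) hc
      rw [Subgroup.commutator_le]
      intro a ha b hb
      rw [Subgroup.mem_comap, map_commutatorElement]
      exact Subgroup.commutator_mem_commutator (hLQ ha) (hLQ hb)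
    have hy₁ : π y₁ ∈ Q := ⟨y₁, Subgroup.subset_closure (by simp), rfl⟩
    have hy₂ : π y₂ ∈ Q := ⟨y₂, Subgroup.subset_closure (by simp), rfl⟩
    have := (hP.to_subgroup Q).isNilpotent
    have h2 : (⁅Q, Q⁆ : Subgroup (G ⧸ N)) = ⁅(⊤ : Subgroup Q), (⊤ : Subgroup Q)⁆.map Q.subtype := by
      rw [Subgroup.map_commutator, ← MonoidHom.range_eq_map, Subgroup.range_subtype]
    rw [h2] at h1
    obtain ⟨c', hc', hcc⟩ := h1
    obtain ⟨⟨_, a, ha, rfl⟩, ⟨_, b, hb, rfl⟩, h⟩ :=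
      serre_nil (y₁ := (⟨_, hy₁⟩ : Q)) (y₂ := ⟨_, hy₂⟩) (by
        apply Subgroup.map_injective Q.subtype_injective
        rw [MonoidHom.map_closure, ← MonoidHom.range_eq_map, Subgroup.range_subtype,
          Set.image_pair]
        conv_rhs => rw [hQ, MonoidHom.map_closure, Set.image_pair]
        rfl) hc'
    refine ⟨_, ⟨(a, b), ⟨hL ▸ Subgroup.le_topologicalClosure _ ha,
      hL ▸ Subgroup.le_topologicalClosure _ hb⟩, rfl⟩, ?_⟩
    change π c = π _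
    rw [← hcc, h, map_mul, map_mul, map_commutatorElement, map_commutatorElement,
      map_commutatorElement, map_commutatorElement]
    rfl
  exact ⟨a, ha, b, hb, h.symm⟩

/-- S0 nak: a proper closed subgroup lies in a proper closed subgroup over the Frattini subgroup -/
theorem nak (hG : ProP p G) {W L : Subgroup G} (hW : IsClosed (W : Set G))
    (hL : IsClosed (L : Set G)) (hWL : W ≤ L) (hne : ¬ L ≤ W) :
    ∃ D : Subgroup G, IsClosed (D : Set G) ∧ W ≤ D ∧ D ≤ L ∧ ¬ L ≤ D ∧ (∀ l ∈ L, l ^ p ∈ D) ∧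
      ∀ l ∈ L, ∀ l' ∈ L, ⁅l, l'⁆ ∈ D := by
  obtain ⟨l0, hl0, hl0W⟩ := SetLike.not_le_iff_exists.1 hne
  obtain ⟨N, hN, hNo, hN'⟩ : ∃ N : Subgroup G, N.Normal ∧ IsOpen (N : Set G) ∧
      ∀ w ∈ W, (l0 : G ⧸ N) ≠ (w : G ⧸ N) := by
    by_contra h
    push Not at h
    exact hl0W (mem_of_forall_mk hW h)
  obtain ⟨hfin, hP, hX⟩ := quot_facts hG hNo
  let π := QuotientGroup.mk' N
  set Q := L.map π with hQ
  have hmem : ∀ l ∈ L, π l ∈ Q := fun l hl => ⟨l, hl, rfl⟩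
  obtain ⟨C, h1, h2, h3, h4⟩ := coatom_facts (hP.to_subgroup Q) (W := (W.map π).subgroupOf Q)
    fun h => by
      have : (⟨π l0, hmem l0 hl0⟩ : Q) ∈ (W.map π).subgroupOf Q := h ▸ Subgroup.mem_top _
      obtain ⟨w, hw, hw'⟩ := this
      exact hN' w hw hw'.symm
  refine ⟨(C.map Q.subtype).comap π ⊓ L, (hX _).inter hL, fun w hw => ⟨?_, hWL hw⟩, inf_le_right,
    fun h => h2 ?_, fun l hl => ⟨?_, L.pow_mem hl p⟩, fun l hl l' hl' => ⟨?_, ?_⟩⟩
  · exact ⟨⟨π w, hmem w (hWL hw)⟩, h1 ⟨w, hw, rfl⟩, rfl⟩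
  · rw [eq_top_iff]
    rintro ⟨_, l, hl, rfl⟩ -
    obtain ⟨c, hc, hcl⟩ := (h hl).1
    have e : c = ⟨π l, hmem l hl⟩ := Subtype.ext hcl
    exact (e ▸ hc : (⟨π l, hmem l hl⟩ : Q) ∈ C)
  · exact ⟨_, h3 ⟨π l, hmem l hl⟩, by simp⟩
  · exact ⟨_, h4 ⟨π l, hmem l hl⟩ ⟨π l', hmem l' hl'⟩, by simp [commutatorElement_def]⟩
  · exact L.mul_mem (L.mul_mem (L.mul_mem hl hl') (L.inv_mem hl)) (L.inv_mem hl')

/-- S0 gen: an element outside an abstract subgroup over the abstract Frattini subgroup is part of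
a generating pair -/
theorem gen (hG : ProP p G) (y₁ y₂ : G) {L D : Subgroup G}
    (hL : (Subgroup.closure ({y₁, y₂} : Set G)).topologicalClosure = L)
    (hpow : ∀ l ∈ L, l ^ p ∈ D) (hcom : ∀ l ∈ L, ∀ l' ∈ L, ⁅l, l'⁆ ∈ D) {n : G} (hn : n ∈ L)
    (hnD : n ∉ D) :
    (Subgroup.closure ({n, y₁} : Set G)).topologicalClosure = L ∨
      (Subgroup.closure ({n, y₂} : Set G)).topologicalClosure = L := by
  have hLc : IsClosed (L : Set G) := hL ▸ Subgroup.isClosed_topologicalClosure _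
  have h₁ : y₁ ∈ L := hL ▸ left_mem_cl2 y₁ y₂
  have h₂ : y₂ ∈ L := hL ▸ right_mem_cl2 y₁ y₂
  set C := (⁅L, L⁆ : Subgroup G).topologicalClosure with hC
  have hCc : IsClosed (C : Set G) := Subgroup.isClosed_topologicalClosure _
  have hCn : ∀ l ∈ L, ∀ c ∈ C, l * c * l⁻¹ ∈ C := fun l hl =>
    conj_cl (conj_commutator fun b hb => L.mul_mem (L.mul_mem hl hb) (L.inv_mem hl))
  obtain ⟨H₂, hH₂c, hH₂⟩ := exists_semi hG hCc (hCn y₂ h₂)
  obtain ⟨H₁, hH₁c, hH₁⟩ := exists_semi hG hH₂c (g := y₁) fun h hh => by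
    obtain ⟨c, hc, b, rfl⟩ := (hH₂ h).1 hh
    refine (hH₂ _).2 ⟨y₁ * c * y₁⁻¹ * ⁅y₁, pw hG y₂ b⁆, C.mul_mem (hCn y₁ h₁ c hc)
      (Subgroup.le_topologicalClosure _
        (Subgroup.commutator_mem_commutator h₁ (pw_mem hG hLc h₂ b))), b, ?_⟩
    simp only [commutatorElement_def]; group
  have hle : L ≤ H₁ := hL ▸ cl2_le hH₁c ((hH₁ _).2 ⟨1, one_mem _, 1, by simp⟩)
    ((hH₁ _).2 ⟨y₂, (hH₂ _).2 ⟨1, one_mem _, 1, by simp⟩, 0, by simp⟩)
  obtain ⟨_, h, a, rfl⟩ := (hH₁ n).1 (hle hn)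
  obtain ⟨c, hc, b, rfl⟩ := (hH₂ _).1 h
  obtain ⟨i, a', ha⟩ := pw_split hG y₁ a
  obtain ⟨j, b', hb⟩ := pw_split hG y₂ b
  by_contra hcon
  push Not at hcon
  have key : ∀ y ∈ L, (Subgroup.closure ({c * pw hG y₂ b * pw hG y₁ a, y} : Set G)).topologicalClosure ≠ L →
      ∃ D' : Subgroup G, IsClosed (D' : Set G) ∧ c * pw hG y₂ b * pw hG y₁ a ∈ D' ∧ y ∈ D' ∧ c ∈ D' ∧
        ¬ L ≤ D' ∧ ∀ l ∈ L, l ^ p ∈ D' := fun y hy hne => by
    obtain ⟨D', e1, e2, -, e4, e5, e6⟩ := nak hG (Subgroup.isClosed_topologicalClosure _) hLc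
      (cl2_le hLc hn hy) fun h => hne (le_antisymm (cl2_le hLc hn hy) h)
    exact ⟨D', e1, e2 (left_mem_cl2 _ _), e2 (right_mem_cl2 _ _),
      Subgroup.topologicalClosure_minimal _ (Subgroup.commutator_le.2 e6) e1 hc, e4, e5⟩
  obtain ⟨D₁, c1, n1, y1, k1, l1, p1⟩ := key y₁ h₁ hcon.1
  obtain ⟨D₂, c2, n2, y2, k2, l2, p2⟩ := key y₂ h₂ hcon.2
  obtain ⟨j, rfl⟩ : p ∣ j := by
    refine dvd_of_pow_mem (fun h => l1 (hL ▸ cl2_le c1 y1 h)) (p1 _ h₂) ?_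
    rw [D₁.mul_mem_cancel_right (pw_mem hG c1 y1 a), D₁.mul_mem_cancel_left k1, hb,
      D₁.mul_mem_cancel_right (p1 _ (pw_mem hG hLc h₂ b'))] at n1
    exact n1
  obtain ⟨i, rfl⟩ : p ∣ i := by
    refine dvd_of_pow_mem (fun h => l2 (hL ▸ cl2_le c2 h y2)) (p2 _ h₁) ?_
    rw [D₂.mul_mem_cancel_left (D₂.mul_mem k2 (pw_mem hG c2 y2 b)), ha,
      D₂.mul_mem_cancel_right (p2 _ (pw_mem hG hLc h₁ a'))] at n2
    exact n2
  apply hnD
  obtain ⟨u, hu, v, hv, rfl⟩ := serre hG y₁ y₂ hL hc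
  rw [ha, hb, pow_mul, pow_mul]
  exact D.mul_mem (D.mul_mem (D.mul_mem (hcom _ h₁ _ hu) (hcom _ h₂ _ hv))
    (D.mul_mem (D.pow_mem (hpow _ h₂) j) (hpow _ (pw_mem hG hLc h₂ b'))))
    (D.mul_mem (D.pow_mem (hpow _ h₁) i) (hpow _ (pw_mem hG hLc h₁ a')))

end Pool.Agent.Lib.MP_2dbb30_al.LL
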