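import Pool.Agent.Lib.MP_2dbb30_al.LL.Serre
import Pool.Agent.Lib.MP_2dbb30_al.LL.Tors

set_option autoImplicit false
set_option linter.unusedSectionVars false

open Topology Filter
open scoped commutatorElement

namespace Pool.Agent.Lib.MP_2dbb30_al.LL

open Pool.Agent.Lib.MP_2dbb30_al.TF

variable {p : ℕ} [Fact p.Prime] {G : Type*} [Group G] [TopologicalSpace G] [IsTopologicalGroup G]
  [CompactSpace G] [T2Space G] [TotallyDisconnectedSpace G]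

/-- K2, first half -/
theorem k2a (hG : ProP p G) (hve : HVE p G) {A : Subgroup G} (hAn : A.Normal)
    (hAc : IsClosed (A : Set G)) (hAp : ∀ a ∈ A, a ^ p = 1) {y₁ y₂ : G} (hy : y₁ ≠ 1)
    (htor : ∀ l ∈ (Subgroup.closure ({y₁, y₂} : Set G)).topologicalClosure, IsOfFinOrder l → l ∈ A) :
    (∀ l ∈ (Subgroup.closure ({y₁, y₂} : Set G)).topologicalClosure, l ∈ A → l = 1) ∨
      (∃ a ∈ A, ∃ μ : ℤ_[p], y₂ = a * pw hG y₁ μ) ∨ ∃ a ∈ A, ∃ μ : ℤ_[p], y₁ = a * pw hG y₂ μ := by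
  obtain ⟨D, f, hDL, hDn, hDi, hf, hfL, hs⟩ := hve y₁ y₂ hy
  obtain ⟨hpow, hcom, -, -⟩ := index_facts hDn hDi
  obtain ⟨hf1, -, hfp, -⟩ := hom_facts hf
  set L := (Subgroup.closure ({y₁, y₂} : Set G)).topologicalClosure with hL
  by_cases hK : L ⊓ A ≤ D
  · left
    have h0 := hs (L ⊓ A) hK
      (fun l hl k hk => ⟨L.mul_mem (L.mul_mem hl hk.1) (L.inv_mem hl), hAn.conj_mem k hk.2 l⟩)
      (fun k hk => ⟨hfL k (hK hk), htor _ (hfL k (hK hk)) (isOfFinOrder_iff_pow_eq_one.2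
        ⟨p, (Fact.out : p.Prime).pos, by rw [← hfp k (hK hk), hAp k hk.2, hf1]⟩)⟩)
    intro l hl hlA
    have : l ∈ L ⊓ A := ⟨hl, hlA⟩
    rwa [h0, Subgroup.mem_bot] at this
  · right
    obtain ⟨n, hn, hnD⟩ := SetLike.not_le_iff_exists.1 hK
    have key : ∀ y : G, (Subgroup.closure ({n, y} : Set G)).topologicalClosure = L →
        ∀ l ∈ L, ∃ a ∈ A, ∃ μ : ℤ_[p], l = a * pw hG y μ := fun y h l hl => by
      obtain ⟨W, hWc, hW⟩ := exists_semi hG hAc (g := y) fun a ha => hAn.conj_mem a ha y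
      refine (hW l).1 (cl2_le hWc ((hW n).2 ⟨n, hn.2, 0, by simp⟩)
        ((hW y).2 ⟨1, one_mem _, 1, by simp⟩) ?_)
      rwa [h]
    rcases gen hG y₁ y₂ hL.symm hpow hcom hn.1 hnD with h | h
    · exact Or.inl (key y₁ h y₂ (right_mem_cl2 y₁ y₂))
    · exact Or.inr (key y₂ h y₁ (left_mem_cl2 y₁ y₂))

/-- K2 -/
theorem k2 (hG : ProP p G) (hve : HVE p G) {A H : Subgroup G} (hAn : A.Normal)
    (hAc : IsClosed (A : Set G)) (hAp : ∀ a ∈ A, a ^ p = 1) (hA1 : A ≠ ⊥)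
    (hHc : IsClosed (H : Set G)) (hAH : A ≤ H) (htor : ∀ l ∈ H, IsOfFinOrder l → l ∈ A)
    {y₁ y₂ : G} (h₁ : y₁ ∈ H) (h₁A : y₁ ∉ A) (h₂ : y₂ ∈ H) {n : ℕ} (hz : y₂ ^ n ∉ A)
    (hcom : ⁅y₁, y₂ ^ n⁆ ∈ A) :
    (∃ a ∈ A, ∃ μ : ℤ_[p], y₂ = a * pw hG y₁ μ) ∨ ∃ a ∈ A, ∃ μ : ℤ_[p], y₁ = a * pw hG y₂ μ := by
  by_contra hcon
  obtain ⟨W₁, hW₁c, hW₁⟩ := exists_semi hG hAc (g := y₁) fun a ha => hAn.conj_mem a ha y₁
  obtain ⟨W₂, hW₂c, hW₂⟩ := exists_semi hG hAc (g := y₂) fun a ha => hAn.conj_mem a ha y₂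
  have hA₁ : ∀ a ∈ A, a ∈ W₁ := fun a ha => (hW₁ a).2 ⟨a, ha, 0, by simp⟩
  have hA₂ : ∀ a ∈ A, a ∈ W₂ := fun a ha => (hW₂ a).2 ⟨a, ha, 0, by simp⟩
  have hy₁ : y₁ ∈ W₁ := (hW₁ y₁).2 ⟨1, one_mem _, 1, by simp⟩
  have hy₂ : y₂ ∈ W₂ := (hW₂ y₂).2 ⟨1, one_mem _, 1, by simp⟩
  have key : ∀ a ∈ A, ⁅y₁ * a, y₂ ^ n⁆ = 1 := fun a ha => by
    have hne : y₁ * a ≠ 1 := fun h => h₁A (by
      rw [eq_inv_of_mul_eq_one_left h]; exact A.inv_mem ha)
    have hle := cl2_le hHc (H.mul_mem h₁ (hAH ha)) h₂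
    rcases k2a hG hve hAn hAc hAp (y₂ := y₂) hne (fun l hl => htor l (hle hl)) with
      h | ⟨b, hb, μ, h⟩ | ⟨b, hb, μ, h⟩
    · have m₁ := left_mem_cl2 (y₁ * a) y₂
      have m₂ := pow_mem (right_mem_cl2 (y₁ * a) y₂) n
      refine h _ (mul_mem (mul_mem (mul_mem m₁ m₂) (inv_mem m₁)) (inv_mem m₂)) ?_
      have e : ⁅y₁ * a, y₂ ^ n⁆ =
          y₁ * (a * (y₂ ^ n * a⁻¹ * (y₂ ^ n)⁻¹)) * y₁⁻¹ * ⁅y₁, y₂ ^ n⁆ := by
        simp only [commutatorElement_def]; group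
      rw [e]
      exact A.mul_mem (hAn.conj_mem _ (A.mul_mem ha (hAn.conj_mem _ (A.inv_mem ha) _)) _) hcom
    · refine absurd (Or.inl ((hW₁ y₂).1 ?_)) hcon
      rw [h]
      exact W₁.mul_mem (hA₁ b hb) (pw_mem hG hW₁c (W₁.mul_mem hy₁ (hA₁ a ha)) μ)
    · refine absurd (Or.inr ((hW₂ y₁).1 ?_)) hcon
      rw [← W₂.mul_mem_cancel_right (hA₂ a ha), h]
      exact W₂.mul_mem (hA₂ b hb) (pw_mem hG hW₂c hy₂ μ)
  apply hA1
  rw [eq_bot_iff]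
  intro a ha
  rw [Subgroup.mem_bot]
  refine eq_one_of_commute hG hve (hAp a ha) (x := y₂ ^ n)
    (fun h => hz (htor _ (H.pow_mem h₂ n) h)) ?_
  have c₁ : Commute y₁ (y₂ ^ n) := by
    have := key 1 A.one_mem
    rwa [mul_one, commutatorElement_eq_one_iff_commute] at this
  have c₂ : Commute (y₁ * a) (y₂ ^ n) := commutatorElement_eq_one_iff_commute.1 (key a ha)
  have := c₁.inv_left.mul_left c₂
  rwa [inv_mul_cancel_left] at this

/-- Cyc -/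
theorem cyc (hG : ProP p G) {A H : Subgroup G} (hAn : A.Normal) (hAc : IsClosed (A : Set G))
    (hHc : IsClosed (H : Set G)) (hAH : A ≤ H) (hne : ¬ H ≤ A)
    (hcmp : ∀ y₁ ∈ H, y₁ ∉ A → ∀ y₂ ∈ H, y₂ ∉ A →
      (∃ a ∈ A, ∃ μ : ℤ_[p], y₂ = a * pw hG y₁ μ) ∨ ∃ a ∈ A, ∃ μ : ℤ_[p], y₁ = a * pw hG y₂ μ) :
    ∃ e ∈ H, e ∉ A ∧ ∀ h ∈ H, ∃ a ∈ A, ∃ μ : ℤ_[p], h = a * pw hG e μ := by
  obtain ⟨e, heH, heA, he⟩ : ∃ e ∈ H, e ∉ A ∧ ∀ a ∈ A, ∀ y ∈ H, e ≠ a * y ^ p := by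
    by_contra hcon
    push Not at hcon
    obtain ⟨e, heH, heA⟩ := SetLike.not_le_iff_exists.1 hne
    let π := QuotientGroup.mk' A
    have hπ : ∀ a ∈ A, π a = 1 := fun a ha => (QuotientGroup.eq_one_iff a).2 ha
    have key : ∀ k : ℕ, ∃ y ∈ H, π e = π y ^ p ^ k := fun k => by
      induction k with
      | zero => exact ⟨e, heH, by simp⟩
      | succ k ih =>
        obtain ⟨y, hy, h⟩ := ih
        have hyA : y ∉ A := fun hyA => heA (by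
          rw [hπ y hyA, one_pow] at h
          exact (QuotientGroup.eq_one_iff e).1 h)
        obtain ⟨a, ha, w, hw, rfl⟩ := hcon y hy hyA
        exact ⟨w, hw, by rw [h, map_mul, hπ a ha, one_mul, map_pow, ← pow_mul, pow_succ']⟩
    refine heA (mem_of_forall_mk hAc fun N hN hNo => ?_)
    obtain ⟨k, hk⟩ := exists_pow_mem hG N hN hNo
    obtain ⟨y, -, h⟩ := key k
    refine ⟨e * (y ^ p ^ k)⁻¹, (QuotientGroup.eq_one_iff _).1 ?_, ?_⟩
    · change π _ = 1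
      rw [map_mul, map_inv, map_pow, h, mul_inv_cancel]
    · rw [QuotientGroup.eq, inv_mul_cancel_left]
      exact N.inv_mem (hk y)
  refine ⟨e, heH, heA, fun h hh => ?_⟩
  by_cases hA : h ∈ A
  · exact ⟨h, hA, 0, by simp⟩
  rcases hcmp e heH heA h hh hA with h' | ⟨a, ha, μ, h'⟩
  · exact h'
  by_cases hμ : IsUnit μ
  · obtain ⟨W, hWc, hW⟩ := exists_semi hG hAc (g := e) fun a ha => hAn.conj_mem a ha e
    obtain ⟨ν, hν⟩ := hμ.exists_right_inv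
    have h1 : pw hG h μ ∈ W := (hW _).2 ⟨a⁻¹, A.inv_mem ha, 1, by
      rw [pw_one, h', inv_mul_cancel_left]⟩
    have h2 := pw_mem hG hWc h1 ν
    rw [← pw_mul, hν, pw_one] at h2
    exact (hW h).1 h2
  · obtain ⟨ν, rfl⟩ := (PadicInt.norm_lt_one_iff_dvd μ).1 (PadicInt.not_isUnit_iff.1 hμ)
    exact absurd (by rw [pw_pow, mul_comm ν]; exact h') (he a ha _ (pw_mem hG hHc hh ν))

/-- a maximal abelian normal subgroup modulo `A` -/
theorem exists_E [Group.IsSolvable G] {A : Subgroup G} (hAn : A.Normal)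
    (hAc : IsClosed (A : Set G)) (hne : A ≠ ⊤) :
    ∃ E : Subgroup G, E.Normal ∧ IsClosed (E : Set G) ∧ A ≤ E ∧ ¬ E ≤ A ∧
      ∀ a ∈ E, ∀ b ∈ E, ⁅a, b⁆ ∈ A := by
  classical
  have hex : ∃ n, derivedSeries G n ≤ A := by
    obtain ⟨n, hn⟩ := Group.IsSolvable.solvable (G := G)
    exact ⟨n, hn ▸ bot_le⟩
  obtain ⟨m, hm⟩ : ∃ m, Nat.find hex = m + 1 := Nat.exists_eq_succ_of_ne_zero fun h => by
    have := Nat.find_spec hex
    rw [h, derivedSeries_zero] at this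
    exact hne (top_le_iff.1 this)
  have h1 : derivedSeries G (m + 1) ≤ A := hm ▸ Nat.find_spec hex
  have h2 : ¬ derivedSeries G m ≤ A := Nat.find_min hex (by omega)
  have hSn : (derivedSeries G m).Normal := derivedSeries_normal G m
  set S := derivedSeries G m with hS
  let π := QuotientGroup.mk' A
  have hπ : ∀ b ∈ S ⊔ A, ∃ s ∈ S, π s = π b := fun b hb => by
    have : S ⊔ A ≤ (S.map π).comap π := sup_le (Subgroup.le_comap_map _ _) fun a ha => by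
      rw [Subgroup.mem_comap, show π a = 1 from (QuotientGroup.eq_one_iff a).2 ha]
      exact one_mem _
    exact this hb
  have hB : ∀ a ∈ S ⊔ A, ∀ b ∈ S ⊔ A, ⁅a, b⁆ ∈ A := fun a ha b hb => by
    obtain ⟨s, hs, e1⟩ := hπ a ha
    obtain ⟨t, ht, e2⟩ := hπ b hb
    refine (QuotientGroup.eq_one_iff _).1 ?_
    change π _ = 1
    rw [map_commutatorElement, ← e1, ← e2, ← map_commutatorElement]
    exact (QuotientGroup.eq_one_iff _).2 (h1 (Subgroup.commutator_mem_commutator hs ht))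
  have hB' : ∀ b ∈ S ⊔ A, ∀ a ∈ (S ⊔ A).topologicalClosure, ⁅a, b⁆ ∈ A := fun b hb a ha => by
    have hc : IsClosed {x : G | ⁅x, b⁆ ∈ A} := hAc.preimage (f := fun x : G => ⁅x, b⁆) (by
      simp only [commutatorElement_def]; fun_prop)
    exact closure_minimal (fun x hx => hB x hx b hb) hc ha
  refine ⟨(S ⊔ A).topologicalClosure, Subgroup.is_normal_topologicalClosure _,
    Subgroup.isClosed_topologicalClosure _, le_sup_right.trans (Subgroup.le_topologicalClosure _),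
    fun h => h2 (le_sup_left.trans ((Subgroup.le_topologicalClosure _).trans h)),
    fun a ha b hb => ?_⟩
  have hc : IsClosed {x : G | ⁅a, x⁆ ∈ A} := hAc.preimage (f := fun x : G => ⁅a, x⁆) (by
    simp only [commutatorElement_def]; fun_prop)
  exact closure_minimal (fun x hx => hB' x hx a ha) hc hb

end Pool.Agent.Lib.MP_2dbb30_al.LL
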