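import Pool.Agent.Lib.MP_2dbb30_al.LL.StructA
import Pool.Agent.Lib.MP_2dbb30_al.LL.NA

set_option autoImplicit false
set_option linter.unusedSectionVars false

open Topology Filter
open scoped commutatorElement

namespace Pool.Agent.Lib.MP_2dbb30_al.LL

open Pool.Agent.Lib.MP_2dbb30_al.TF

variable {p : ℕ} [Fact p.Prime] {G : Type*} [Group G] [TopologicalSpace G] [IsTopologicalGroup G]
  [CompactSpace G] [T2Space G] [TotallyDisconnectedSpace G]

theorem eq_one_of_pow_odd (h2 : p ≠ 2) {l : ℤ_[p]} (hl : l ^ p = 1) : l = 1 := by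
  have hp : p.Prime := Fact.out
  by_contra h1
  obtain ⟨b, hb⟩ : (p : ℤ_[p]) ∣ l - 1 := by
    rw [← Ideal.mem_span_singleton, ← PadicInt.maximalIdeal_eq_span_p, ← PadicInt.ker_toZMod,
      RingHom.mem_ker, map_sub, map_one, ← ZMod.pow_card (PadicInt.toZMod l), ← map_pow, hl,
      map_one, sub_self]
  have h3 := odd_sq_dvd_geom_sum₂_sub (1 : ℤ_[p]) b (hp.odd_of_ne_two h2)
  have h4 : (1 : ℤ_[p]) + p * b = l := by rw [← hb]; ring
  simp only [h4, one_pow, mul_one] at h3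
  have h5 := geom_sum_mul l p
  rw [hl, sub_self, mul_eq_zero, sub_eq_zero] at h5
  rw [h5.resolve_right h1, zero_sub, dvd_neg, sq] at h3
  have h6 : (p : ℤ_[p]) ∣ 1 :=
    (mul_dvd_mul_iff_left (Nat.cast_ne_zero.2 hp.ne_zero)).1 (by simpa using h3)
  exact PadicInt.irreducible_p.not_isUnit (isUnit_of_dvd_one h6)

theorem pw_mul_left (hG : ProP p G) {A : Subgroup G} (hAn : A.Normal) (hAc : IsClosed (A : Set G))
    {a : G} (ha : a ∈ A) (y : G) (μ : ℤ_[p]) : ∃ a' ∈ A, pw hG (a * y) μ = a' * pw hG y μ := by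
  refine ⟨pw hG (a * y) μ * (pw hG y μ)⁻¹, ?_, by group⟩
  refine padic_nat_ind (P := fun μ => pw hG (a * y) μ * (pw hG y μ)⁻¹ ∈ A)
    (hAc.preimage ((continuous_pw hG _).mul (continuous_pw hG y).inv)) (fun n => ?_) μ
  obtain ⟨m, hm, h⟩ := mul_pow_left (fun m hm => hAn.conj_mem m hm y) ha n
  rw [pw_natCast, pw_natCast, h]
  simpa using hm

/-- S3: with `A` self-centralising of exponent `p`, the group is `A · cl⟨x⟩` -/
theorem struct [Group.IsSolvable G] (hG : ProP p G) (hve : HVE p G) (h3 : HVE3 p G)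
    {A : Subgroup G} (hAn : A.Normal) (hAc : IsClosed (A : Set G)) (hAp : ∀ a ∈ A, a ^ p = 1)
    (hA1 : A ≠ ⊥) (hC : ∀ g, g ∈ A ↔ ∀ a ∈ A, g * a = a * g) {x₀ : G} (hx₀ : ¬ IsOfFinOrder x₀) :
    ∃ x : G, ¬ IsOfFinOrder x ∧ ∀ g : G, ∃ a ∈ A, ∃ μ : ℤ_[p], g = a * pw hG x μ := by
  have hp : p.Prime := Fact.out
  have hfin : ∀ g : G, ∀ n : ℕ, 0 < n → g ^ n ∈ A → IsOfFinOrder g := fun g n hn h =>
    isOfFinOrder_iff_pow_eq_one.2 ⟨n * p, mul_pos hn hp.pos, by rw [pow_mul, hAp _ h]⟩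
  have hx₀A : x₀ ∉ A := fun h => hx₀ (hfin x₀ 1 one_pos (by simpa using h))
  let π := QuotientGroup.mk' A
  have hπ : ∀ g, π g = 1 ↔ g ∈ A := fun g => QuotientGroup.eq_one_iff g
  have hπc : ∀ a b : G, ⁅a, b⁆ ∈ A ↔ Commute (π a) (π b) := fun a b => by
    rw [← hπ, map_commutatorElement, commutatorElement_eq_one_iff_commute]
  obtain ⟨E, hEn, hEc, hAE, hEA, hEab⟩ := exists_E hAn hAc fun h => hx₀A (h ▸ Subgroup.mem_top _)
  have htorE : ∀ l ∈ E, IsOfFinOrder l → l ∈ A := by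
    let T : Subgroup G :=
      { carrier := {e | e ∈ E ∧ e ^ p ∈ A}
        one_mem' := ⟨one_mem _, by simp⟩
        mul_mem' := fun {a b} ha hb => ⟨mul_mem ha.1 hb.1, by
          rw [← hπ, map_pow, map_mul, ((hπc a b).1 (hEab a ha.1 b hb.1)).mul_pow, ← map_pow,
            ← map_pow, (hπ _).2 ha.2, (hπ _).2 hb.2, one_mul]⟩
        inv_mem' := fun {a} ha => ⟨inv_mem ha.1, by rw [inv_pow]; exact inv_mem ha.2⟩ }
    have hT := abelian_of_exp hG hve h3 (N := T) (hEc.inter (hAc.preimage (continuous_pow p)))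
      (fun n hn => pow_p hG hve (hfin n p hp.pos hn.2)) hx₀
      fun n hn => ⟨hEn.conj_mem n hn.1 x₀, by rw [conj_pow]; exact hAn.conj_mem _ hn.2 x₀⟩
    exact fun l hl hf => (hC l).2 fun a ha => hT l ⟨hl, by rw [pow_p hG hve hf]; exact one_mem _⟩
      a ⟨hAE ha, A.pow_mem ha p⟩
  obtain ⟨e, heE, heA, hE⟩ := cyc hG hAn hAc hEc hAE hEA fun y₁ h₁ h₁A y₂ h₂ h₂A =>
    k2 hG hve hAn hAc hAp hA1 hEc hAE htorE h₁ h₁A h₂ (n := 1) (by simpa using h₂A)
      (by simpa using hEab y₁ h₁ y₂ h₂)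
  have he : ¬ IsOfFinOrder e := fun h => heA (htorE e heE h)
  have he0 : ∀ s, pw hG e s ∈ A → s = 0 := fun s hs => by
    by_contra h
    exact not_fin_pw hG he h (hfin _ 1 one_pos (by simpa using hs))
  have htor : ∀ q : G, IsOfFinOrder q → q ∈ A := by
    intro q hq
    have hqp := pow_p hG hve hq
    obtain ⟨N, hNc, hN⟩ := exists_semi hG hAc (g := q) fun n hn => hAn.conj_mem n hn q
    have hNp : ∀ n ∈ N, n ^ p = 1 := fun n hn => by
      obtain ⟨a, ha, μ, rfl⟩ := (hN n).1 hn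
      obtain ⟨m, hm, h⟩ := mul_pow_left (fun m hm => hAn.conj_mem m hm (pw hG q μ)) ha p
      refine pow_p hG hve (hfin _ p hp.pos ?_)
      rwa [h, pw_pow, mul_comm μ, ← pow_pw, hqp, one_pw, mul_one]
    have hqN : q ∈ N := (hN q).2 ⟨1, one_mem _, 1, by simp⟩
    have hAN : A ≤ N := fun a ha => (hN a).2 ⟨a, ha, 0, by simp⟩
    refine (hC q).2 fun a ha => ?_
    by_cases h2 : p = 2
    · subst h2
      have e1 : ∀ n ∈ N, n⁻¹ = n := fun n hn =>
        inv_eq_of_mul_eq_one_right (by rw [← sq]; exact hNp n hn)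
      rw [← e1 _ (N.mul_mem hqN (hAN ha)), mul_inv_rev, e1 q hqN, e1 a (hAN ha)]
    obtain ⟨b, hb, l, hl⟩ := hE _ (hEn.conj_mem e heE q)
    have h4 : ∀ n : ℕ, ∃ c ∈ A, q ^ n * e * (q ^ n)⁻¹ = c * pw hG e (l ^ n) := fun n => by
      induction n with
      | zero => exact ⟨1, one_mem _, by simp⟩
      | succ n ih =>
        obtain ⟨c, hc, h⟩ := ih
        obtain ⟨c', hc', h'⟩ := pw_mul_left hG hAn hAc hb (pw hG e l) (l ^ n)
        refine ⟨q * c * q⁻¹ * c', mul_mem (hAn.conj_mem c hc q) hc', ?_⟩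
        rw [← hl, pw_conj, ← pw_mul, ← pow_succ'] at h'
        calc _ = q * (q ^ n * e * (q ^ n)⁻¹) * q⁻¹ := by rw [pow_succ']; group
          _ = q * c * q⁻¹ * (q * pw hG e (l ^ n) * q⁻¹) := by rw [h]; group
          _ = _ := by rw [h', mul_assoc (q * c * q⁻¹)]
    obtain ⟨c, hc, h5⟩ := h4 p
    have h6 : l = 1 := by
      refine eq_one_of_pow_odd h2 (sub_eq_zero.1 (he0 (1 - l ^ p) ?_)).symm
      rw [hqp, one_mul, inv_one, mul_one, ← mul_inv_eq_iff_eq_mul] at h5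
      rwa [pw_sub, pw_one, h5]
    rw [h6, pw_one] at hl
    have h7 : e * q * e⁻¹ = b⁻¹ * q := by
      calc e * q * e⁻¹ = b⁻¹ * (b * e) * q * e⁻¹ := by group
        _ = _ := by rw [← hl]; group
    refine abelian_of_exp hG hve h3 hNc hNp he (fun n hn => ?_) q hqN a (hAN ha)
    obtain ⟨a', ha', μ, rfl⟩ := (hN n).1 hn
    have h8 : e * (a' * pw hG q μ) * e⁻¹ = e * a' * e⁻¹ * pw hG (b⁻¹ * q) μ := by
      rw [← h7, pw_conj]; group
    rw [h8]
    exact N.mul_mem (hAN (hAn.conj_mem a' ha' e))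
      (pw_mem hG hNc (N.mul_mem (hAN (A.inv_mem hb)) hqN) μ)
  have hcmp : ∀ q : G, q ∉ A → (∃ a ∈ A, ∃ μ : ℤ_[p], q = a * pw hG e μ) ∨
      ∃ a ∈ A, ∃ μ : ℤ_[p], e = a * pw hG q μ := by
    intro q hq
    by_contra hcon
    obtain ⟨b, hb, l, hl⟩ := hE _ (hEn.conj_mem e heE q)
    have hea : ∀ a : G, e * a = e * a * e⁻¹ * e := fun a => by group
    have h4 : ∀ a ∈ A, q * (e * a) * q⁻¹ = pw hG (e * a) l := fun a ha => by
      obtain ⟨c, hc, hc'⟩ := pw_mul_left hG hAn hAc (hAn.conj_mem a ha e) e l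
      rw [← hea] at hc'
      rcases k2a hG hve hAn hAc hAp (y₁ := e * a) (y₂ := q)
        (fun h => heA (by rw [eq_inv_of_mul_eq_one_left h]; exact A.inv_mem ha))
        (fun l _ hl => htor l hl) with h | ⟨a', ha', μ, h⟩ | ⟨a', ha', μ, h⟩
      · rw [← mul_inv_eq_one]
        have hcl := (Subgroup.closure ({e * a, q} : Set G)).isClosed_topologicalClosure
        refine h _ (mul_mem (mul_mem (mul_mem (right_mem_cl2 _ _) (left_mem_cl2 _ _))
          (inv_mem (right_mem_cl2 _ _))) (inv_mem (pw_mem hG hcl (left_mem_cl2 _ _) l))) ?_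
        have : q * (e * a) * q⁻¹ * (pw hG (e * a) l)⁻¹ =
            b * (pw hG e l * (q * a * q⁻¹) * (pw hG e l)⁻¹) * c⁻¹ := by
          rw [hc']
          calc _ = q * e * q⁻¹ * (q * a * q⁻¹) * (c * pw hG e l)⁻¹ := by group
            _ = _ := by rw [hl]; group
        rw [this]
        exact mul_mem (mul_mem hb (hAn.conj_mem _ (hAn.conj_mem a ha q) _)) (inv_mem hc)
      · obtain ⟨c', hc1, hc2⟩ := pw_mul_left hG hAn hAc (hAn.conj_mem a ha e) e μ
        rw [← hea] at hc2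
        exact absurd (Or.inl ⟨a' * c', mul_mem ha' hc1, μ, by rw [mul_assoc, ← hc2, ← h]⟩) hcon
      · refine absurd (Or.inr ⟨a' * (pw hG q μ * a⁻¹ * (pw hG q μ)⁻¹),
          mul_mem ha' (hAn.conj_mem _ (inv_mem ha) _), μ, ?_⟩) hcon
        calc e = e * a * a⁻¹ := by group
          _ = _ := by rw [h]; group
    have h5 : q * e * q⁻¹ = pw hG e l := by simpa using h4 1 (one_mem _)
    have h6 : ∀ a ∈ A, q * a * q⁻¹ = (pw hG e l)⁻¹ * pw hG (e * a) l := fun a ha => by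
      rw [← h4 a ha, ← h5]; group
    have h7 : (e * q)⁻¹ * (q * e) ∈ A := (hC _).2 fun a ha => by
      have e1 := h6 _ (hAn.conj_mem a ha e)
      have e2 : e * (e * a * e⁻¹) = e * (e * a) * e⁻¹ := by group
      have e3 := (commute_pw_left hG (Commute.refl e) l).inv_left.eq
      rw [e2, pw_conj, ← mul_assoc, ← mul_assoc (pw hG e l)⁻¹, ← mul_assoc (pw hG e l)⁻¹, e3,
        mul_assoc e (pw hG e l)⁻¹, ← h6 a ha] at e1
      calc _ = (e * q)⁻¹ * (q * (e * a) * e⁻¹ * q⁻¹) * (q * e) := by group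
        _ = _ := by rw [e1]; group
    have h8 : l = 1 := by
      refine sub_eq_zero.1 (he0 (l - 1) ?_)
      have := hAn.conj_mem _ h7 (e * q)
      rw [pw_sub, pw_one, ← h5]
      convert this using 1
      group
    refine hq ((hC q).2 fun a ha => ?_)
    have := h6 a ha
    rw [h8, pw_one, pw_one, inv_mul_cancel_left] at this
    exact mul_inv_eq_iff_eq_mul.1 this
  have hcen : ∀ q : G, ⁅q, e⁆ ∈ A := fun q => by
    rw [hπc]
    by_cases hq : q ∈ A
    · rw [(hπ q).2 hq]; exact Commute.one_left _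
    rcases hcmp q hq with ⟨a, ha, μ, h⟩ | ⟨a, ha, μ, h⟩
    · rw [h, map_mul, (hπ a).2 ha, one_mul]
      exact (commute_pw_left hG (Commute.refl e) μ).map π
    · rw [h, map_mul, (hπ a).2 ha, one_mul]
      exact (commute_pw_left hG (Commute.refl q) μ).symm.map π
  have hcenE : ∀ q : G, ∀ z ∈ E, ⁅q, z⁆ ∈ A := fun q z hz => by
    obtain ⟨a, ha, ν, rfl⟩ := hE z hz
    rw [hπc, map_mul, (hπ a).2 ha, one_mul, ← hπc]
    obtain ⟨c, hc, h⟩ := pw_mul_left hG hAn hAc (hcen q) e ν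
    rw [commutatorElement_def, inv_mul_cancel_right, pw_conj] at h
    rw [commutatorElement_def, h]
    simpa using hc
  have hpowE : ∀ q : G, q ∉ A → ∃ n : ℕ, 0 < n ∧ q ^ n ∈ E := fun q hq => by
    rcases hcmp q hq with ⟨a, ha, μ, h⟩ | ⟨a, ha, μ, h⟩
    · exact ⟨1, one_pos, by rw [pow_one, h]; exact mul_mem (hAE ha) (pw_mem hG hEc heE μ)⟩
    · have hμ : μ ≠ 0 := fun h0 => heA (by rw [h, h0]; simpa using ha)
      have h1 : pw hG q μ ∈ E := (E.mul_mem_cancel_left (hAE ha)).1 (h ▸ heE)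
      have h2 : ((p ^ μ.valuation : ℕ) : ℤ_[p]) = μ * ((PadicInt.unitCoeff hμ)⁻¹ : ℤ_[p]ˣ) := by
        rw [Units.eq_mul_inv_iff_mul_eq, mul_comm]
        push_cast
        exact (PadicInt.unitCoeff_spec hμ).symm
      refine ⟨p ^ μ.valuation, pow_pos hp.pos _, ?_⟩
      rw [← pw_natCast hG, h2, pw_mul]
      exact pw_mem hG hEc h1 _
  obtain ⟨x, -, hxA, hx⟩ := cyc hG (H := ⊤) hAn hAc isClosed_univ le_top
    (fun h => hx₀A (h (Subgroup.mem_top _))) fun y₁ h₁ h₁A y₂ h₂ h₂A => by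
      obtain ⟨n, hn, h⟩ := hpowE y₂ h₂A
      exact k2 hG hve (H := ⊤) hAn hAc hAp hA1 isClosed_univ le_top (fun l _ hl => htor l hl)
        h₁ h₁A h₂ (fun h' => h₂A (htor _ (hfin _ n hn h'))) (hcenE y₁ _ h)
  exact ⟨x, fun h => hxA (htor x h), fun g => hx g (Subgroup.mem_top g)⟩

end Pool.Agent.Lib.MP_2dbb30_al.LL
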