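import Pool.Agent.Lib.MP_2dbb30_al.LL.Serre
import Pool.Agent.Lib.MP_2dbb30_al.LL.Tors

set_option autoImplicit false
set_option linter.unusedSectionVars false

open Topology Filter
open scoped commutatorElement

namespace Pool.Agent.Lib.MP_2dbb30_al.LL

open Pool.Agent.Lib.MP_2dbb30_al.TF

variable {p : ℕ} [Fact p.Prime] {G : Type*} [Group G] [TopologicalSpace G] [IsTopologicalGroup G]
  [CompactSpace G] [T2Space G] [TotallyDisconnectedSpace G]

theorem mul_pow_left {M : Subgroup G} {y : G} (hy : ∀ m ∈ M, y * m * y⁻¹ ∈ M) {m : G}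
    (hm : m ∈ M) (n : ℕ) : ∃ m' ∈ M, (m * y) ^ n = m' * y ^ n := by
  induction n with
  | zero => exact ⟨1, M.one_mem, by simp⟩
  | succ n ih =>
    obtain ⟨m', hm', h⟩ := ih
    refine ⟨m * (y * m' * y⁻¹), M.mul_mem hm (hy m' hm'), ?_⟩
    rw [pow_succ', h, pow_succ']; group

theorem mul_pow_right {K : Subgroup G} {m : G} (hm : ∀ k ∈ K, m⁻¹ * k * m⁻¹⁻¹ ∈ K) {k : G}
    (hk : k ∈ K) (n : ℕ) : ∃ k' ∈ K, (m * k) ^ n = m ^ n * k' := by
  induction n with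
  | zero => exact ⟨1, K.one_mem, by simp⟩
  | succ n ih =>
    obtain ⟨k', hk', h⟩ := ih
    refine ⟨m⁻¹ * k' * m⁻¹⁻¹ * k, K.mul_mem (hm k' hk') hk, ?_⟩
    rw [pow_succ, h, pow_succ]; group

/-- a subgroup all of whose abelian `L`-invariant subgroups are trivial is trivial -/
theorem eq_bot_of_abelian [Group.IsSolvable G] {L M : Subgroup G}
    (hM : ∀ l ∈ L, ∀ m ∈ M, l * m * l⁻¹ ∈ M)
    (h : ∀ B : Subgroup G, B ≤ M → (∀ l ∈ L, ∀ b ∈ B, l * b * l⁻¹ ∈ B) →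
      (∀ a ∈ B, ∀ b ∈ B, a * b = b * a) → B = ⊥) : M = ⊥ := by
  let S : ℕ → Subgroup G := fun k => Nat.rec M (fun _ T => ⁅T, T⁆) k
  have hSs : ∀ k, S (k + 1) = ⁅S k, S k⁆ := fun _ => rfl
  have hSn : ∀ k, ∀ l ∈ L, ∀ b ∈ S k, l * b * l⁻¹ ∈ S k := by
    intro k
    induction k with
    | zero => exact hM
    | succ k ih => exact fun l hl => conj_commutator (ih l hl)
  have hSM : ∀ k, S k ≤ M := by
    intro k
    induction k with
    | zero => exact le_rfl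
    | succ k ih =>
      rw [hSs, Subgroup.commutator_le]
      intro a ha b hb
      exact M.mul_mem (M.mul_mem (M.mul_mem (ih ha) (ih hb)) (M.inv_mem (ih ha))) (M.inv_mem (ih hb))
  have hSd : ∀ k, S k ≤ derivedSeries G k := by
    intro k
    induction k with
    | zero => exact le_top
    | succ k ih => rw [hSs, derivedSeries_succ]; exact Subgroup.commutator_mono ih ih
  obtain ⟨k, hk⟩ := Group.IsSolvable.solvable (G := G)
  have h1 : S k = ⊥ := eq_bot_iff.2 (hk ▸ hSd k)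
  clear hk
  induction k with
  | zero => exact h1
  | succ k ih =>
    refine ih (h _ (hSM k) (hSn k) fun a ha b hb => ?_)
    have : ⁅a, b⁆ ∈ S (k + 1) := Subgroup.commutator_mem_commutator ha hb
    rwa [h1, Subgroup.mem_bot, commutatorElement_eq_one_iff_mul_comm] at this

/-- Lemma U -/
theorem comm_conj [Group.IsSolvable G] (hG : ProP p G) (hve : HVE p G) {N : Subgroup G}
    (hN : IsClosed (N : Set G)) (hNp : ∀ n ∈ N, n ^ p = 1) {g : G} (hg : ¬ IsOfFinOrder g)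
    (hgN : ∀ n ∈ N, g * n * g⁻¹ ∈ N) {u : G} (hu : u ∈ N) : Commute u (g * u * g⁻¹) := by
  classical
  have hp : p.Prime := Fact.out
  have hfin : ∀ x : G, x ^ p = 1 → IsOfFinOrder x :=
    fun x hx => isOfFinOrder_iff_pow_eq_one.2 ⟨p, hp.pos, hx⟩
  by_cases hu1 : u = 1
  · simp [hu1]
  obtain ⟨D, f, hDL, hDn, hDi, hf, hfL, hs⟩ := hve u g hu1
  set L := (Subgroup.closure ({u, g} : Set G)).topologicalClosure with hL
  have hLc : IsClosed (L : Set G) := Subgroup.isClosed_topologicalClosure _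
  have huL : u ∈ L := Subgroup.le_topologicalClosure _ (Subgroup.subset_closure (by simp))
  have hgL : g ∈ L := Subgroup.le_topologicalClosure _ (Subgroup.subset_closure (by simp))
  have hmin : ∀ a b : G, ∀ W : Subgroup G, IsClosed (W : Set G) → a ∈ W → b ∈ W →
      (Subgroup.closure ({a, b} : Set G)).topologicalClosure ≤ W := fun a b W hW h1 h2 => by
    refine Subgroup.topologicalClosure_minimal _ ?_ hW
    rw [Subgroup.closure_le]
    rintro x (rfl | rfl)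
    exacts [h1, h2]
  set M := L ⊓ N with hM
  have hMc : IsClosed (M : Set G) := hLc.inter hN
  have hMp : ∀ m ∈ M, m ^ p = 1 := fun m hm => hNp m hm.2
  have huM : u ∈ M := ⟨huL, hu⟩
  have hgM : ∀ m ∈ M, g * m * g⁻¹ ∈ M := fun m hm =>
    ⟨L.mul_mem (L.mul_mem hgL hm.1) (L.inv_mem hgL), hgN m hm.2⟩
  have hdec0 : ∀ l ∈ L, ∃ m ∈ M, ∃ a : ℤ_[p], l = m * pw hG g a := by
    obtain ⟨H, hHc, hH⟩ := exists_semi hG hMc hgM
    exact fun l hl => (hH l).1 (hmin u g H hHc ((hH u).2 ⟨u, huM, 0, by simp⟩)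
      ((hH g).2 ⟨1, M.one_mem, 1, by simp⟩) hl)
  have hLM : ∀ l ∈ L, ∀ m ∈ M, l * m * l⁻¹ ∈ M := fun l hl m hm => by
    obtain ⟨m', hm', a, rfl⟩ := hdec0 l hl
    have := M.mul_mem (M.mul_mem hm' (conj_pw hG hMc hgM a hm)) (M.inv_mem hm')
    convert this using 1
    group
  have htor : ∀ l ∈ L, l ^ p = 1 → l ∈ M := fun l hl h => by
    obtain ⟨m, hm, a, rfl⟩ := hdec0 l hl
    by_cases ha : a = 0
    · simpa [ha] using hm
    · exact absurd (hfin _ h) (not_fin_semi hG hMc hMp hg hgM hm ha)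
  obtain ⟨hpow, hcom, hgen, -⟩ := index_facts hDn hDi
  have hf1 : f 1 = 1 := by
    have := hf 1 D.one_mem 1 D.one_mem
    rw [mul_one] at this
    exact (mul_eq_left.1 this.symm)
  have hfi : ∀ d ∈ D, f d⁻¹ = (f d)⁻¹ := fun d hd => by
    apply eq_inv_of_mul_eq_one_left
    rw [← hf _ (D.inv_mem hd) _ hd, inv_mul_cancel, hf1]
  have hfp : ∀ d ∈ D, ∀ n : ℕ, f (d ^ n) = f d ^ n := fun d hd n => by
    induction n with
    | zero => simpa using hf1
    | succ n ih => rw [pow_succ, hf _ (D.pow_mem hd n) _ hd, ih, pow_succ]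
  have hfc : ∀ d ∈ D, ∀ k ∈ D, f (d * k * d⁻¹) = f d * f k * (f d)⁻¹ := fun d hd k hk => by
    rw [hf _ (D.mul_mem hd hk) _ (D.inv_mem hd), hf _ hd _ hk, hfi d hd]
  have hfM : ∀ m ∈ M, m ∈ D → f m ∈ M := fun m hm hd =>
    htor _ (hfL m hd) (by rw [← hfp m hd, hMp m hm, hf1])
  -- invariance of a generated subgroup
  have hcl : ∀ T : Set G, (∀ t ∈ T, t ∈ D) → (∀ l ∈ L, ∀ t ∈ T, l * t * l⁻¹ ∈ T) →
      ((∀ l ∈ L, ∀ k ∈ Subgroup.closure T, l * k * l⁻¹ ∈ Subgroup.closure T) →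
        ∀ t ∈ T, f t ∈ Subgroup.closure T) → ∀ t ∈ T, t = 1 := by
    intro T h1 h2 h3 t ht
    have hle : Subgroup.closure T ≤ D := (Subgroup.closure_le _).2 h1
    have hn : ∀ l ∈ L, ∀ k ∈ Subgroup.closure T, l * k * l⁻¹ ∈ Subgroup.closure T := by
      intro l hl k hk
      induction hk using Subgroup.closure_induction with
      | mem x hx => exact Subgroup.subset_closure (h2 l hl x hx)
      | one => simp
      | mul x y _ _ hx hy => simpa [mul_assoc] using mul_mem hx hy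
      | inv x _ hx => simpa [mul_assoc] using inv_mem hx
    have := hs _ hle hn fun k hk => by
      induction hk using Subgroup.closure_induction with
      | mem x hx => exact h3 hn x hx
      | one => rw [hf1]; exact one_mem _
      | mul x y hx' hy' hx hy => rw [hf _ (hle hx') _ (hle hy')]; exact mul_mem hx hy
      | inv x hx' hx => rw [hfi _ (hle hx')]; exact inv_mem hx
    have h4 : t ∈ Subgroup.closure T := Subgroup.subset_closure ht
    rwa [this, Subgroup.mem_bot] at h4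
  obtain ⟨m0, hm0, hm0D⟩ : ∃ m0 ∈ M, m0 ∉ D := by
    by_contra h
    push Not at h
    have := hs M h hLM fun m hm => hfM m hm (h m hm)
    exact hu1 (by rwa [this, Subgroup.mem_bot] at huM)
  obtain ⟨i0, hg'D⟩ := hgen m0 hm0.1 hm0D g hgL
  set g' := (m0 ^ i0)⁻¹ * g with hg'
  have hg'L : g' ∈ L := hDL hg'D
  have hg'f : ¬ IsOfFinOrder g' := by
    simpa using not_fin_semi hG hMc hMp hg hgM (M.inv_mem (M.pow_mem hm0 i0)) one_ne_zero
  have hg'M : ∀ m ∈ M, g' * m * g'⁻¹ ∈ M := hLM g' hg'L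
  have hdec : ∀ l ∈ L, ∃ m ∈ M, ∃ a : ℤ_[p], l = m * pw hG g' a := by
    obtain ⟨H, hHc, hH⟩ := exists_semi hG hMc hg'M
    exact fun l hl => (hH l).1 (hmin u g H hHc ((hH u).2 ⟨u, huM, 0, by simp⟩)
      ((hH g).2 ⟨m0 ^ i0, M.pow_mem hm0 i0, 1, by simp [hg']⟩) hl)
  have hpwL : ∀ a, pw hG g' a ∈ L := pw_mem hG hLc hg'L
  have hpwD : ∀ a, pw hG g' a ∈ D := fun a => by
    obtain ⟨i, b, h⟩ := pw_split hG g' a
    rw [h]
    exact D.mul_mem (D.pow_mem hg'D i) (hpow _ (hpwL b))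
  obtain ⟨m1, hm1, s, hs1⟩ := hdec _ (hfL g' hg'D)
  by_cases hsu : IsUnit s
  swap
  · exfalso
    obtain ⟨s', rfl⟩ : (p : ℤ_[p]) ∣ s := by
      rw [← PadicInt.norm_lt_one_iff_dvd]
      exact PadicInt.not_isUnit_iff.1 hsu
    obtain ⟨H, -, hH⟩ := exists_semi hG hMc (hLM _ (L.pow_mem hg'L p))
    have hH' : ∀ h, h ∈ H ↔ ∃ m ∈ M, ∃ a : ℤ_[p], h = m * pw hG g' a ^ p := fun h => by
      simp only [hH, pow_pw, pw_pow, mul_comm (p : ℤ_[p])]
    have c1 : ∀ l ∈ L, l ^ p ∈ H := fun l hl => by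
      obtain ⟨m, hm, a, rfl⟩ := hdec l hl
      obtain ⟨m', hm', h⟩ := mul_pow_left (hLM _ (hpwL a)) hm p
      exact (hH' _).2 ⟨m', hm', a, h⟩
    have c2 : ∀ d ∈ D, f d ∈ H := fun d hd => by
      obtain ⟨m, hm, a, rfl⟩ := hdec d (hDL hd)
      have hmD : m ∈ D := (D.mul_mem_cancel_right (hpwD a)).1 hd
      obtain ⟨i, b, h⟩ := pw_split hG g' a
      rw [hf _ hmD _ (hpwD a), h, hf _ (D.pow_mem hg'D i) _ (D.pow_mem (hpwD b) p), hfp _ hg'D,
        hfp _ (hpwD b)]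
      refine H.mul_mem ((hH _).2 ⟨_, hfM m hm hmD, 0, by simp⟩)
        (H.mul_mem (H.pow_mem ((hH' _).2 ⟨m1, hm1, s', ?_⟩) i) (c1 _ (hfL _ (hpwD b))))
      rw [hs1, pw_pow, mul_comm s']
    refine hg'f (hfin _ (hcl {t | ∃ d ∈ D, d ^ p = t} ?_ ?_ ?_ _ ⟨g', hg'D, rfl⟩))
    · rintro _ ⟨d, hd, rfl⟩; exact D.pow_mem hd p
    · rintro l hl _ ⟨d, hd, rfl⟩
      exact ⟨_, hDn l hl d hd, conj_pow⟩
    · rintro hn _ ⟨d, hd, rfl⟩
      obtain ⟨m, hm, a, h⟩ := (hH' _).1 (c2 d hd)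
      obtain ⟨k', hk', h'⟩ := mul_pow_right (hn _ (L.inv_mem hm.1))
        (Subgroup.subset_closure (⟨_, hpwD a, rfl⟩ : _ ∈ {t | ∃ d ∈ D, d ^ p = t})) p
      rw [hfp d hd, h, h', hMp m hm, one_mul]
      exact hk'
  -- the unit case
  have hncl : ∀ n ∈ M, n ∉ D → ∀ W : Subgroup G, IsClosed (W : Set G) → n ∈ W →
      (∀ l ∈ L, ∀ w ∈ W, l * w * l⁻¹ ∈ W) → M ≤ W := by
    intro n hn hnD W hW hnW hWn m hm
    have h1 : (Subgroup.closure ({n, g} : Set G)).topologicalClosure = L :=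
      (gen hG u g rfl hpow hcom hn.1 hnD).resolve_left fun h =>
        hg (hfin g (hNp g (hmin n u N hN hn.2 hu (h ▸ hgL))))
    obtain ⟨H, hHc, hH⟩ := exists_semi hG (N := W ⊓ M) (hW.inter hMc) (g := g)
      fun w hw => ⟨hWn g hgL w hw.1, hgM w hw.2⟩
    obtain ⟨w, hw, a, h⟩ := (hH m).1 (hmin n g H hHc ((hH n).2 ⟨n, ⟨hnW, hn⟩, 0, by simp⟩)
      ((hH g).2 ⟨1, one_mem _, 1, by simp⟩) (h1 ▸ hm.1))
    by_cases ha : a = 0
    · rw [h, ha, pw_zero, mul_one]; exact hw.1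
    · exact absurd (hfin _ (hMp m hm)) (h ▸ not_fin_semi hG hMc hMp hg hgM hw.2 ha)
  by_contra hab
  have hab' : ¬ ∀ a ∈ M, ∀ b ∈ M, a * b = b * a := fun h => hab (h u huM _ (hgM u huM))
  have hB : ∀ B : Subgroup G, B ≤ M → (∀ l ∈ L, ∀ b ∈ B, l * b * l⁻¹ ∈ B) →
      (∀ a ∈ B, ∀ b ∈ B, a * b = b * a) → B ≤ D := by
    intro B h1 h2 h3 b hb
    by_contra hbD
    have := hncl b (h1 hb) hbD _ B.isClosed_topologicalClosure (B.le_topologicalClosure hb)
      fun l hl => conj_cl (h2 l hl)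
    exact hab' fun x hx y hy => comm_cl h3 x (this hx) y (this hy)
  obtain ⟨m2, hm2, hm2D, hn⟩ : ∃ m ∈ M, m ∈ D ∧ f m ∉ D := by
    by_contra h
    push Not at h
    have h0 := hs (M ⊓ D) inf_le_right (fun l hl m hm => ⟨hLM l hl m hm.1, hDn l hl m hm.2⟩)
      fun m hm => ⟨hfM m hm.1 hm.2, h m hm.1 hm.2⟩
    have h1 : ∀ a ∈ M, ∃ i : ℕ, a = m0 ^ i := fun a ha => by
      obtain ⟨i, hi⟩ := hgen m0 hm0.1 hm0D a ha.1
      have : (m0 ^ i)⁻¹ * a ∈ M ⊓ D := ⟨M.mul_mem (M.inv_mem (M.pow_mem hm0 i)) ha, hi⟩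
      rw [h0, Subgroup.mem_bot, inv_mul_eq_one] at this
      exact ⟨i, this.symm⟩
    refine hab' fun a ha b hb => ?_
    obtain ⟨i, rfl⟩ := h1 a ha
    obtain ⟨j, rfl⟩ := h1 b hb
    exact (Commute.pow_pow_self m0 i j).eq
  have hdense : ∀ W : Subgroup G, IsClosed (W : Set G) → (∀ d ∈ D, f d ∈ W) → L ≤ W := by
    intro W hW h
    by_contra hne
    obtain ⟨D', hD'c, h1, -, h3, -, h5⟩ := nak hG (W := W ⊓ L) (hW.inter hLc) hLc inf_le_right
      fun h' => hne (h'.trans inf_le_left)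
    have h6 : ∀ d ∈ D, f d ∈ D' := fun d hd => h1 ⟨h d hd, hfL d hd⟩
    have h7 : M ≤ D' ⊓ L := hncl _ (hfM m2 hm2 hm2D) hn _ (hD'c.inter hLc)
      ⟨h6 _ hm2D, hfL _ hm2D⟩ fun l hl w hw => by
        refine ⟨?_, L.mul_mem (L.mul_mem hl hw.2) (L.inv_mem hl)⟩
        have := D'.mul_mem (h5 l hl w hw.2) hw.1
        simpa [commutatorElement_def] using this
    have h8 : pw hG g' s ∈ D' := by
      have := h6 _ hg'D
      rw [hs1] at this
      exact (D'.mul_mem_cancel_left (h7 hm1).1).1 this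
    obtain ⟨s', hs'⟩ := hsu.exists_right_inv
    refine h3 fun l hl => ?_
    obtain ⟨m, hm, a, rfl⟩ := hdec l hl
    refine D'.mul_mem (h7 hm).1 ?_
    have := pw_mem hG hD'c h8 (s' * a)
    rwa [← pw_mul, ← mul_assoc, hs', one_mul] at this
  have hM0 : M = ⊥ := by
    refine eq_bot_of_abelian hLM fun B0 h01 h02 h03 => eq_bot_iff.2 fun b0 hb0 => ?_
    refine hcl {t | ∃ B : Subgroup G, B ≤ M ∧ (∀ l ∈ L, ∀ b ∈ B, l * b * l⁻¹ ∈ B) ∧
      (∀ a ∈ B, ∀ b ∈ B, a * b = b * a) ∧ t ∈ B} ?_ ?_ ?_ b0 ⟨B0, h01, h02, h03, hb0⟩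
    · rintro t ⟨B, h1, h2, h3, ht⟩; exact hB B h1 h2 h3 ht
    · rintro l hl t ⟨B, h1, h2, h3, ht⟩; exact ⟨B, h1, h2, h3, h2 l hl t ht⟩
    rintro - t ⟨B, h1, h2, h3, ht⟩
    have hBD := hB B h1 h2 h3
    let B1 : Subgroup G :=
      { carrier := f '' B
        one_mem' := ⟨1, B.one_mem, hf1⟩
        mul_mem' := by
          rintro _ _ ⟨a, ha, rfl⟩ ⟨b, hb, rfl⟩
          exact ⟨a * b, B.mul_mem ha hb, hf _ (hBD ha) _ (hBD hb)⟩
        inv_mem' := by
          rintro _ ⟨a, ha, rfl⟩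
          exact ⟨a⁻¹, B.inv_mem ha, hfi _ (hBD ha)⟩ }
    have hc1 := B1.isClosed_topologicalClosure
    let W : Subgroup G :=
      { carrier := {l | ∀ b ∈ B1.topologicalClosure, l * b * l⁻¹ ∈ B1.topologicalClosure ∧
          l⁻¹ * b * l⁻¹⁻¹ ∈ B1.topologicalClosure}
        one_mem' := fun b hb => by simpa using hb
        mul_mem' := fun {x y} hx hy b hb => by
          have e1 := (hx _ (hy b hb).1).1
          have e2 := (hy _ (hx b hb).2).2
          exact ⟨by simpa [mul_assoc] using e1, by simpa [mul_assoc] using e2⟩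
        inv_mem' := fun {x} hx b hb => ⟨(hx b hb).2, by simpa using (hx b hb).1⟩ }
    have hWc : IsClosed (W : Set G) := by
      change IsClosed {l : G | ∀ b ∈ B1.topologicalClosure, l * b * l⁻¹ ∈ B1.topologicalClosure ∧
          l⁻¹ * b * l⁻¹⁻¹ ∈ B1.topologicalClosure}
      simp only [Set.ofPred_forall]
      refine isClosed_iInter fun b => isClosed_iInter fun _ => IsClosed.inter ?_ ?_
      · exact hc1.preimage (f := fun l : G => l * b * l⁻¹) (by fun_prop)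
      · exact hc1.preimage (f := fun l : G => l⁻¹ * b * l⁻¹⁻¹) (by fun_prop)
    have hfB : ∀ d ∈ D, ∀ b ∈ B1, f d * b * (f d)⁻¹ ∈ B1 := by
      rintro d hd _ ⟨b, hb, rfl⟩
      exact ⟨_, h2 d (hDL hd) b hb, hfc d hd b (hBD hb)⟩
    have hLW := hdense W hWc fun d hd b hb =>
      ⟨conj_cl (hfB d hd) b hb, by rw [← hfi d hd]; exact conj_cl (hfB _ (D.inv_mem hd)) b hb⟩
    refine Subgroup.subset_closure ⟨B1.topologicalClosure, ?_, fun l hl b hb => (hLW hl b hb).1,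
      comm_cl ?_, B1.le_topologicalClosure ⟨t, ht, rfl⟩⟩
    · refine Subgroup.topologicalClosure_minimal _ ?_ hMc
      rintro _ ⟨b, hb, rfl⟩
      exact hfM b (h1 hb) (hBD hb)
    · rintro _ ⟨a, ha, rfl⟩ _ ⟨b, hb, rfl⟩
      rw [← hf _ (hBD ha) _ (hBD hb), ← hf _ (hBD hb) _ (hBD ha), h3 a ha b hb]
  exact hu1 (by rwa [hM0, Subgroup.mem_bot] at huM)

end Pool.Agent.Lib.MP_2dbb30_al.LL
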